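import Pool.Agent.H460R2.WQ

/-! Module Flag: adapted size-reduced basis of a flag -/

set_option autoImplicit false

namespace H460

variable {E : Type*} [NormedAddCommGroup E] [InnerProductSpace ℝ E] [FiniteDimensional ℝ E]

omit [FiniteDimensional ℝ E] in
theorem Flag_cut_cut {L : AddSubgroup E} {U V : Submodule ℝ E} (h : U ≤ V) :
    cut (cut L V) U = cut L U := by
  ext x
  simp only [cut, AddSubgroup.mem_inf, Submodule.mem_toAddSubgroup]
  constructor
  · rintro ⟨⟨h1, _⟩, h3⟩
    exact ⟨h1, h3⟩
  · rintro ⟨h1, h3⟩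
    exact ⟨⟨h1, h h3⟩, h3⟩

theorem Flag_step {L : AddSubgroup E} (h : Disc L) {U V : Submodule ℝ E} (hUV : U ≤ V)
    (hdim : Module.finrank ℝ V = Module.finrank ℝ U + 1) (hU : Sat L U) (hV : Sat L V) :
    ∃ y s : E, y ∈ cut L V ∧ s ≠ 0 ∧ y - s ∈ U ∧ s ∈ Uᗮ ∧
      ‖s‖ * w (cut L V) = Real.sqrt Real.pi * w (cut L U) := by
  have hG : Disc (cut L V) := h.mono inf_le_left
  have hsat : Sat (cut L V) U := by
    unfold Sat
    rw [Flag_cut_cut hUV]
    exact hU
  have hrk := rk_quo hG hsat
  rw [Flag_cut_cut hUV] at hrk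
  have h1 : rk (cut L V) = Module.finrank ℝ V := by
    unfold rk
    unfold Sat at hV
    rw [hV]
  have h2 : rk (cut L U) = Module.finrank ℝ U := by
    unfold rk
    unfold Sat at hU
    rw [hU]
  have h3 : rk (quo (cut L V) U) = 1 := by omega
  have hq := disc_quo hG hsat
  obtain ⟨b, hb, hcl⟩ := hq.exists_basis
  have hpos : 0 < rk (quo (cut L V) U) := by omega
  set i0 : Fin (rk (quo (cut L V) U)) := ⟨0, hpos⟩ with hi0
  have hall : ∀ i : Fin (rk (quo (cut L V) U)), i = i0 := by
    intro i
    apply Fin.ext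
    have := i.2
    simp only [hi0]
    omega
  have hrange : Set.range b = {b i0} := by
    ext x
    simp only [Set.mem_range, Set.mem_singleton_iff]
    constructor
    · rintro ⟨i, rfl⟩
      rw [hall i]
    · rintro rfl
      exact ⟨i0, rfl⟩
  have hz : AddSubgroup.zmultiples (b i0) = quo (cut L V) U := by
    rw [← hcl, hrange, AddSubgroup.zmultiples_eq_closure]
  have hs0 : b i0 ≠ 0 := hb.ne_zero i0
  have hsmem : b i0 ∈ quo (cut L V) U := by
    rw [← hz]
    exact AddSubgroup.mem_zmultiples _
  obtain ⟨y, hy, hys⟩ := hsmem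
  have hys' : (Uᗮ).starProjection y = b i0 := hys
  refine ⟨y, b i0, hy, hs0, ?_, ?_, ?_⟩
  · rw [← hys']
    have := Submodule.sub_starProjection_mem_orthogonal (K := Uᗮ) y
    rwa [Submodule.orthogonal_orthogonal] at this
  · rw [← hys']
    exact Submodule.starProjection_apply_mem _ _
  · have hw := w_quo hG hsat
    rw [Flag_cut_cut hUV, ← hz, (w_line hs0).2.2] at hw
    rw [hw]
    have : ‖b i0‖ ≠ 0 := norm_ne_zero_iff.mpr hs0
    field_simp

theorem exists_adapted {L : AddSubgroup E} (h : Disc L) (d : ℕ) (V : ℕ → Submodule ℝ E)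
    (hV : ∀ j < d, V j ≤ V (j + 1)) (hdim : ∀ j ≤ d, Module.finrank ℝ (V j) = j)
    (hsat : ∀ j ≤ d, Sat L (V j)) :
    ∃ b : Fin d → E, (∀ i, b i ∈ L) ∧ LinearIndependent ℝ b ∧
      (∀ i j : Fin d, i < j → |inner ℝ (b j) (InnerProductSpace.gramSchmidt ℝ b i)| ≤
        ‖InnerProductSpace.gramSchmidt ℝ b i‖ ^ 2 / 2) ∧
      ∀ j : Fin d, (∏ i ∈ Finset.Iic j, ‖InnerProductSpace.gramSchmidt ℝ b i‖) *
        w (cut L (V ((j : ℕ) + 1))) = Real.sqrt Real.pi ^ ((j : ℕ) + 1) := by
  -- step 1: representatives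
  have hstep : ∀ j : ℕ, ∃ y s : E, j < d → (y ∈ cut L (V (j + 1)) ∧ s ≠ 0 ∧ y - s ∈ V j ∧
      s ∈ (V j)ᗮ ∧ ‖s‖ * w (cut L (V (j + 1))) = Real.sqrt Real.pi * w (cut L (V j))) := by
    intro j
    by_cases hj : j < d
    · obtain ⟨y, s, hys⟩ := Flag_step h (hV j hj)
        (by rw [hdim j hj.le, hdim (j + 1) hj]) (hsat j hj.le) (hsat (j + 1) hj)
      exact ⟨y, s, fun _ => hys⟩
    · exact ⟨0, 0, fun hj' => absurd hj' hj⟩
  choose y s hys using hstep
  have hmono : ∀ i j : ℕ, i ≤ j → j ≤ d → V i ≤ V j := by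
    intro i j hij
    induction j, hij using Nat.le_induction with
    | base => intro _; exact le_rfl
    | succ j hij ih =>
      intro hjd
      exact (ih (by omega)).trans (hV j (by omega))
  have hs_mem : ∀ j < d, s j ∈ V (j + 1) := by
    intro j hj
    obtain ⟨h1, h2, h3, h4, h5⟩ := hys j hj
    have : s j = y j - (y j - s j) := by abel
    rw [this]
    exact Submodule.sub_mem _ h1.2 (hV j hj h3)
  -- step 2: size reduction
  have hred : ∀ j ≤ d, ∀ x : E, ∃ g ∈ cut L (V j), ∀ i < j,
      |inner ℝ (x - g) (s i)| ≤ ‖s i‖ ^ 2 / 2 := by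
    intro j
    induction j with
    | zero =>
      intro _ x
      exact ⟨0, zero_mem _, fun i hi => absurd hi (Nat.not_lt_zero i)⟩
    | succ j ih =>
      intro hj x
      have hjd : j < d := hj
      obtain ⟨h1, h2, h3, h4, h5⟩ := hys j hjd
      set z : ℤ := round (inner ℝ x (s j) / ‖s j‖ ^ 2) with hz
      obtain ⟨g, hg, hgi⟩ := ih hjd.le (x - z • y j)
      refine ⟨z • y j + g, ?_, ?_⟩
      · refine add_mem (zsmul_mem h1 z) ?_
        exact ⟨hg.1, hV j hjd hg.2⟩
      · intro i hi
        rcases Nat.lt_succ_iff_lt_or_eq.mp hi with hlt | heq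
        · have := hgi i hlt
          rwa [sub_sub] at this
        · subst heq
          have hys_inner : inner ℝ (y i) (s i) = ‖s i‖ ^ 2 := by
            have e : y i = (y i - s i) + s i := by abel
            rw [e, inner_add_left, (Submodule.mem_orthogonal _ _).mp h4 _ h3,
              real_inner_self_eq_norm_sq, zero_add]
          have hgs : inner ℝ g (s i) = 0 := (Submodule.mem_orthogonal _ _).mp h4 _ hg.2
          have hpos : 0 < ‖s i‖ ^ 2 := by
            have := norm_pos_iff.mpr h2
            positivity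
          have e2 : inner ℝ (x - (z • y i + g)) (s i) =
              ‖s i‖ ^ 2 * (inner ℝ x (s i) / ‖s i‖ ^ 2 - z) := by
            rw [inner_sub_left, inner_add_left, hgs, ← Int.cast_smul_eq_zsmul ℝ z (y i),
              real_inner_smul_left, hys_inner]
            field_simp
            ring
          rw [e2, abs_mul, abs_of_pos hpos]
          have h6 := abs_sub_round (inner ℝ x (s i) / ‖s i‖ ^ 2)
          rw [← hz] at h6
          calc ‖s i‖ ^ 2 * |inner ℝ x (s i) / ‖s i‖ ^ 2 - z| ≤ ‖s i‖ ^ 2 * (1 / 2) :=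
                mul_le_mul_of_nonneg_left h6 hpos.le
            _ = ‖s i‖ ^ 2 / 2 := by ring
  -- step 3: the basis
  have hb : ∀ j : ℕ, ∃ b : E, j < d → (b ∈ cut L (V (j + 1)) ∧ b - s j ∈ V j ∧
      ∀ i < j, |inner ℝ b (s i)| ≤ ‖s i‖ ^ 2 / 2) := by
    intro j
    by_cases hj : j < d
    · obtain ⟨g, hg, hgi⟩ := hred j hj.le (y j)
      obtain ⟨h1, h2, h3, h4, h5⟩ := hys j hj
      refine ⟨y j - g, fun _ => ⟨?_, ?_, hgi⟩⟩
      · exact sub_mem h1 ⟨hg.1, hV j hj hg.2⟩
      · have e : y j - g - s j = (y j - s j) - g := by abel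
        rw [e]
        exact sub_mem h3 hg.2
    · exact ⟨0, fun hj' => absurd hj' hj⟩
  choose b hb using hb
  -- step 4: spans
  have hb_nmem : ∀ j < d, b j ∉ V j := by
    intro j hj hmem
    obtain ⟨h1, h2, h3, h4, h5⟩ := hys j hj
    have : s j ∈ V j := by
      have e : s j = b j - (b j - s j) := by abel
      rw [e]
      exact sub_mem hmem (hb j hj).2.1
    have h0 : inner ℝ (s j) (s j) = 0 := (Submodule.mem_orthogonal _ _).mp h4 _ this
    exact h2 (inner_self_eq_zero.mp h0)
  have hspan : ∀ j ≤ d, Submodule.span ℝ (b '' Set.Iio j) = V j := by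
    intro j
    induction j with
    | zero =>
      intro hj
      have h0 : V 0 = ⊥ := Submodule.finrank_eq_zero.mp (hdim 0 hj)
      have : Set.Iio (0 : ℕ) = ∅ := by
        ext x; simp
      rw [h0, this, Set.image_empty, Submodule.span_empty]
    | succ j ih =>
      intro hj
      have hjd : j < d := hj
      have e : Set.Iio (j + 1) = insert j (Set.Iio j) := by
        ext x
        simp only [Set.mem_Iio, Set.mem_insert_iff]
        omega
      rw [e, Set.image_insert_eq, Submodule.span_insert, ih hjd.le]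
      have hle : Submodule.span ℝ {b j} ⊔ V j ≤ V (j + 1) := by
        refine sup_le ?_ (hV j hjd)
        rw [Submodule.span_singleton_le_iff_mem]
        exact (hb j hjd).1.2
      have hlt : V j < Submodule.span ℝ {b j} ⊔ V j := by
        refine lt_of_le_of_ne le_sup_right ?_
        intro heq
        apply hb_nmem j hjd
        rw [heq]
        exact Submodule.mem_sup_left (Submodule.mem_span_singleton_self _)
      apply Submodule.eq_of_le_of_finrank_le hle
      have := Submodule.finrank_lt_finrank_of_lt hlt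
      rw [hdim j hjd.le] at this
      rw [hdim (j + 1) hj]
      omega
  -- Gram-Schmidt vectors
  let B : Fin d → E := fun i => b i
  have himg : ∀ i : Fin d, B '' Set.Iio i = b '' Set.Iio (i : ℕ) := by
    intro i
    ext x
    constructor
    · rintro ⟨k, hk, rfl⟩
      exact ⟨(k : ℕ), hk, rfl⟩
    · rintro ⟨k, hk, rfl⟩
      have hk' : k < (i : ℕ) := hk
      exact ⟨⟨k, hk'.trans i.2⟩, hk', rfl⟩
  have hgs : ∀ i : Fin d, InnerProductSpace.gramSchmidt ℝ B i = s i := by
    intro i
    obtain ⟨h1, h2, h3, h4, h5⟩ := hys i i.2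
    -- difference lies in `V i`
    have hspan' : Submodule.span ℝ (InnerProductSpace.gramSchmidt ℝ B '' Set.Iio i) = V i := by
      rw [InnerProductSpace.span_gramSchmidt_Iio, himg, hspan i i.2.le]
    have hd1 : InnerProductSpace.gramSchmidt ℝ B i - b i ∈ V i := by
      rw [InnerProductSpace.gramSchmidt_def]
      have e : B i - ∑ k ∈ Finset.Iio i,
          (ℝ ∙ InnerProductSpace.gramSchmidt ℝ B k).starProjection (B i) - b i =
          - ∑ k ∈ Finset.Iio i,
          (ℝ ∙ InnerProductSpace.gramSchmidt ℝ B k).starProjection (B i) := by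
        show b i - _ - b i = _
        abel
      rw [e]
      refine neg_mem (Submodule.sum_mem _ ?_)
      intro k hk
      have hk' : k < i := Finset.mem_Iio.mp hk
      have hmem := Submodule.starProjection_apply_mem
        (ℝ ∙ InnerProductSpace.gramSchmidt ℝ B k) (B i)
      rw [← hspan']
      refine Submodule.span_mono ?_ hmem
      rintro _ rfl
      exact ⟨k, hk', rfl⟩
    have hd2 : InnerProductSpace.gramSchmidt ℝ B i - s i ∈ V i := by
      have e : InnerProductSpace.gramSchmidt ℝ B i - s i =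
          (InnerProductSpace.gramSchmidt ℝ B i - b i) + (b i - s i) := by abel
      rw [e]
      exact add_mem hd1 (hb i i.2).2.1
    have hd3 : InnerProductSpace.gramSchmidt ℝ B i - s i ∈ (V i)ᗮ := by
      refine sub_mem ?_ h4
      rw [← hspan']
      rw [Submodule.mem_orthogonal]
      intro u hu
      induction hu using Submodule.span_induction with
      | mem x hx =>
        obtain ⟨k, hk, rfl⟩ := hx
        exact InnerProductSpace.gramSchmidt_orthogonal ℝ B (ne_of_lt hk)
      | zero => exact inner_zero_left _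
      | add x y _ _ hx hy => rw [inner_add_left, hx, hy, add_zero]
      | smul a x _ hx => rw [inner_smul_left, hx, mul_zero]
    have h0 : inner ℝ (InnerProductSpace.gramSchmidt ℝ B i - s i)
        (InnerProductSpace.gramSchmidt ℝ B i - s i) = 0 :=
      (Submodule.mem_orthogonal _ _).mp hd3 _ hd2
    exact sub_eq_zero.mp (inner_self_eq_zero.mp h0)
  refine ⟨B, fun i => (hb i i.2).1.1, ?_, ?_, ?_⟩
  · -- linear independence
    rw [linearIndependent_iff_card_eq_finrank_span]
    have hr : Set.range B = b '' Set.Iio d := by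
      ext x
      constructor
      · rintro ⟨k, rfl⟩
        exact ⟨(k : ℕ), k.2, rfl⟩
      · rintro ⟨k, hk, rfl⟩
        exact ⟨⟨k, hk⟩, rfl⟩
    rw [Set.finrank, hr, hspan d le_rfl, hdim d le_rfl, Fintype.card_fin]
  · intro i j hij
    rw [hgs i]
    exact (hb j j.2).2.2 i hij
  · intro j
    have hprod : (∏ i ∈ Finset.Iic j, ‖InnerProductSpace.gramSchmidt ℝ B i‖) =
        ∏ i ∈ Finset.range ((j : ℕ) + 1), ‖s i‖ := by
      refine Finset.prod_bij (fun (i : Fin d) _ => (i : ℕ)) ?_ ?_ ?_ ?_
      · intro i hi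
        have : i ≤ j := Finset.mem_Iic.mp hi
        have h' : (i : ℕ) ≤ j := this
        rw [Finset.mem_range]
        omega
      · intro a _ c _ hac
        exact Fin.ext hac
      · intro k hk
        rw [Finset.mem_range] at hk
        have hkj : k ≤ (j : ℕ) := by omega
        refine ⟨⟨k, lt_of_le_of_lt hkj j.2⟩, ?_, rfl⟩
        rw [Finset.mem_Iic]
        exact hkj
      · intro i _
        rw [hgs i]
    rw [hprod]
    have key : ∀ m ≤ d, (∏ i ∈ Finset.range m, ‖s i‖) * w (cut L (V m)) =
        Real.sqrt Real.pi ^ m := by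
      intro m
      induction m with
      | zero =>
        intro hm
        have h0 : V 0 = ⊥ := Submodule.finrank_eq_zero.mp (hdim 0 hm)
        have hc : cut L (V 0) = ⊥ := by
          rw [h0]
          ext x
          simp only [cut, AddSubgroup.mem_inf, Submodule.mem_toAddSubgroup, Submodule.mem_bot,
            AddSubgroup.mem_bot]
          constructor
          · exact fun hx => hx.2
          · rintro rfl
            exact ⟨zero_mem _, rfl⟩
        rw [hc, w_bot]
        simp
      | succ m ih =>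
        intro hm
        obtain ⟨h1, h2, h3, h4, h5⟩ := hys m hm
        rw [Finset.prod_range_succ, mul_assoc, h5, ← mul_assoc,
          mul_comm (∏ i ∈ Finset.range m, ‖s i‖) (Real.sqrt Real.pi), mul_assoc,
          ih (by omega), pow_succ]
        ring
    exact key ((j : ℕ) + 1) j.2

end H460
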