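import Pool.Agent.H460R2.Chain
import Pool.Agent.H460R2.Flag

/-! Module BadT: a sublattice with large w produces a bad tuple -/

set_option autoImplicit false

namespace H460

variable {E : Type*} [NormedAddCommGroup E] [InnerProductSpace ℝ E] [FiniteDimensional ℝ E]

theorem badT_sqrtpi : 1 ≤ Real.sqrt Real.pi := by
  rw [show (1 : ℝ) = Real.sqrt 1 by simp]
  exact Real.sqrt_le_sqrt (by linarith [Real.pi_gt_three])

/-- If `w` of a subgroup of `ℤ^J` is not small, its `W`-image cannot have rank `≥ n/2`. -/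
theorem exists_bad {n μ κ : ℕ} {L : AddSubgroup (Fin n → ℤ)} (hL : Good n μ L)
    (hμ : μ + 4 ≤ n ^ 2)
    (hn : 2 * Real.sqrt Real.pi ^ (κ * n) * (n : ℝ) ^ ((n : ℝ) / 64) ≤ (n : ℝ) ^ ((n : ℝ) / 32))
    {J : Type} [Fintype J] (hJ : Fintype.card J ≤ κ * n)
    (W : (J → ℤ) →+ (Fin n → ℤ)) (hW : ∀ x, W x ∈ L) (Γ : AddSubgroup (J → ℤ))
    (hΓ : 1 / 2 ≤ w (Γ.map (embW W (2 ^ (n ^ 2)))) * (n : ℝ) ^ ((n : ℝ) / 64)) :
    rk ((Γ.map W).map (emb (Fin n))) ≤ n / 2 := by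
  by_contra hcon
  rw [not_le] at hcon
  obtain ⟨Λ, hΛW, hΛs, hΛr, hΛw⟩ := exists_chain W (n ^ 2) Γ (n / 2) hcon.le
  have hL' : Disc (L.map (emb (Fin n))) := disc_emb L
  have hΛL : ∀ j, Λ j ≤ L := by
    intro j x hx
    obtain ⟨y, _, rfl⟩ := hΛW j hx
    exact hW y
  have hΛL' : ∀ j, (Λ j).map (emb (Fin n)) ≤ L.map (emb (Fin n)) := fun j =>
    AddSubgroup.map_mono (hΛL j)
  set V : ℕ → Submodule ℝ (EuclideanSpace ℝ (Fin n)) := fun j =>
    Submodule.span ℝ (((Λ j).map (emb (Fin n)) : AddSubgroup (EuclideanSpace ℝ (Fin n))) :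
      Set (EuclideanSpace ℝ (Fin n))) with hV
  have hVle : ∀ j < n / 2, V j ≤ V (j + 1) := by
    intro j hj
    exact Submodule.span_mono (AddSubgroup.map_mono (hΛs j hj))
  have hVdim : ∀ j ≤ n / 2, Module.finrank ℝ (V j) = j := fun j hj => hΛr j hj
  have hcutle : ∀ j, (Λ j).map (emb (Fin n)) ≤ cut (L.map (emb (Fin n))) (V j) := by
    intro j x hx
    exact ⟨hΛL' j hx, Submodule.subset_span hx⟩
  have hsat : ∀ j, Sat (L.map (emb (Fin n))) (V j) := by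
    intro j
    apply le_antisymm
    · rw [Submodule.span_le]
      intro x hx
      exact hx.2
    · exact Submodule.span_mono (hcutle j)
  obtain ⟨b, hbL, hbi, hbr, hbp⟩ := exists_adapted hL' (n / 2) V hVle hVdim (fun j _ => hsat j)
  choose c hcL hcb using hbL
  have hcb' : (fun i => emb (Fin n) (c i)) = b := funext hcb
  have hgs : ∀ i, gs c i = InnerProductSpace.gramSchmidt ℝ b i := by
    intro i
    unfold gs
    rw [hcb']
  -- rank of the cuts
  have hrkcut : ∀ j ≤ n / 2, rk (cut (L.map (emb (Fin n))) (V j)) = j := by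
    intro j hj
    unfold rk
    rw [hsat j]
    exact hVdim j hj
  have hdcut : ∀ j, Disc (cut (L.map (emb (Fin n))) (V j)) := fun j => hL'.mono inf_le_left
  have hpi := badT_sqrtpi
  have hpi0 : 0 < Real.sqrt Real.pi := by linarith
  set Γt := Γ.map (embW W (2 ^ (n ^ 2))) with hΓt
  have hwΓ : 0 < w Γt := w_pos (disc_embW W _ Γ)
  apply hL.notuple c hcL
  refine ⟨?_, ?_, ?_⟩
  · rw [hcb']; exact hbi
  · intro i j hij
    rw [hgs, hcb j]
    exact hbr i j hij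
  · intro j
    have hj1 : (j : ℕ) + 1 ≤ n / 2 := j.2
    have hprod := hbp j
    have hgsprod : ∏ i ∈ Finset.Iic j, ‖gs c i‖ =
        ∏ i ∈ Finset.Iic j, ‖InnerProductSpace.gramSchmidt ℝ b i‖ :=
      Finset.prod_congr rfl (fun i _ => by rw [hgs])
    rw [hgsprod]
    set P := ∏ i ∈ Finset.Iic j, ‖InnerProductSpace.gramSchmidt ℝ b i‖ with hP
    set wc := w (cut (L.map (emb (Fin n))) (V ((j : ℕ) + 1))) with hwc
    have hwc0 : 0 < wc := w_pos (hdcut _)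
    have hPeq : P = Real.sqrt Real.pi ^ ((j : ℕ) + 1) / wc := by
      rw [eq_div_iff hwc0.ne']; exact hprod
    constructor
    · -- lower bound
      have hwle := w_le (hdcut ((j : ℕ) + 1)) (n ^ 2 - μ - 4)
      rw [hrkcut _ hj1] at hwle
      have hNN : NN n μ = 16 * 2 ^ (n ^ 2 - μ - 4) := by
        unfold NN
        have : n ^ 2 - μ = 4 + (n ^ 2 - μ - 4) := by omega
        rw [this, pow_add]
        norm_num
      have hq : ((1 / 4 : ℝ) ^ (n ^ 2 - μ - 4)) = 256 / NN n μ ^ 2 := by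
        rw [hNN, mul_pow, ← pow_mul, mul_comm (n ^ 2 - μ - 4) 2, pow_mul]
        norm_num
        rw [div_pow, one_pow]
        field_simp
      have hth : th (cut (L.map (emb (Fin n))) (V ((j : ℕ) + 1))) 0
          ((1 / 4 : ℝ) ^ (n ^ 2 - μ - 4)) ≤ 2 := by
        refine (th_mono hL' inf_le_left 0 (by positivity)).trans ?_
        rw [hq]
        exact hL.theta
      have h2 : wc ≤ 2 / 2 ^ ((n ^ 2 - μ - 4) * ((j : ℕ) + 1)) :=
        hwle.trans (div_le_div_of_nonneg_right hth (by positivity))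
      rw [hPeq, le_div_iff₀ hwc0]
      have h3 : NN n μ / 16 = 2 ^ (n ^ 2 - μ - 4) := by
        rw [hNN]; ring
      rw [h3]
      have h4 : (1 : ℝ) ≤ Real.sqrt Real.pi ^ ((j : ℕ) + 1) := one_le_pow₀ hpi
      refine le_trans ?_ h4
      rw [← pow_mul]
      have hpos : (0 : ℝ) < 2 ^ ((n ^ 2 - μ - 4) * ((j : ℕ) + 1)) := by positivity
      calc 1 / 2 * (2 : ℝ) ^ ((n ^ 2 - μ - 4) * ((j : ℕ) + 1)) * wc
          ≤ 1 / 2 * (2 : ℝ) ^ ((n ^ 2 - μ - 4) * ((j : ℕ) + 1)) *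
            (2 / 2 ^ ((n ^ 2 - μ - 4) * ((j : ℕ) + 1))) :=
            mul_le_mul_of_nonneg_left h2 (by positivity)
        _ = 1 := by field_simp
    · -- upper bound
      have hmono : w ((Λ ((j : ℕ) + 1)).map (emb (Fin n))) ≤ wc := by
        apply w_mono (hdcut _) (hcutle _)
        rw [hrkcut _ hj1]
        exact hΛr _ hj1
      have hch := hΛw _ hj1
      have hrk : rk Γt ≤ κ * n := (rk_embW W _ Γ).trans hJ
      have hT : (0 : ℝ) < 2 ^ (n ^ 2 * ((j : ℕ) + 1)) := by positivity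
      have h5 : Real.sqrt Real.pi ^ ((j : ℕ) + 1) * (w Γt / Real.sqrt Real.pi ^ rk Γt) ≤
          (2 : ℝ) ^ (n ^ 2 * ((j : ℕ) + 1)) * wc :=
        hch.trans (mul_le_mul_of_nonneg_left hmono hT.le)
      have hTT : TT n ^ ((j : ℕ) + 1) = (2 : ℝ) ^ (n ^ 2 * ((j : ℕ) + 1)) := by
        unfold TT
        rw [← pow_mul]
      rw [hTT, hPeq, div_le_iff₀ hwc0]
      have hs0 : (0 : ℝ) < Real.sqrt Real.pi ^ rk Γt := by positivity
      have h6 : Real.sqrt Real.pi ^ ((j : ℕ) + 1) * w Γt ≤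
          (2 : ℝ) ^ (n ^ 2 * ((j : ℕ) + 1)) * wc * Real.sqrt Real.pi ^ rk Γt := by
        have := mul_le_mul_of_nonneg_right h5 hs0.le
        have e : Real.sqrt Real.pi ^ ((j : ℕ) + 1) * (w Γt / Real.sqrt Real.pi ^ rk Γt) *
            Real.sqrt Real.pi ^ rk Γt = Real.sqrt Real.pi ^ ((j : ℕ) + 1) * w Γt := by
          field_simp
        rw [e] at this
        exact this
      have hn0 : (0 : ℝ) ≤ (n : ℝ) ^ ((n : ℝ) / 64) := by positivity
      -- multiply by `2 n^(n/64)`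
      have h7 : Real.sqrt Real.pi ^ ((j : ℕ) + 1) ≤
          Real.sqrt Real.pi ^ ((j : ℕ) + 1) * w Γt * (2 * (n : ℝ) ^ ((n : ℝ) / 64)) := by
        have h8 : 1 ≤ w Γt * (2 * (n : ℝ) ^ ((n : ℝ) / 64)) := by linarith
        have h9 : (0 : ℝ) ≤ Real.sqrt Real.pi ^ ((j : ℕ) + 1) := by positivity
        nlinarith
      have h10 : Real.sqrt Real.pi ^ rk Γt ≤ Real.sqrt Real.pi ^ (κ * n) :=
        pow_le_pow_right₀ hpi hrk
      calc Real.sqrt Real.pi ^ ((j : ℕ) + 1)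
          ≤ Real.sqrt Real.pi ^ ((j : ℕ) + 1) * w Γt * (2 * (n : ℝ) ^ ((n : ℝ) / 64)) := h7
        _ ≤ (2 : ℝ) ^ (n ^ 2 * ((j : ℕ) + 1)) * wc * Real.sqrt Real.pi ^ rk Γt *
            (2 * (n : ℝ) ^ ((n : ℝ) / 64)) := mul_le_mul_of_nonneg_right h6 (by positivity)
        _ ≤ (2 : ℝ) ^ (n ^ 2 * ((j : ℕ) + 1)) * wc * Real.sqrt Real.pi ^ (κ * n) *
            (2 * (n : ℝ) ^ ((n : ℝ) / 64)) := by
            apply mul_le_mul_of_nonneg_right _ (by positivity)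
            exact mul_le_mul_of_nonneg_left h10 (by positivity)
        _ = (2 : ℝ) ^ (n ^ 2 * ((j : ℕ) + 1)) * wc *
            (2 * Real.sqrt Real.pi ^ (κ * n) * (n : ℝ) ^ ((n : ℝ) / 64)) := by ring
        _ ≤ (2 : ℝ) ^ (n ^ 2 * ((j : ℕ) + 1)) * wc * (n : ℝ) ^ ((n : ℝ) / 32) :=
            mul_le_mul_of_nonneg_left hn (by positivity)
        _ = (2 : ℝ) ^ (n ^ 2 * ((j : ℕ) + 1)) * (n : ℝ) ^ ((n : ℝ) / 32) * wc := by ring

end H460
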