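import Pool.Agent.H460R2.Defs
import Pool.Agent.H137R2.PFR.Stubs

/-! Module Bridge: PFR2Statement from helper137's theorem. -/

set_option autoImplicit false

namespace H460

open H137.PFR

theorem bridge_cnv {G : Type*} [AddCommGroup G] [Fintype G] (μ ν : G → ℝ) :
    cnv μ ν = conv μ ν := by
  classical
  funext x
  unfold cnv conv push prod
  rw [Fintype.sum_prod_type]
  refine Finset.sum_congr rfl fun y _ => ?_
  rw [Finset.sum_eq_single (x - y)]
  · simp
  · intro z _ hz
    have : y + z ≠ x := by
      intro h
      apply hz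
      rw [← h]
      abel
    simp [this]
  · intro h
    exact absurd (Finset.mem_univ _) h

theorem bridge_max {α : Type*} [Fintype α] {p : α → ℝ} (hp : ∀ x, 0 ≤ p x)
    (hs : ∑ x, p x = 1) : ∃ x, Real.exp (-(∑ x, Real.negMulLog (p x))) ≤ p x := by
  classical
  by_contra hcon
  push Not at hcon
  set E0 := ∑ x, Real.negMulLog (p x) with hE
  have h1 : E0 < E0 := by
    have h2 : ∑ x, p x * E0 < ∑ x, Real.negMulLog (p x) := by
      apply Finset.sum_lt_sum
      · intro x _
        rcases (hp x).eq_or_lt with h0 | h0
        · rw [← h0]; simp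
        · rw [Real.negMulLog]
          have hx := hcon x
          have : Real.log (p x) < -E0 := by
            rw [Real.log_lt_iff_lt_exp h0]
            exact hx
          nlinarith
      · have : ∃ x, 0 < p x := by
          by_contra hno
          push Not at hno
          have : ∑ x, p x = 0 := Finset.sum_eq_zero fun x _ => le_antisymm (hno x) (hp x)
          rw [this] at hs
          exact zero_ne_one hs
        obtain ⟨x, hx0⟩ := this
        refine ⟨x, Finset.mem_univ _, ?_⟩
        rw [Real.negMulLog]
        have hx := hcon x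
        have : Real.log (p x) < -E0 := by
          rw [Real.log_lt_iff_lt_exp hx0]
          exact hx
        nlinarith
    rw [← Finset.sum_mul, hs, one_mul] at h2
    exact h2
  exact lt_irrefl _ h1

theorem pfr2Statement : PFR2Statement := by
  classical
  refine ⟨22, by norm_num, ?_⟩
  intro G _ _ h2 μ hμ hs
  obtain ⟨H, hH1, hH2⟩ := pfr2 h2 (μ := μ) ⟨hμ, hs⟩
  have hc : cnv μ μ = conv μ μ := bridge_cnv μ μ
  have hE : ∀ f : G → ℝ, Ent f = ent f := fun f => rfl
  have hlaw := law_push (w := μ) ⟨hμ, hs⟩ (fun x : G => (QuotientAddGroup.mk x : G ⧸ H))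
  obtain ⟨q, hq⟩ := bridge_max hlaw.1 hlaw.2
  obtain ⟨g, rfl⟩ := QuotientAddGroup.mk_surjective q
  refine ⟨H, g, ?_, ?_⟩
  · rw [hc, hE, hE]
    calc Real.exp (-(22 * (ent (conv μ μ) - ent μ)))
        ≤ Real.exp (-(entMod μ H)) := by
          apply Real.exp_le_exp.mpr
          linarith
      _ ≤ push μ (fun x : G => (QuotientAddGroup.mk x : G ⧸ H)) (QuotientAddGroup.mk g) := hq
      _ = _ := by
          unfold push
          refine Finset.sum_congr rfl fun x _ => ?_
          have : ((QuotientAddGroup.mk x : G ⧸ H) = QuotientAddGroup.mk g) ↔ x - g ∈ H := by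
            rw [eq_comm, QuotientAddGroup.eq, sub_eq_neg_add]
          by_cases hx : x - g ∈ H
          · rw [if_pos (this.mpr hx), if_pos hx]
          · rw [if_neg (fun h => hx (this.mp h)), if_neg hx]
  · rw [hc, hE, hE]
    have := (abs_le.mp hH2).2
    linarith

end H460
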