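import Pool.Agent.H460R2.EmbL

/-! Module PtsBound: points of a good lattice in a subspace and a box -/

set_option autoImplicit false

namespace H460

variable {E : Type*} [NormedAddCommGroup E] [InnerProductSpace ℝ E] [FiniteDimensional ℝ E]

theorem PtsBound_iter {Γ : AddSubgroup E} (h : Disc Γ) {t : ℝ} (ht : 0 < t) (k : ℕ) :
    th Γ 0 t ≤ 2 ^ (k * rk Γ) * th Γ 0 (4 ^ k * t) := by
  induction k with
  | zero => simp
  | succ k ih =>
    have h1 := th_le_two_pow h (t := 4 ^ k * t) (by positivity)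
    calc th Γ 0 t ≤ 2 ^ (k * rk Γ) * th Γ 0 (4 ^ k * t) := ih
      _ ≤ 2 ^ (k * rk Γ) * (2 ^ rk Γ * th Γ 0 (4 * (4 ^ k * t))) :=
          mul_le_mul_of_nonneg_left h1 (by positivity)
      _ = 2 ^ ((k + 1) * rk Γ) * th Γ 0 (4 ^ (k + 1) * t) := by
          have e1 : (4 : ℝ) * (4 ^ k * t) = 4 ^ (k + 1) * t := by ring
          rw [e1, add_mul, pow_add, one_mul]
          ring

theorem PtsBound_exp (n : ℕ) : Real.exp (4 * (n : ℝ)) ≤ 2 ^ (6 * n) := by
  have h1 : Real.exp 4 ≤ 2 ^ 6 := by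
    have h2 : Real.exp 4 = Real.exp 1 ^ 4 := by
      rw [← Real.exp_nat_mul]; norm_num
    rw [h2]
    have h3 := Real.exp_one_lt_d9
    have h4 := Real.exp_pos 1
    calc Real.exp 1 ^ 4 ≤ (2.7182818286 : ℝ) ^ 4 := pow_le_pow_left₀ h4.le h3.le 4
      _ ≤ 2 ^ 6 := by norm_num
  have h5 : Real.exp (4 * (n : ℝ)) = Real.exp 4 ^ n := by
    rw [← Real.exp_nat_mul]; ring_nf
  rw [h5, pow_mul]
  exact pow_le_pow_left₀ (Real.exp_pos _).le h1 n

theorem PtsBound_rk (Γ : AddSubgroup E) (V : Submodule ℝ E) :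
    rk (cut Γ V) ≤ Module.finrank ℝ V := by
  unfold rk
  refine Submodule.finrank_mono ?_
  rw [Submodule.span_le]
  intro x hx
  exact (AddSubgroup.mem_inf.1 hx).2

theorem pts_bound {n μ : ℕ} (hμ : μ + 4 ≤ n ^ 2) {L : AddSubgroup (Fin n → ℤ)} (hL : Good n μ L)
    (V : Submodule ℝ (EuclideanSpace ℝ (Fin n))) {d : ℕ} (hd : Module.finrank ℝ V ≤ d)
    (S : Finset (Fin n → ℤ)) (hS : ∀ x ∈ S, ∀ y ∈ S, x - y ∈ L ∧ emb (Fin n) (x - y) ∈ V)
    (z : Fin n → ℤ) (hz : ∀ x ∈ S, ∀ i, |x i - z i| ≤ 2 ^ (n ^ 2)) :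
    (S.card : ℝ) ≤ 2 ^ (6 * n + 1 + (μ + 4) * d) := by
  classical
  rcases S.eq_empty_or_nonempty with rfl | ⟨x₀, hx₀⟩
  · simp
  set L' := L.map (emb (Fin n)) with hL'
  have hdisc : Disc L' := disc_emb L
  have hdc : Disc (cut L' V) := hdisc.mono inf_le_left
  -- the image
  have hinj : Function.Injective (fun x : Fin n → ℤ => emb (Fin n) (x - x₀)) := by
    intro x y hxy
    have := emb_injective hxy
    simpa using this
  have hcard : (S.image (fun x => emb (Fin n) (x - x₀))).card = S.card :=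
    Finset.card_image_of_injective S hinj
  set T : ℝ := 2 ^ (n ^ 2) with hT
  have hTpos : 0 < T := by positivity
  have hmem : ∀ y ∈ S.image (fun x => emb (Fin n) (x - x₀)),
      y ∈ cut L' V ∧ ‖y‖ ^ 2 ≤ 4 * n * T ^ 2 := by
    intro y hy
    obtain ⟨x, hx, rfl⟩ := Finset.mem_image.1 hy
    obtain ⟨h1, h2⟩ := hS x hx x₀ hx₀
    refine ⟨AddSubgroup.mem_inf.2 ⟨⟨x - x₀, h1, rfl⟩, h2⟩, ?_⟩
    rw [EuclideanSpace.norm_sq_eq]
    have h3 : ∀ i, ‖(emb (Fin n) (x - x₀)).ofLp i‖ ^ 2 ≤ (2 * T) ^ 2 := by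
      intro i
      have e1 : (emb (Fin n) (x - x₀)).ofLp i = ((x i - x₀ i : ℤ) : ℝ) := by
        simp [emb]
      rw [e1, Real.norm_eq_abs]
      refine pow_le_pow_left₀ (abs_nonneg _) ?_ 2
      have h4 := hz x hx i
      have h5 := hz x₀ hx₀ i
      have h6 : |x i - x₀ i| ≤ 2 * 2 ^ (n ^ 2) := by
        have : x i - x₀ i = (x i - z i) - (x₀ i - z i) := by ring
        rw [this]
        exact (abs_sub _ _).trans (by linarith)
      have h7 : (|x i - x₀ i| : ℤ) ≤ (2 * 2 ^ (n ^ 2) : ℤ) := h6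
      have h8 : ((|x i - x₀ i| : ℤ) : ℝ) ≤ ((2 * 2 ^ (n ^ 2) : ℤ) : ℝ) := by exact_mod_cast h7
      rw [Int.cast_abs] at h8
      refine h8.trans (le_of_eq ?_)
      rw [hT]; push_cast; ring
    calc ∑ i, ‖(emb (Fin n) (x - x₀)).ofLp i‖ ^ 2 ≤ ∑ _i : Fin n, (2 * T) ^ 2 :=
          Finset.sum_le_sum fun i _ => h3 i
      _ = 4 * n * T ^ 2 := by
          simp only [Finset.sum_const, Finset.card_univ, Fintype.card_fin, nsmul_eq_mul]
          ring
  have ht : (0 : ℝ) < 1 / T ^ 2 := by positivity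
  have h1 := card_le_th hdc ht hmem
  rw [hcard] at h1
  have e1 : 1 / T ^ 2 * (4 * n * T ^ 2) = 4 * (n : ℝ) := by field_simp
  rw [e1] at h1
  have h2 := PtsBound_iter hdc ht (μ + 4)
  have e2 : (4 : ℝ) ^ (μ + 4) * (1 / T ^ 2) = 256 / NN n μ ^ 2 := by
    have e3 : T ^ 2 = (4 : ℝ) ^ μ * NN n μ ^ 2 := by
      rw [hT, NN, ← pow_mul, ← pow_mul, mul_comm (n ^ 2) 2, mul_comm (n ^ 2 - μ) 2, pow_mul,
        pow_mul, ← show (4 : ℝ) = 2 ^ 2 by norm_num, ← pow_add]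
      congr 1; omega
    have h4 : (4 : ℝ) ^ μ ≠ 0 := by positivity
    have h5 : NN n μ ≠ 0 := by unfold NN; positivity
    rw [e3, pow_add]
    field_simp
    norm_num
  rw [e2] at h2
  have h3 : th (cut L' V) 0 (256 / NN n μ ^ 2) ≤ 2 := by
    refine (th_mono hdisc inf_le_left 0 ?_).trans hL.theta
    unfold NN; positivity
  have hrk : rk (cut L' V) ≤ d := (PtsBound_rk L' V).trans hd
  calc (S.card : ℝ) ≤ Real.exp (4 * (n : ℝ)) * th (cut L' V) 0 (1 / T ^ 2) := h1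
    _ ≤ 2 ^ (6 * n) * (2 ^ ((μ + 4) * d) * 2) := by
        refine mul_le_mul (PtsBound_exp n) ?_ (th_pos hdc 0 ht).le (by positivity)
        refine h2.trans ?_
        refine mul_le_mul ?_ h3 (th_pos hdc 0 (by unfold NN; positivity)).le (by positivity)
        exact pow_le_pow_right₀ (by norm_num) (Nat.mul_le_mul_left _ hrk)
    _ = 2 ^ (6 * n + 1 + (μ + 4) * d) := by rw [pow_add, pow_add]; ring

end H460
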