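import Pool.Agent.H460R2.Cosets
import Pool.Agent.H460R2.BadT
import Pool.Agent.H460R2.PtsBound

/-! Module Claim: assembly of claim* -/

set_option autoImplicit false

namespace H460

variable {E : Type*} [NormedAddCommGroup E] [InnerProductSpace ℝ E] [FiniteDimensional ℝ E]

theorem claim_sqrtpi_le : Real.sqrt Real.pi ≤ 2 := by
  rw [show (2 : ℝ) = Real.sqrt 4 by
    rw [show (4 : ℝ) = 2 ^ 2 by norm_num, Real.sqrt_sq (by norm_num)]]
  exact Real.sqrt_le_sqrt (by linarith [Real.pi_lt_four])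

/-- the numerical condition of `exists_bad` for large `n` -/
theorem claim_num (κ n : ℕ) (hn : 2 ^ (64 * (κ + 1)) ≤ n) :
    2 * Real.sqrt Real.pi ^ (κ * n) * (n : ℝ) ^ ((n : ℝ) / 64) ≤ (n : ℝ) ^ ((n : ℝ) / 32) := by
  have hn1 : 1 ≤ n := le_trans Nat.one_le_two_pow hn
  have hn0 : (0 : ℝ) < n := by exact_mod_cast hn1
  have h1 : (n : ℝ) ^ ((n : ℝ) / 32) = (n : ℝ) ^ ((n : ℝ) / 64) * (n : ℝ) ^ ((n : ℝ) / 64) := by
    rw [← Real.rpow_add hn0]
    congr 1
    ring
  rw [h1]
  apply mul_le_mul_of_nonneg_right _ (by positivity)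
  have h2 : Real.sqrt Real.pi ^ (κ * n) ≤ 2 ^ (κ * n) :=
    pow_le_pow_left₀ (Real.sqrt_nonneg _) claim_sqrtpi_le _
  have h3 : ((2 : ℝ) ^ (64 * (κ + 1))) ^ ((n : ℝ) / 64) ≤ (n : ℝ) ^ ((n : ℝ) / 64) := by
    apply Real.rpow_le_rpow (by positivity) _ (by positivity)
    exact_mod_cast hn
  have h4 : ((2 : ℝ) ^ (64 * (κ + 1))) ^ ((n : ℝ) / 64) = 2 ^ ((κ + 1) * n) := by
    rw [← Real.rpow_natCast, ← Real.rpow_natCast, ← Real.rpow_mul (by norm_num)]
    congr 1
    push_cast
    ring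
  have h5 : (2 : ℝ) ^ ((κ + 1) * n) = 2 ^ (κ * n) * 2 ^ n := by
    rw [← pow_add]; congr 1; ring
  have h6 : (2 : ℝ) ≤ 2 ^ n := by
    calc (2 : ℝ) = 2 ^ 1 := by norm_num
      _ ≤ 2 ^ n := pow_le_pow_right₀ (by norm_num) hn1
  calc 2 * Real.sqrt Real.pi ^ (κ * n) ≤ 2 ^ n * 2 ^ (κ * n) :=
        mul_le_mul h6 h2 (by positivity) (by positivity)
    _ = ((2 : ℝ) ^ (64 * (κ + 1))) ^ ((n : ℝ) / 64) := by rw [h4, h5, mul_comm]
    _ ≤ _ := h3

theorem claimStar (hRM : RMStatement) (μ κ : ℕ) : ∃ n₀ : ℕ, ∀ n : ℕ, n₀ ≤ n →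
    ∀ L : AddSubgroup (Fin n → ℤ), Good n μ L → ClaimStar n μ κ L := by
  classical
  rcases Nat.eq_zero_or_pos κ with hκ | hκ
  · -- no generators
    refine ⟨0, ?_⟩
    intro n _ L _ J _ hJ W _ X _ _ _
    have hJ0 : Fintype.card J = 0 := by
      rw [hκ, zero_mul] at hJ; omega
    have : IsEmpty J := Fintype.card_eq_zero_iff.1 hJ0
    have h1 : X.card ≤ 1 := Finset.card_le_one.2 (fun a _ b _ => Subsingleton.elim a b)
    have h2 : (X.card : ℝ) ≤ 1 := by exact_mod_cast h1
    refine h2.trans (Real.one_le_rpow (by norm_num) (by positivity))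
  · set ε : ℝ := 1 / (64 * κ) with hε
    have hκR : (0 : ℝ) < κ := by exact_mod_cast hκ
    have hε0 : 0 < ε := by positivity
    obtain ⟨n₁, hn₁⟩ := few_short hRM κ ε hε0
    refine ⟨max n₁ (max (2 ^ (64 * (κ + 1))) (μ + 4)), ?_⟩
    intro n hn L hL J _ hJ W hW X hX hXW hz
    obtain ⟨z, hz⟩ := hz
    have hnn₁ : n₁ ≤ n := (le_max_left _ _).trans hn
    have hn2 : 2 ^ (64 * (κ + 1)) ≤ n := (le_max_left _ _).trans ((le_max_right _ _).trans hn)
    have hn3 : μ + 4 ≤ n := (le_max_right _ _).trans ((le_max_right _ _).trans hn)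
    have hnum := claim_num κ n hn2
    clear hn2 hn
    have hn1 : 1 ≤ n := by omega
    have hn0 : (0 : ℝ) < n := by exact_mod_cast hn1
    have hnR : (1 : ℝ) ≤ n := by exact_mod_cast hn1
    have hμ : μ + 4 ≤ n ^ 2 := hn3.trans (Nat.le_self_pow two_ne_zero n)
    set T : ℝ := 2 ^ (n ^ 2) with hT
    have hT0 : 0 < T := by positivity
    rcases X.eq_empty_or_nonempty with hXe | ⟨x0, hx0⟩
    · subst hXe
      simp only [Finset.card_empty, Nat.cast_zero]
      positivity
    set M : AddSubgroup (EuclideanSpace ℝ (J ⊕ Fin n)) :=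
      (⊤ : AddSubgroup (J → ℤ)).map (embW W T) with hM
    have hMd : Disc M := disc_embW W T ⊤
    have hpi : 1 ≤ Real.sqrt Real.pi := badT_sqrtpi
    have hB : ∀ Γ : AddSubgroup (EuclideanSpace ℝ (J ⊕ Fin n)), Γ ≤ M →
        w Γ ≤ Real.sqrt Real.pi ^ Fintype.card J := by
      intro Γ hΓ
      have e : (Γ.comap (embW W T)).map (embW W T) = Γ := by
        rw [AddSubgroup.map_comap_eq]
        apply inf_eq_right.2
        intro x hx
        obtain ⟨y, _, hy⟩ := hΓ hx
        exact ⟨y, hy⟩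
      rw [← e]
      exact (w_embW_le W T _).trans (pow_le_pow_right₀ hpi (rk_embW W T _))
    have hs1 : 1 ≤ (n : ℝ) ^ ε := Real.one_le_rpow hnR hε0.le
    obtain ⟨U, hUsat, hUw, hUq⟩ := exists_HN hMd _ hB hs1
    -- the sublattice of `ℤ^J`
    set Γ₁ : AddSubgroup (J → ℤ) := U.toAddSubgroup.comap (embW W T) with hΓ₁
    have hΓ₁map : Γ₁.map (embW W T) = cut M U := by
      ext v
      constructor
      · rintro ⟨y, hy, rfl⟩
        exact ⟨⟨y, AddSubgroup.mem_top y, rfl⟩, hy⟩
      · rintro ⟨⟨y, _, rfl⟩, hv⟩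
        exact ⟨y, hv, rfl⟩
    have hrkcut : rk (cut M U) ≤ κ * n := by
      rw [← hΓ₁map]
      exact (rk_embW W T _).trans hJ
    have hrkM : rk M ≤ κ * n := (rk_embW W T _).trans hJ
    have hspow : ((n : ℝ) ^ ε) ^ rk (cut M U) ≤ (n : ℝ) ^ ((n : ℝ) / 64) := by
      rw [← Real.rpow_natCast, ← Real.rpow_mul hn0.le]
      apply Real.rpow_le_rpow_of_exponent_le hnR
      have h1 : (rk (cut M U) : ℝ) ≤ κ * n := by exact_mod_cast hrkcut
      calc ε * (rk (cut M U) : ℝ) ≤ ε * (κ * n) := mul_le_mul_of_nonneg_left h1 hε0.le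
        _ = (n : ℝ) / 64 := by rw [hε]; field_simp
    have hΓ₁w : 1 / 2 ≤ w (Γ₁.map (embW W (2 ^ (n ^ 2)))) * (n : ℝ) ^ ((n : ℝ) / 64) := by
      rw [← hT, hΓ₁map]
      exact hUw.trans (mul_le_mul_of_nonneg_left hspow (w_nonneg (hMd.mono inf_le_left)))
    have hrkW : rk ((Γ₁.map W).map (emb (Fin n))) ≤ n / 2 :=
      exists_bad hL hμ hnum hJ W hW Γ₁ hΓ₁w
    -- projection
    set P : EuclideanSpace ℝ (J ⊕ Fin n) →L[ℝ] EuclideanSpace ℝ (J ⊕ Fin n) :=
      (Uᗮ).starProjection with hP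
    set f : (J → ℤ) → EuclideanSpace ℝ (J ⊕ Fin n) := fun x => P (embW W T (x - x0)) with hf
    have hrkq : rk (quo M U) ≤ κ * n := by
      have := rk_quo hMd hUsat
      omega
    have hcardS : ((X.image f).card : ℝ) ≤ 2 ^ n := by
      apply hn₁ n hnn₁ _ (quo M U) (disc_quo hMd hUsat) hrkq hUq
      intro v hv
      obtain ⟨x, hx, rfl⟩ := Finset.mem_image.1 hv
      refine ⟨⟨embW W T (x - x0), ⟨x - x0, AddSubgroup.mem_top _, rfl⟩, rfl⟩, ?_⟩
      have h1 : ‖f x‖ ≤ ‖embW W T (x - x0)‖ := by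
        rw [hf]
        exact Submodule.norm_starProjection_apply_le _ _
      have h2 : ‖f x‖ ^ 2 ≤ ‖embW W T (x - x0)‖ ^ 2 := pow_le_pow_left₀ (norm_nonneg _) h1 2
      refine h2.trans ?_
      rw [embW_norm]
      have h3 : ∑ j, (((x - x0) j : ℤ) : ℝ) ^ 2 ≤ 16 * (κ * n) := by
        calc ∑ j, (((x - x0) j : ℤ) : ℝ) ^ 2 ≤ ∑ _j : J, (16 : ℝ) := by
              apply Finset.sum_le_sum
              intro j _
              have ha := hX x hx j
              have hb := hX x0 hx0 j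
              rw [abs_le] at ha hb
              have h5 : |((x - x0) j : ℤ)| ≤ 4 := by
                rw [Pi.sub_apply, abs_le]
                constructor <;> linarith [ha.1, ha.2, hb.1, hb.2]
              have h6 : |(((x - x0) j : ℤ) : ℝ)| ≤ 4 := by exact_mod_cast h5
              rw [← sq_abs]
              nlinarith [abs_nonneg (((x - x0) j : ℤ) : ℝ)]
          _ = 16 * (Fintype.card J : ℝ) := by
              rw [Finset.sum_const, Finset.card_univ, nsmul_eq_mul, mul_comm]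
          _ ≤ 16 * (κ * n) := by
              have : (Fintype.card J : ℝ) ≤ κ * n := by exact_mod_cast hJ
              linarith
      have h4 : ∑ i, ((W (x - x0) i : ℝ) / T) ^ 2 ≤ 4 * n := by
        calc ∑ i, ((W (x - x0) i : ℝ) / T) ^ 2 ≤ ∑ _i : Fin n, (4 : ℝ) := by
              apply Finset.sum_le_sum
              intro i _
              have ha := hz x hx i
              have hb := hz x0 hx0 i
              rw [abs_le] at ha hb
              have h5 : |W (x - x0) i| ≤ 2 * 2 ^ (n ^ 2) := by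
                rw [map_sub, Pi.sub_apply, abs_le]
                constructor <;> linarith [ha.1, ha.2, hb.1, hb.2]
              have h6 : |(W (x - x0) i : ℝ)| ≤ 2 * T := by
                rw [hT]; exact_mod_cast h5
              rw [div_pow, div_le_iff₀ (by positivity), ← sq_abs]
              nlinarith [abs_nonneg (W (x - x0) i : ℝ)]
          _ = 4 * n := by
              rw [Finset.sum_const, Finset.card_univ, Fintype.card_fin, nsmul_eq_mul, mul_comm]
      calc _ ≤ 16 * ((κ : ℝ) * n) + 4 * n := add_le_add h3 h4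
        _ = (16 * κ + 4) * n := by ring
    -- fibres
    set V : Submodule ℝ (EuclideanSpace ℝ (Fin n)) :=
      Submodule.span ℝ (((Γ₁.map W).map (emb (Fin n)) : AddSubgroup (EuclideanSpace ℝ (Fin n))) :
        Set (EuclideanSpace ℝ (Fin n))) with hV
    have hfib : ∀ v ∈ X.image f, (X.filter (fun x => f x = v)).card ≤
        2 ^ (6 * n + 1 + (μ + 4) * (n / 2)) := by
      intro v _
      have hinj : Set.InjOn W ((X.filter (fun x => f x = v)) : Set (J → ℤ)) := by
        intro a ha b hb hab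
        simp only [Finset.coe_filter, Set.mem_ofPred_eq] at ha hb
        exact hXW ha.1 hb.1 hab
      rw [← Finset.card_image_of_injOn hinj]
      have hdiff : ∀ a ∈ X.filter (fun x => f x = v), ∀ b ∈ X.filter (fun x => f x = v),
          a - b ∈ Γ₁ := by
        intro a ha b hb
        have ha2 := (Finset.mem_filter.1 ha).2
        have hb2 := (Finset.mem_filter.1 hb).2
        have h1 : P (embW W T (a - b)) = 0 := by
          have e : a - b = (a - x0) - (b - x0) := by abel
          rw [e, map_sub, map_sub]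
          change f a - f b = 0
          rw [ha2, hb2, sub_self]
        change embW W T (a - b) ∈ U
        have h2 := (Submodule.starProjection_apply_eq_zero_iff (K := Uᗮ)).1 h1
        rwa [Submodule.orthogonal_orthogonal] at h2
      have hb := pts_bound hμ hL V (d := n / 2) hrkW
        ((X.filter (fun x => f x = v)).image W) (by
          intro p hp q hq
          obtain ⟨a, ha, rfl⟩ := Finset.mem_image.1 hp
          obtain ⟨b, hb, rfl⟩ := Finset.mem_image.1 hq
          rw [← map_sub]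
          refine ⟨hW _, Submodule.subset_span ?_⟩
          exact ⟨W (a - b), ⟨a - b, hdiff a ha b hb, rfl⟩, rfl⟩) z (by
          intro p hp i
          obtain ⟨a, ha, rfl⟩ := Finset.mem_image.1 hp
          exact hz a (Finset.mem_filter.1 ha).1 i)
      exact_mod_cast hb
    have hcard := Finset.card_le_mul_card_image X _ hfib
    have hcardR : (X.card : ℝ) ≤ (2 : ℝ) ^ (6 * n + 1 + (μ + 4) * (n / 2)) * 2 ^ n := by
      calc (X.card : ℝ) ≤ ((2 ^ (6 * n + 1 + (μ + 4) * (n / 2)) * (X.image f).card : ℕ) : ℝ) := by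
            exact_mod_cast hcard
        _ = (2 : ℝ) ^ (6 * n + 1 + (μ + 4) * (n / 2)) * ((X.image f).card : ℝ) := by push_cast; ring
        _ ≤ _ := mul_le_mul_of_nonneg_left hcardS (by positivity)
    refine hcardR.trans ?_
    rw [← pow_add, ← Real.rpow_natCast]
    apply Real.rpow_le_rpow_of_exponent_le (by norm_num)
    push_cast
    have h7 : ((n / 2 : ℕ) : ℝ) ≤ (n : ℝ) / 2 := by
      have := @Nat.cast_div_le ℝ _ _ _ n 2
      simpa using this
    have h8 : ((μ : ℝ) + 4) * ((n / 2 : ℕ) : ℝ) ≤ ((μ : ℝ) + 4) * ((n : ℝ) / 2) :=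
      mul_le_mul_of_nonneg_left h7 (by positivity)
    nlinarith

end H460
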