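import Pool.Agent.H460R2.ThB

/-! Module ThC: growth of theta functions -/

set_option autoImplicit false

namespace H460

variable {E : Type*} [NormedAddCommGroup E] [InnerProductSpace ℝ E] [FiniteDimensional ℝ E]


theorem th_dbl {Γ : AddSubgroup E} (t : ℝ) : th (dbl Γ) 0 t = th Γ 0 (4 * t) := by
  have hinj : Function.Injective (nsmulAddMonoidHom 2 : E →+ E) := by
    intro x y hxy
    have h2 : (2 : ℕ) • x = (2 : ℕ) • y := hxy
    rw [← Nat.cast_smul_eq_nsmul ℝ, ← Nat.cast_smul_eq_nsmul ℝ] at h2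
    exact smul_right_injective E (by norm_num : ((2 : ℕ) : ℝ) ≠ 0) h2
  unfold th dbl
  rw [← Equiv.tsum_eq (Γ.equivMapOfInjective (nsmulAddMonoidHom 2) hinj).toEquiv]
  refine tsum_congr fun x => ?_
  have h1 : (((Γ.equivMapOfInjective (nsmulAddMonoidHom 2) hinj).toEquiv x : _) : E) =
      (2 : ℝ) • (x : E) := by
    have h3 : (((Γ.equivMapOfInjective (nsmulAddMonoidHom 2) hinj).toEquiv x : _) : E) =
      (2 : ℕ) • (x : E) := rfl
    rw [h3, ← Nat.cast_smul_eq_nsmul ℝ]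
    norm_num
  rw [h1, add_zero, add_zero, norm_smul]
  norm_num
  ring

/-- decomposition into cosets -/
theorem ThC_decomp {Γ Γ' : AddSubgroup E} (h : Disc Γ) (hle : Γ' ≤ Γ)
    [Fintype (Γ ⧸ Γ'.addSubgroupOf Γ)] (r : (Γ ⧸ Γ'.addSubgroupOf Γ) → Γ)
    (hr : ∀ q, (QuotientAddGroup.mk (r q) : Γ ⧸ Γ'.addSubgroupOf Γ) = q) {t : ℝ} (ht : 0 < t) :
    th Γ 0 t = ∑ q, th Γ' (r q : E) t := by
  let f : (Γ ⧸ Γ'.addSubgroupOf Γ) × Γ' → Γ := fun p => ⟨(p.2 : E) + (r p.1 : E),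
    Γ.add_mem (hle p.2.2) (r p.1).2⟩
  have hfq : ∀ p, (QuotientAddGroup.mk (f p) : Γ ⧸ Γ'.addSubgroupOf Γ) = p.1 := by
    intro p
    have h0 : (QuotientAddGroup.mk (r p.1) : Γ ⧸ Γ'.addSubgroupOf Γ) =
        QuotientAddGroup.mk (f p) := by
      rw [QuotientAddGroup.eq, AddSubgroup.mem_addSubgroupOf]
      have : ((-(r p.1) + f p : Γ) : E) = (p.2 : E) := by
        simp only [AddSubgroup.coe_add, NegMemClass.coe_neg, f]
        abel
      rw [this]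
      exact p.2.2
    rw [← h0]
    exact hr p.1
  have hf : Function.Bijective f := by
    constructor
    · intro p p' hpp
      have h1 : p.1 = p'.1 := by rw [← hfq p, ← hfq p', hpp]
      have h2 : (p.2 : E) + (r p.1 : E) = (p'.2 : E) + (r p'.1 : E) := congrArg Subtype.val hpp
      rw [h1] at h2
      exact Prod.ext h1 (Subtype.ext (add_right_cancel h2))
    · intro x
      have h1 : (QuotientAddGroup.mk (r (QuotientAddGroup.mk x)) : Γ ⧸ Γ'.addSubgroupOf Γ) =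
        QuotientAddGroup.mk x := hr _
      rw [QuotientAddGroup.eq, AddSubgroup.mem_addSubgroupOf] at h1
      refine ⟨⟨QuotientAddGroup.mk x, ⟨_, h1⟩⟩, ?_⟩
      apply Subtype.ext
      simp only [AddSubgroup.coe_add, NegMemClass.coe_neg, f]
      abel
  have hs := th_summable h 0 ht
  have hs2 := (Equiv.ofBijective f hf).summable_iff.mpr hs
  unfold th
  rw [← Equiv.tsum_eq (Equiv.ofBijective f hf)]
  refine (hs2.tsum_prod).trans ?_
  rw [tsum_fintype]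
  refine Finset.sum_congr rfl fun q _ => tsum_congr fun z => ?_
  simp only [Function.comp_apply, Equiv.ofBijective_apply, f, add_zero]

theorem ThC_card {Γ Γ' : AddSubgroup E} [Fintype (Γ ⧸ Γ'.addSubgroupOf Γ)] :
    (Γ'.relIndex Γ : ℝ) = (Fintype.card (Γ ⧸ Γ'.addSubgroupOf Γ) : ℝ) := by
  rw [AddSubgroup.relIndex, AddSubgroup.index, Nat.card_eq_fintype_card]

theorem ThC_finite {Γ Γ' : AddSubgroup E} (hi : Γ'.relIndex Γ ≠ 0) :
    Finite (Γ ⧸ Γ'.addSubgroupOf Γ) := by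
  have h1 : Nat.card (Γ ⧸ Γ'.addSubgroupOf Γ) ≠ 0 := hi
  exact Nat.finite_of_card_ne_zero h1

theorem th_index_le {Γ Γ' : AddSubgroup E} (h : Disc Γ) (hle : Γ' ≤ Γ)
    (hi : Γ'.relIndex Γ ≠ 0) {t : ℝ} (ht : 0 < t) :
    th Γ 0 t ≤ (Γ'.relIndex Γ : ℝ) * th Γ' 0 t := by
  have := ThC_finite hi
  have := Fintype.ofFinite (Γ ⧸ Γ'.addSubgroupOf Γ)
  rw [ThC_decomp h hle Quotient.out (fun q => Quotient.out_eq q) ht, ThC_card]
  calc _ ≤ ∑ _q : Γ ⧸ Γ'.addSubgroupOf Γ, th Γ' 0 t :=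
        Finset.sum_le_sum fun q _ => th_shift_le (h.mono hle) _ ht
    _ = _ := by rw [Finset.sum_const, nsmul_eq_mul, Finset.card_univ]

theorem th_index_ge {Γ Γ' : AddSubgroup E} (h : Disc Γ) (hle : Γ' ≤ Γ)
    (hi : Γ'.relIndex Γ ≠ 0) {r : ℝ} (hr : ∀ x ∈ Γ, ∃ y ∈ Γ, x - y ∈ Γ' ∧ ‖y‖ ≤ r)
    {t : ℝ} (ht : 0 < t) :
    (Γ'.relIndex Γ : ℝ) * (Real.exp (-t * r ^ 2) * th Γ' 0 t) ≤ th Γ 0 t := by
  have := ThC_finite hi
  have := Fintype.ofFinite (Γ ⧸ Γ'.addSubgroupOf Γ)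
  have hex : ∀ q : Γ ⧸ Γ'.addSubgroupOf Γ, ∃ y : Γ,
      (QuotientAddGroup.mk y : Γ ⧸ Γ'.addSubgroupOf Γ) = q ∧ ‖(y : E)‖ ≤ r := by
    intro q
    obtain ⟨y, hy, hxy, hn⟩ := hr (Quotient.out q : Γ) (Quotient.out q : Γ).2
    refine ⟨⟨y, hy⟩, ?_, hn⟩
    have hq : (QuotientAddGroup.mk (Quotient.out q) : Γ ⧸ Γ'.addSubgroupOf Γ) = q :=
      Quotient.out_eq q
    rw [← hq, QuotientAddGroup.eq, AddSubgroup.mem_addSubgroupOf]
    have : ((-(⟨y, hy⟩ : Γ) + Quotient.out q : Γ) : E) = ((Quotient.out q : Γ) : E) - y := by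
      simp only [AddSubgroup.coe_add, NegMemClass.coe_neg]
      abel
    rw [this]
    exact hxy
  choose s hs1 hs2 using hex
  rw [ThC_decomp h hle s hs1 ht, ThC_card]
  calc _ = ∑ _q : Γ ⧸ Γ'.addSubgroupOf Γ, Real.exp (-t * r ^ 2) * th Γ' 0 t := by
        rw [Finset.sum_const, nsmul_eq_mul, Finset.card_univ]
    _ ≤ _ := by
        refine Finset.sum_le_sum fun q _ => ?_
        refine le_trans ?_ (th_shift_ge (h.mono hle) _ ht)
        refine mul_le_mul_of_nonneg_right ?_ (th_pos (h.mono hle) 0 ht).le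
        apply Real.exp_le_exp.mpr
        have h1 : ‖((s q : Γ) : E)‖ ^ 2 ≤ r ^ 2 := by
          have := hs2 q
          have h0 := norm_nonneg ((s q : Γ) : E)
          nlinarith
        nlinarith

/-- (T4) -/
theorem th_le_two_pow {Γ : AddSubgroup E} (h : Disc Γ) {t : ℝ} (ht : 0 < t) :
    th Γ 0 t ≤ 2 ^ rk Γ * th Γ 0 (4 * t) := by
  have h1 := relIndex_dbl h
  have h2 := th_index_le h (dbl_le Γ) (by rw [h1]; positivity) ht
  rw [h1, th_dbl] at h2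
  exact_mod_cast h2

/-- a priori bound: if all nonzero vectors have norm at least 1 then `Θ(m) ≤ 2^(m+1)`, `m = rk`.
`Θ(m) ≤ 2^m Θ(4m)`, `Θ(4m) ≤ 1 + e^{-3m} Θ(m)`. -/
theorem th_apriori {Γ : AddSubgroup E} (h : Disc Γ) (h1 : ∀ x ∈ Γ, x ≠ 0 → 1 ≤ ‖x‖)
    (hk : 1 ≤ rk Γ) : th Γ 0 (rk Γ) ≤ 2 ^ (rk Γ + 1) := by
  classical
  set m : ℝ := (rk Γ : ℝ) with hm
  have hm1 : 1 ≤ m := by rw [hm]; exact_mod_cast hk
  have hm0 : 0 < m := by linarith
  have hS := th_summable h 0 hm0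
  have hS4 := th_summable h 0 (t := 4 * m) (by linarith)
  have hA : th Γ 0 (4 * m) ≤ 1 + Real.exp (-(3 * m)) * th Γ 0 m := by
    unfold th
    rw [← tsum_mul_left]
    have hsing : Summable fun x : Γ => if x = 0 then (1 : ℝ) else 0 :=
      (hasSum_ite_eq (0 : Γ) (1 : ℝ)).summable
    have h3 : (∑' x : Γ, if x = 0 then (1 : ℝ) else 0) = 1 := tsum_ite_eq (0 : Γ) (fun _ => (1 : ℝ))
    rw [← h3, ← hsing.tsum_add (hS.mul_left _)]
    refine hS4.tsum_le_tsum ?_ (hsing.add (hS.mul_left _))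
    intro x
    by_cases hx : x = 0
    · subst hx
      simp only [ZeroMemClass.coe_zero, add_zero, norm_zero, if_true]
      norm_num
      exact (Real.exp_pos _).le
    · rw [if_neg hx, zero_add, ← Real.exp_add]
      apply Real.exp_le_exp.mpr
      have hx' : (x : E) ≠ 0 := fun h0 => hx (Subtype.ext h0)
      have h5 := h1 x x.2 hx'
      rw [add_zero]
      nlinarith [mul_nonneg hm0.le (mul_nonneg (sub_nonneg.mpr h5) (sub_nonneg.mpr h5))]
  have hB := th_le_two_pow h hm0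
  have hpos : 0 < th Γ 0 m := th_pos h 0 hm0
  have hC : (2 : ℝ) ^ rk Γ * Real.exp (-(3 * m)) ≤ 1 / 2 := by
    have h6 : Real.exp (-(3 * m)) = Real.exp (-3) ^ rk Γ := by
      rw [← Real.exp_nat_mul]
      congr 1
      rw [hm]
      ring
    rw [h6, ← mul_pow]
    have h7 : 2 * Real.exp (-3) ≤ 1 / 2 := by
      rw [Real.exp_neg]
      have h8 : (4 : ℝ) ≤ Real.exp 3 := by
        have := Real.add_one_le_exp (3 : ℝ)
        linarith
      have h9 : (Real.exp 3)⁻¹ ≤ 4⁻¹ := inv_anti₀ (by norm_num) h8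
      linarith
    have h0 : 0 ≤ 2 * Real.exp (-3) := by positivity
    calc (2 * Real.exp (-3)) ^ rk Γ ≤ (2 * Real.exp (-3)) ^ 1 :=
          pow_le_pow_of_le_one h0 (by linarith) hk
      _ ≤ 1 / 2 := by rw [pow_one]; exact h7
  have h2k : (0 : ℝ) < 2 ^ rk Γ := by positivity
  have hD : th Γ 0 m ≤ 2 ^ rk Γ + (1 / 2) * th Γ 0 m := by
    calc th Γ 0 m ≤ 2 ^ rk Γ * th Γ 0 (4 * m) := hB
      _ ≤ 2 ^ rk Γ * (1 + Real.exp (-(3 * m)) * th Γ 0 m) := by gcongr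
      _ = 2 ^ rk Γ + (2 ^ rk Γ * Real.exp (-(3 * m))) * th Γ 0 m := by ring
      _ ≤ 2 ^ rk Γ + (1 / 2) * th Γ 0 m := by gcongr
  rw [pow_succ]
  linarith

theorem ph_mono {Γ : AddSubgroup E} (h : Disc Γ) {a b : ℤ} (hab : a ≤ b) : ph Γ a ≤ ph Γ b := by
  unfold ph
  refine Real.logb_le_logb_of_le (by norm_num) (th_pos h 0 (by positivity)) ?_
  refine th_anti h 0 (by positivity) ?_
  exact zpow_le_zpow_right₀ (by norm_num) (by omega)

theorem ph_nonneg {Γ : AddSubgroup E} (h : Disc Γ) (a : ℤ) : 0 ≤ ph Γ a := by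
  unfold ph
  exact Real.logb_nonneg (by norm_num) (one_le_th h (by positivity))

theorem ph_convex {Γ : AddSubgroup E} (h : Disc Γ) (a : ℤ) :
    0 ≤ ph Γ (a + 1) - 2 * ph Γ a + ph Γ (a - 1) := by
  have ht : (0 : ℝ) < 2 ^ (-(a + 1)) := by positivity
  have h1 := th_sq_le h ht
  have e1 : (2 : ℝ) * 2 ^ (-(a + 1)) = 2 ^ (-a) := by
    rw [← zpow_one_add₀ (by norm_num)]
    congr 1
    ring
  have e2 : (4 : ℝ) * 2 ^ (-(a + 1)) = 2 ^ (-(a - 1)) := by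
    have : (4 : ℝ) = 2 ^ (2 : ℤ) := by norm_num
    rw [this, ← zpow_add₀ (by norm_num)]
    congr 1
    ring
  rw [e1, e2] at h1
  have p1 : 0 < th Γ 0 ((2 : ℝ) ^ (-(a + 1))) := th_pos h 0 (by positivity)
  have p2 : 0 < th Γ 0 ((2 : ℝ) ^ (-a)) := th_pos h 0 (by positivity)
  have p3 : 0 < th Γ 0 ((2 : ℝ) ^ (-(a - 1))) := th_pos h 0 (by positivity)
  have h2 := Real.logb_le_logb_of_le (b := 2) (by norm_num) (by positivity) h1
  rw [Real.logb_pow, Real.logb_mul p1.ne' p3.ne'] at h2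
  unfold ph
  push_cast at h2
  linarith

theorem ph_two {Γ : AddSubgroup E} (h : Disc Γ) (a : ℤ) : ph Γ (a + 2) ≤ ph Γ a + rk Γ := by
  have ht : (0 : ℝ) < 2 ^ (-(a + 2)) := by positivity
  have h1 := th_le_two_pow h ht
  have e2 : (4 : ℝ) * 2 ^ (-(a + 2)) = 2 ^ (-a) := by
    have : (4 : ℝ) = 2 ^ (2 : ℤ) := by norm_num
    rw [this, ← zpow_add₀ (by norm_num)]
    congr 1
    ring
  rw [e2] at h1
  have p1 : 0 < th Γ 0 ((2 : ℝ) ^ (-(a + 2))) := th_pos h 0 (by positivity)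
  have p2 : 0 < th Γ 0 ((2 : ℝ) ^ (-a)) := th_pos h 0 (by positivity)
  have h2 := Real.logb_le_logb_of_le (b := 2) (by norm_num) p1 h1
  rw [Real.logb_mul (by positivity) p2.ne', Real.logb_pow, Real.logb_self_eq_one (by norm_num)] at h2
  unfold ph
  linarith

theorem ph_le_of_le {Γ Γ' : AddSubgroup E} (h : Disc Γ) (hle : Γ' ≤ Γ) (a : ℤ) :
    ph Γ' a ≤ ph Γ a := by
  unfold ph
  exact Real.logb_le_logb_of_le (by norm_num) (th_pos (h.mono hle) 0 (by positivity))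
    (th_mono h hle 0 (by positivity))

theorem ph_bot (a : ℤ) : ph (⊥ : AddSubgroup E) a = 0 := by
  unfold ph
  rw [th_bot, Real.logb_one]

theorem ThC_iter {Γ : AddSubgroup E} (h : Disc Γ) (a : ℤ) (i : ℕ) :
    ph Γ a ≤ ph Γ (a - 2 * i) + rk Γ * i := by
  induction i with
  | zero => simp
  | succ i ih =>
    have h1 := ph_two h (a - 2 * ((i + 1 : ℕ) : ℤ))
    have e : a - 2 * ((i + 1 : ℕ) : ℤ) + 2 = a - 2 * (i : ℤ) := by push_cast; ring
    rw [e] at h1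
    push_cast at h1 ⊢
    linarith

theorem ph_apriori {Γ : AddSubgroup E} (h : Disc Γ) (h1 : ∀ x ∈ Γ, x ≠ 0 → 1 ≤ ‖x‖)
    (hk : 1 ≤ rk Γ) (a : ℕ) :
    ph Γ a ≤ rk Γ * (((a : ℝ) + Real.logb 2 (rk Γ)) / 2 + 4) + 1 := by
  set m : ℝ := (rk Γ : ℝ) with hm
  have hm1 : 1 ≤ m := by rw [hm]; exact_mod_cast hk
  have hm0 : 0 < m := by linarith
  have hl : 0 ≤ Real.logb 2 m := Real.logb_nonneg (by norm_num) hm1
  set c : ℝ := ((a : ℝ) + Real.logb 2 m) / 2 with hc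
  have hc0 : 0 ≤ c := by positivity
  set i : ℕ := ⌈c⌉₊ with hi
  have hi1 : c ≤ i := Nat.le_ceil c
  have hi2 : (i : ℝ) < c + 1 := Nat.ceil_lt_add_one hc0
  have h3 := ThC_iter h (a : ℤ) i
  have h4 : ph Γ ((a : ℤ) - 2 * i) ≤ m + 1 := by
    unfold ph
    have hle : m ≤ (2 : ℝ) ^ (-((a : ℤ) - 2 * i)) := by
      have e1 : (2 : ℝ) ^ (-((a : ℤ) - 2 * (i : ℤ))) = (2 : ℝ) ^ (2 * (i : ℝ) - a) := by
        rw [← Real.rpow_intCast]
        congr 1
        push_cast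
        ring
      rw [e1]
      have e2 : m = (2 : ℝ) ^ (Real.logb 2 m) :=
        (Real.rpow_logb (by norm_num) (by norm_num) hm0).symm
      conv_lhs => rw [e2]
      apply Real.rpow_le_rpow_of_exponent_le (by norm_num)
      linarith
    have h5 : th Γ 0 ((2 : ℝ) ^ (-((a : ℤ) - 2 * (i : ℤ)))) ≤ 2 ^ (rk Γ + 1) :=
      (th_anti h 0 hm0 hle).trans (th_apriori h h1 hk)
    have h6 := Real.logb_le_logb_of_le (b := 2) (by norm_num) (th_pos h 0 (by positivity)) h5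
    rw [Real.logb_pow, Real.logb_self_eq_one (by norm_num)] at h6
    push_cast at h6
    linarith
  calc ph Γ a ≤ ph Γ ((a : ℤ) - 2 * i) + m * i := h3
    _ ≤ (m + 1) + m * (c + 1) := by
        have := mul_le_mul_of_nonneg_left hi2.le hm0.le
        linarith
    _ ≤ m * (c + 4) + 1 := by nlinarith

end H460
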