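import Pool.Agent.H460R2.WB
import Pool.Agent.H460R2.ThC

/-! Module ClsA: sublattices generated by short vectors -/

set_option autoImplicit false
set_option linter.unusedSectionVars false

namespace H460

variable {E : Type*} [NormedAddCommGroup E] [InnerProductSpace ℝ E] [FiniteDimensional ℝ E]


theorem cls_finite {M : AddSubgroup E} (h : Disc M) (R : ℝ) : (Cls M R).Finite := by
  have hf := h R
  have hs : (Cls M R) ⊆ (fun S => AddSubgroup.closure S) ''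
      {S : Set E | S ⊆ {x : E | x ∈ M ∧ ‖x‖ ≤ R}} := by
    rintro Γ ⟨S, hS, rfl⟩
    exact ⟨S, hS, rfl⟩
  exact (hf.finite_subsets.image _).subset hs

theorem cls_le {M Γ : AddSubgroup E} {R : ℝ} (hΓ : Γ ∈ Cls M R) : Γ ≤ M := by
  obtain ⟨S, hS, rfl⟩ := hΓ
  exact (AddSubgroup.closure_le M).2 fun x hx => (hS hx).1

theorem bot_mem_cls (M : AddSubgroup E) (R : ℝ) : (⊥ : AddSubgroup E) ∈ Cls M R :=
  ⟨∅, Set.empty_subset _, AddSubgroup.closure_empty.symm⟩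

theorem sbal_mem_cls {M Γ : AddSubgroup E} (hle : Γ ≤ M) (R : ℝ) : sbal Γ R ∈ Cls M R :=
  ⟨{x : E | x ∈ Γ ∧ ‖x‖ ≤ R}, fun _ hx => ⟨hle hx.1, hx.2⟩, rfl⟩

theorem ClsA_sbal_le (Γ : AddSubgroup E) (R : ℝ) : sbal Γ R ≤ Γ :=
  cls_le (sbal_mem_cls le_rfl R)

theorem DD_bot (ρ : ℝ) : DD ρ (⊥ : AddSubgroup E) = 0 := by
  unfold DD
  rw [rk_bot, w_bot]
  simp

theorem ClsA_span_closure (S : Set E) :
    Submodule.span ℝ ((AddSubgroup.closure S : AddSubgroup E) : Set E) = Submodule.span ℝ S := by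
  apply le_antisymm
  · rw [Submodule.span_le]
    intro x hx
    have hle : AddSubgroup.closure S ≤ (Submodule.span ℝ S).toAddSubgroup := by
      rw [AddSubgroup.closure_le]
      exact Submodule.subset_span
    exact hle hx
  · exact Submodule.span_mono AddSubgroup.subset_closure

theorem DD_nonneg {M Γ : AddSubgroup E} (h : Disc M) {R ρ : ℝ} (hR : 1 ≤ R)
    (hρ : Real.logb 2 R ≤ ρ) (hΓ : Γ ∈ Cls M R) : 0 ≤ DD ρ Γ := by
  have hd : Disc Γ := h.mono (cls_le hΓ)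
  have hwp : 0 < w Γ := w_pos hd
  obtain ⟨S, hS, hΓS⟩ := hΓ
  have hSΓ : S ⊆ (Γ : Set E) := by rw [hΓS]; exact AddSubgroup.subset_closure
  have hsp : Submodule.span ℝ S = Submodule.span ℝ (Γ : Set E) := by
    rw [hΓS, ClsA_span_closure]
  have h1 := w_complete hd (Γ'' := ⊥) bot_le hR hSΓ (fun x hx => (hS hx).2) hsp
  rw [w_bot, rk_bot, Nat.sub_zero] at h1
  have hR0 : 0 < R := by linarith
  have h2 : Real.logb 2 1 ≤ Real.logb 2 (w Γ * R ^ rk Γ) :=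
    Real.logb_le_logb_of_le (by norm_num) (by norm_num) h1
  rw [Real.logb_one, Real.logb_mul hwp.ne' (pow_pos hR0 _).ne', Real.logb_pow] at h2
  unfold DD
  have h3 : (rk Γ : ℝ) * Real.logb 2 R ≤ ρ * rk Γ := by
    rw [mul_comm ρ]
    exact mul_le_mul_of_nonneg_left hρ (Nat.cast_nonneg _)
  linarith

theorem DD_step {M Γ Γ' : AddSubgroup E} (h : Disc M) {R ρ : ℝ} (hR : 1 ≤ R)
    (hρ : Real.logb 2 (2 * R) ≤ ρ) (hΓ : Γ ∈ Cls M R) (hle : Γ' ≤ Γ) (hd : dbl Γ ≤ Γ')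
    {k : ℕ} (hk : k ≤ rk Γ) (hi : Γ'.relIndex Γ = 2 ^ (rk Γ - k)) :
    DD ρ (sbal Γ' R) ≤ DD ρ Γ - ((rk Γ : ℝ) - k) := by
  have hdΓ : Disc Γ := h.mono (cls_le hΓ)
  have hdΓ' : Disc Γ' := hdΓ.mono hle
  have hle2 : sbal Γ' R ≤ Γ' := ClsA_sbal_le Γ' R
  have hd2 : Disc (sbal Γ' R) := hdΓ'.mono hle2
  obtain ⟨S, hS, hΓS⟩ := hΓ
  have hSΓ : S ⊆ (Γ : Set E) := by rw [hΓS]; exact AddSubgroup.subset_closure
  have hsp : Submodule.span ℝ S = Submodule.span ℝ (Γ : Set E) := by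
    rw [hΓS, ClsA_span_closure]
  set S' : Set E := (fun x : E => (2 : ℕ) • x) '' S with hS'
  have hS'Γ' : S' ⊆ (Γ' : Set E) := by
    rintro _ ⟨x, hx, rfl⟩
    apply hd
    exact ⟨x, hSΓ hx, rfl⟩
  have hS'n : ∀ x ∈ S', ‖x‖ ≤ 2 * R := by
    rintro _ ⟨x, hx, rfl⟩
    have := (hS hx).2
    show ‖(2 : ℕ) • x‖ ≤ 2 * R
    rw [two_nsmul]
    calc ‖x + x‖ ≤ ‖x‖ + ‖x‖ := norm_add_le _ _
      _ ≤ 2 * R := by linarith
  have hsp1 : Submodule.span ℝ S ≤ Submodule.span ℝ S' := by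
    rw [Submodule.span_le]
    intro x hx
    have h2 : ((2 : ℕ) • x) ∈ Submodule.span ℝ S' := Submodule.subset_span ⟨x, hx, rfl⟩
    have h3 : x = (1 / 2 : ℝ) • ((2 : ℕ) • x) := by
      rw [two_nsmul, ← two_smul ℝ x, smul_smul]
      norm_num
    rw [SetLike.mem_coe, h3]
    exact Submodule.smul_mem _ _ h2
  have hsp2 : Submodule.span ℝ S' ≤ Submodule.span ℝ (Γ' : Set E) := Submodule.span_mono hS'Γ'
  have hsp3 : Submodule.span ℝ (Γ' : Set E) ≤ Submodule.span ℝ (Γ : Set E) :=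
    Submodule.span_mono (fun x hx => hle hx)
  have hspΓ : Submodule.span ℝ (Γ' : Set E) = Submodule.span ℝ (Γ : Set E) :=
    le_antisymm hsp3 (hsp ▸ hsp1.trans hsp2)
  have hspS' : Submodule.span ℝ S' = Submodule.span ℝ (Γ' : Set E) :=
    le_antisymm hsp2 (hspΓ ▸ hsp ▸ hsp1)
  have hrk : rk Γ' = rk Γ := by unfold rk; rw [hspΓ]
  have hrk2 : rk (sbal Γ' R) ≤ rk Γ := hrk ▸ rk_mono hle2
  have h1 := w_complete hdΓ' hle2 (R := 2 * R) (by linarith) hS'Γ' hS'n hspS'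
  have h2 := w_index hdΓ hle hrk
  rw [hi] at h2
  have hw : 0 < w Γ := w_pos hdΓ
  have hw' : 0 < w Γ' := w_pos hdΓ'
  have hw2 : 0 < w (sbal Γ' R) := w_pos hd2
  have hR0 : (0 : ℝ) < 2 * R := by linarith
  have h3 := Real.logb_le_logb_of_le (b := 2) (by norm_num) hw2 h1
  rw [Real.logb_mul hw'.ne' (pow_pos hR0 _).ne', Real.logb_pow, hrk] at h3
  have h4 : Real.logb 2 (w Γ) = ((rk Γ - k : ℕ) : ℝ) + Real.logb 2 (w Γ') := by
    rw [h2]
    push_cast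
    rw [Real.logb_mul (by positivity) hw'.ne', Real.logb_pow, Real.logb_self_eq_one (by norm_num)]
    ring
  rw [Nat.cast_sub hk] at h4
  rw [Nat.cast_sub hrk2] at h3
  unfold DD
  have h5 : ((rk Γ : ℝ) - rk (sbal Γ' R)) * Real.logb 2 (2 * R) ≤
      ((rk Γ : ℝ) - rk (sbal Γ' R)) * ρ := by
    apply mul_le_mul_of_nonneg_left hρ
    have : (rk (sbal Γ' R) : ℝ) ≤ rk Γ := by exact_mod_cast hrk2
    linarith
  nlinarith [h3, h4, h5]

/-- `ph` at a large scale -/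
theorem ph_le_w {M Γ : AddSubgroup E} (h : Disc M) {R : ℝ} (hR : 0 ≤ R) (hΓ : Γ ∈ Cls M R)
    {j : ℕ} (hj : (1 / 4 : ℝ) ^ j * (rk Γ * R) ^ 2 ≤ 1) :
    ph Γ (2 * j) ≤ j * rk Γ + Real.logb 2 (w Γ) + 2 := by
  have hd : Disc Γ := h.mono (cls_le hΓ)
  have hwp : 0 < w Γ := w_pos hd
  obtain ⟨S, hS, hΓS⟩ := hΓ
  have h1 := w_gen hd hR hΓS (fun x hx => (hS hx).2) j
  have h2 : Real.exp ((1 / 4 : ℝ) ^ j * (rk Γ * R) ^ 2) ≤ Real.exp 1 := Real.exp_le_exp.2 hj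
  have h3 : th Γ 0 ((1 / 4 : ℝ) ^ j) ≤ 2 ^ (j * rk Γ) * w Γ * Real.exp 1 :=
    h1.trans (mul_le_mul_of_nonneg_left h2 (by positivity))
  have hth : 0 < th Γ 0 ((1 / 4 : ℝ) ^ j) := th_pos hd 0 (by positivity)
  have h4 := Real.logb_le_logb_of_le (b := 2) (by norm_num) hth h3
  rw [Real.logb_mul (by positivity) (Real.exp_pos 1).ne', Real.logb_mul (by positivity) hwp.ne',
    Real.logb_pow, Real.logb_self_eq_one (by norm_num)] at h4
  have h5 : ((2 : ℝ) ^ (-(2 * (j : ℤ)))) = (1 / 4 : ℝ) ^ j := by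
    rw [zpow_neg, zpow_mul, zpow_natCast, one_div, inv_pow]
    norm_num
  unfold ph
  rw [h5]
  have h6 : Real.logb 2 (Real.exp 1) ≤ 2 := by
    rw [Real.logb, Real.log_exp, div_le_iff₀ (Real.log_pos (by norm_num))]
    have := Real.log_two_gt_d9
    linarith
  push_cast at h4
  linarith

/-- no nearly smooth sublattices: if `log₂ w ≤ -e rk`, the slope of `ph` at `a` is not close to
`rk/2` -/
theorem slope_le {M Γ : AddSubgroup E} (h : Disc M) {R : ℝ} (hR : 0 ≤ R) (hΓ : Γ ∈ Cls M R)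
    {j : ℕ} (hj : (1 / 4 : ℝ) ^ j * (rk Γ * R) ^ 2 ≤ 1) (hk : 1 ≤ rk Γ) {e θ : ℝ}
    (hθ : 0 < θ) (hθ1 : θ < 1) (hw : Real.logb 2 (w Γ) ≤ -(e * rk Γ)) {a : ℕ}
    (ha : a + 1 ≤ 2 * j) (hae : (a : ℝ) / 2 + θ * j + 2 < e) :
    2 * (ph Γ (a + 1) - ph Γ a) ≤ (1 - θ) * rk Γ := by
  have hd : Disc Γ := h.mono (cls_le hΓ)
  by_contra hcon
  push Not at hcon
  set s : ℝ := ph Γ (a + 1) - ph Γ a with hs
  have hinc : ∀ m : ℕ, s ≤ ph Γ ((a : ℤ) + m + 1) - ph Γ ((a : ℤ) + m) := by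
    intro m
    induction m with
    | zero => simp [hs]
    | succ m ih =>
      have := ph_convex hd ((a : ℤ) + m + 1)
      have e1 : (a : ℤ) + m + 1 - 1 = a + m := by ring
      rw [e1] at this
      push_cast
      have e2 : (a : ℤ) + (m + 1) + 1 = a + m + 1 + 1 := by ring
      have e3 : (a : ℤ) + (m + 1) = a + m + 1 := by ring
      rw [e2, e3]
      linarith
  have hsum : ∀ m : ℕ, (m : ℝ) * s ≤ ph Γ ((a : ℤ) + m) := by
    intro m
    induction m with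
    | zero =>
      have := ph_nonneg hd (a : ℤ)
      simpa using this
    | succ m ih =>
      have := hinc m
      have e3 : (a : ℤ) + ((m + 1 : ℕ) : ℤ) = a + m + 1 := by push_cast; ring
      rw [e3]
      push_cast
      linarith
  obtain ⟨m, hm⟩ : ∃ m : ℕ, 2 * j = a + m := ⟨2 * j - a, by omega⟩
  have h1 := hsum m
  have e4 : (a : ℤ) + m = 2 * (j : ℤ) := by exact_mod_cast hm.symm
  rw [e4] at h1
  have h2 := ph_le_w h hR hΓ hj
  have hkr : (1 : ℝ) ≤ rk Γ := by exact_mod_cast hk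
  have hmr : (m : ℝ) = 2 * j - a := by
    have : (2 * j : ℝ) = a + m := by exact_mod_cast hm
    linarith
  have hm0 : (0 : ℝ) ≤ m := Nat.cast_nonneg _
  have hmpos : (0 : ℝ) ≤ (m : ℝ) * (2 * s - (1 - θ) * rk Γ) :=
    mul_nonneg hm0 (by linarith)
  have ha0 : (0 : ℝ) ≤ a := Nat.cast_nonneg _
  -- m (1-θ) k / 2 ≤ j k - e k + 2
  have h3 : (m : ℝ) * ((1 - θ) * rk Γ) ≤ 2 * (j * rk Γ - e * rk Γ + 2) := by
    nlinarith
  rw [hmr] at h3
  have h4 : ((a : ℝ) / 2 + θ * j + 2) * rk Γ < e * rk Γ :=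
    mul_lt_mul_of_pos_right hae (by linarith)
  have h5 : 0 ≤ (a : ℝ) * θ * rk Γ := by positivity
  nlinarith

end H460
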