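import Pool.Agent.H460R2.WQ

/-! Module HN: (almost) canonical sublattice -/

set_option autoImplicit false

namespace H460

variable {E : Type*} [NormedAddCommGroup E] [InnerProductSpace ℝ E] [FiniteDimensional ℝ E]

theorem HN_rk_le (Γ : AddSubgroup E) : rk Γ ≤ Module.finrank ℝ E :=
  Submodule.finrank_le _

theorem HN_cut_span {M Γ : AddSubgroup E} (hle : Γ ≤ M) :
    Submodule.span ℝ (cut M (Submodule.span ℝ (Γ : Set E)) : Set E) =
      Submodule.span ℝ (Γ : Set E) := by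
  apply le_antisymm
  · rw [Submodule.span_le]
    intro x hx
    exact hx.2
  · apply Submodule.span_mono
    intro x hx
    exact ⟨hle hx, Submodule.subset_span hx⟩

theorem exists_HN {M : AddSubgroup E} (h : Disc M) (B : ℝ) (hB : ∀ Γ : AddSubgroup E, Γ ≤ M → w Γ ≤ B)
    {s : ℝ} (hs : 1 ≤ s) :
    ∃ U : Submodule ℝ E, Sat M U ∧ 1 / 2 ≤ w (cut M U) * s ^ rk (cut M U) ∧
      ∀ Γ : AddSubgroup E, Γ ≤ quo M U → w Γ * s ^ rk Γ ≤ 2 := by
  have hs0 : 0 < s := lt_of_lt_of_le one_pos hs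
  set F : AddSubgroup E → ℝ := fun Γ => w Γ * s ^ rk Γ with hF
  have hB1 : 1 ≤ B := by
    have := hB ⊥ bot_le
    rwa [w_bot] at this
  have hbound : ∀ Γ : AddSubgroup E, Γ ≤ M → F Γ ≤ B * s ^ Module.finrank ℝ E := by
    intro Γ hΓ
    exact mul_le_mul (hB Γ hΓ) (pow_le_pow_right₀ hs (HN_rk_le Γ)) (by positivity) (by linarith)
  set T : Set ℝ := {r | ∃ Γ : AddSubgroup E, Γ ≤ M ∧ r = F Γ} with hT
  have hTb : BddAbove T := ⟨B * s ^ Module.finrank ℝ E, by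
    rintro r ⟨Γ, hΓ, rfl⟩
    exact hbound Γ hΓ⟩
  have hbot : (1 : ℝ) ∈ T := ⟨⊥, bot_le, by rw [hF]; simp only [w_bot, rk_bot, pow_zero, mul_one]⟩
  have hsup1 : 1 ≤ sSup T := le_csSup hTb hbot
  obtain ⟨r, ⟨Γ₁, hΓ₁, rfl⟩, hr⟩ := exists_lt_of_lt_csSup ⟨1, hbot⟩
    (show sSup T / 2 < sSup T by linarith)
  set U : Submodule ℝ E := Submodule.span ℝ (Γ₁ : Set E) with hU
  have hspan : Submodule.span ℝ (cut M U : Set E) = U := HN_cut_span hΓ₁
  have hcutM : cut M U ≤ M := inf_le_left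
  have hdc : Disc (cut M U) := h.mono hcutM
  have hle1 : Γ₁ ≤ cut M U := fun x hx => ⟨hΓ₁ hx, Submodule.subset_span hx⟩
  have hrk1 : rk Γ₁ = rk (cut M U) := by
    unfold rk
    rw [hspan]
  have hw1 : w Γ₁ ≤ w (cut M U) := w_mono hdc hle1 hrk1
  have hF1 : F Γ₁ ≤ F (cut M U) := by
    simp only [hF]
    rw [hrk1]
    exact mul_le_mul_of_nonneg_right hw1 (by positivity)
  have hFc : sSup T / 2 < F (cut M U) := lt_of_lt_of_le hr hF1
  have hFpos : 0 < F (cut M U) := by linarith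
  refine ⟨U, hspan, by simp only [hF] at hFc; linarith, ?_⟩
  intro Γ hΓ
  set P : E →+ E := ((Uᗮ).starProjection : E →L[ℝ] E).toLinearMap.toAddMonoidHom with hP
  have hPU : ∀ x ∈ U, P x = 0 := by
    intro x hx
    show (Uᗮ).starProjection x = 0
    rw [Submodule.starProjection_apply_eq_zero_iff, Submodule.orthogonal_orthogonal]
    exact hx
  set Γ' : AddSubgroup E := M ⊓ Γ.comap P with hΓ'
  have hΓ'M : Γ' ≤ M := inf_le_left
  have hcut : cut Γ' U = cut M U := by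
    ext x
    constructor
    · rintro ⟨⟨h1, _⟩, h2⟩
      exact ⟨h1, h2⟩
    · rintro ⟨h1, h2⟩
      refine ⟨⟨h1, ?_⟩, h2⟩
      show P x ∈ Γ
      rw [hPU x h2]
      exact Γ.zero_mem
  have hquo : quo Γ' U = Γ := by
    ext y
    constructor
    · rintro ⟨x, hx, rfl⟩
      exact hx.2
    · intro hy
      obtain ⟨x, hx, hxy⟩ := hΓ hy
      refine ⟨x, ⟨hx, ?_⟩, hxy⟩
      show P x ∈ Γ
      rw [show P x = y from hxy]
      exact hy
  have hSat : Sat Γ' U := by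
    unfold Sat
    rw [hcut]
    exact hspan
  have hD' : Disc Γ' := h.mono hΓ'M
  have h1 := w_quo hD' hSat
  have h2 := rk_quo hD' hSat
  rw [hcut, hquo] at h1 h2
  have h3 : F Γ' ≤ sSup T := le_csSup hTb ⟨Γ', hΓ'M, rfl⟩
  have h4 : F Γ' = F (cut M U) * (w Γ * s ^ rk Γ) := by
    simp only [hF]
    rw [h1, h2, pow_add]
    ring
  rw [h4] at h3
  have h5 : F (cut M U) * (w Γ * s ^ rk Γ) ≤ F (cut M U) * 2 := by linarith
  exact le_of_mul_le_mul_left h5 hFpos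

end H460
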