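import Pool.Agent.H460R2.EmbL
import Pool.Agent.H460R2.HN

/-! Module Cosets: few cosets (uses the reverse Minkowski theorem) -/

set_option autoImplicit false

namespace H460

variable {E : Type*} [NormedAddCommGroup E] [InnerProductSpace ℝ E] [FiniteDimensional ℝ E]

section cosetsAux

variable {F : Type*} [NormedAddCommGroup F] [InnerProductSpace ℝ F]

lemma Cosets_mem_scl {c : ℝ} {Γ : AddSubgroup F} {x : F} :
    x ∈ scl c Γ ↔ ∃ y ∈ Γ, c • y = x := by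
  unfold scl
  rw [AddSubgroup.mem_map]
  rfl

lemma Cosets_scl_cancel {c : ℝ} (hc : c ≠ 0) (Γ : AddSubgroup F) : scl c (scl c⁻¹ Γ) = Γ := by
  ext x
  rw [Cosets_mem_scl]
  constructor
  · rintro ⟨y, hy, rfl⟩
    obtain ⟨z, hz, rfl⟩ := Cosets_mem_scl.1 hy
    rwa [smul_smul, mul_inv_cancel₀ hc, one_smul]
  · intro hx
    exact ⟨c⁻¹ • x, Cosets_mem_scl.2 ⟨x, hx, rfl⟩, by rw [smul_smul, mul_inv_cancel₀ hc, one_smul]⟩

lemma Cosets_scl_le {c : ℝ} (hc : c ≠ 0) {Γ M : AddSubgroup F} (h : Γ ≤ scl c M) :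
    scl c⁻¹ Γ ≤ M := by
  intro x hx
  obtain ⟨y, hy, rfl⟩ := Cosets_mem_scl.1 hx
  obtain ⟨z, hz, rfl⟩ := Cosets_mem_scl.1 (h hy)
  rwa [smul_smul, inv_mul_cancel₀ hc, one_smul]

end cosetsAux

lemma Cosets_num {i0 k : ℕ} (hk : 1 ≤ k) {v a : ℝ} (ha : (2 : ℝ) ^ (i0 + 1) ≤ a)
    (hv : v * (a ^ 2) ^ k ≤ 2) : (2 : ℝ) ^ (i0 * k) * v ≤ (a ^ k)⁻¹ := by
  have ha0 : 0 < a := lt_of_lt_of_le (by positivity) ha
  have hak : 0 < a ^ k := by positivity
  have h1 : (2 : ℝ) ^ (i0 * k) * 2 ≤ a ^ k := by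
    calc (2 : ℝ) ^ (i0 * k) * 2 ≤ (2 : ℝ) ^ (i0 * k) * 2 ^ k := by
          gcongr
          exact le_self_pow₀ (by norm_num) (by omega)
      _ = ((2 : ℝ) ^ (i0 + 1)) ^ k := by rw [pow_mul, ← mul_pow, pow_succ]
      _ ≤ a ^ k := by gcongr
  have h2 : (2 : ℝ) ^ (i0 * k) * v * a ^ k * a ^ k ≤ a ^ k := by
    calc (2 : ℝ) ^ (i0 * k) * v * a ^ k * a ^ k = (2 : ℝ) ^ (i0 * k) * (v * (a ^ 2) ^ k) := by
          have e : (a ^ 2) ^ k = a ^ k * a ^ k := by rw [← mul_pow, sq]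
          rw [e]; ring
      _ ≤ (2 : ℝ) ^ (i0 * k) * 2 := by gcongr
      _ ≤ a ^ k := h1
  have h3 : (2 : ℝ) ^ (i0 * k) * v * a ^ k ≤ 1 := by
    by_contra h
    rw [not_le] at h
    have := mul_lt_mul_of_pos_right h hak
    linarith
  rw [← one_div, le_div_iff₀ hak]
  exact h3

/-- number of short vectors in a lattice all of whose sublattices have small `w` -/
theorem few_short (hRM : RMStatement) (κ : ℕ) (ε : ℝ) (hε : 0 < ε) : ∃ n₀ : ℕ, ∀ n : ℕ, n₀ ≤ n →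
    ∀ (F : Type) [NormedAddCommGroup F] [InnerProductSpace ℝ F] [FiniteDimensional ℝ F]
      (M : AddSubgroup F), Disc M → rk M ≤ κ * n →
      (∀ Γ : AddSubgroup F, Γ ≤ M → w Γ * ((n : ℝ) ^ ε) ^ rk Γ ≤ 2) →
      ∀ S : Finset F, (∀ x ∈ S, x ∈ M ∧ ‖x‖ ^ 2 ≤ (16 * κ + 4) * n) →
        (S.card : ℝ) ≤ 2 ^ n := by
  classical
  obtain ⟨i0, hi0⟩ := pow_unbounded_of_one_lt (4 * (16 * (κ : ℝ) + 4)) (show (1 : ℝ) < 4 by norm_num)
  obtain ⟨n1, hn1⟩ := hRM (ε / 2) (κ + 1) (1 / 2) (by positivity) (by positivity) (by norm_num)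
  have hev := ((tendsto_rpow_atTop (show 0 < ε / 2 by positivity)).comp
    tendsto_natCast_atTop_atTop).eventually_ge_atTop ((2 : ℝ) ^ (i0 + 1))
  obtain ⟨n2, hn2⟩ := Filter.eventually_atTop.1 hev
  refine ⟨max 1 (max n1 n2), ?_⟩
  intro n hn F _ _ _ M hM hrk hw S hS
  have hn1' : n1 ≤ n := (le_max_left _ _).trans ((le_max_right _ _).trans hn)
  have hn2' : n2 ≤ n := (le_max_right _ _).trans ((le_max_right _ _).trans hn)
  have hnpos : (0 : ℝ) < n := by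
    have : 1 ≤ n := (le_max_left _ _).trans hn
    exact_mod_cast this
  have ha : (2 : ℝ) ^ (i0 + 1) ≤ (n : ℝ) ^ (ε / 2) := hn2 n hn2'
  set c : ℝ := (2 : ℝ) ^ (-(i0 : ℤ)) with hc
  have hcne : c ≠ 0 := by positivity
  obtain ⟨hMd, hMr⟩ := disc_scl hM hcne
  have hth : th (scl c M) 0 1 ≤ (2 : ℝ) ^ ((1 / 2 : ℝ) * n) := by
    refine hn1 n hn1' F (scl c M) hMd ?_ ?_
    · rw [hMr]
      have : (rk M : ℝ) ≤ (κ : ℝ) * n := by exact_mod_cast hrk
      nlinarith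
    · intro G hG
      set Γ : AddSubgroup F := scl c⁻¹ G with hΓ
      have hΓM : Γ ≤ M := Cosets_scl_le hcne hG
      have hΓd : Disc Γ := hM.mono hΓM
      have hGeq : scl c Γ = G := Cosets_scl_cancel hcne G
      have hrkG : rk G = rk Γ := by
        rw [← hGeq]; exact (disc_scl hΓd hcne).2
      rw [hrkG]
      by_cases hk : rk Γ = 0
      · have hbot : G = ⊥ := rk_eq_zero.1 (hrkG.trans hk)
        rw [hk, hbot, w_bot]; simp
      · have hwG : w G = (2 : ℝ) ^ (i0 * rk Γ) * w Γ := by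
          rw [← hGeq, hc, w_scl hΓd]
          congr 1
          rw [← zpow_natCast]
          congr 1
          push_cast
          ring
        rw [hwG]
        have h2 : (n : ℝ) ^ ε = ((n : ℝ) ^ (ε / 2)) ^ 2 := by
          rw [← Real.rpow_natCast, ← Real.rpow_mul hnpos.le]; congr 1; push_cast; ring
        have h3 : (n : ℝ) ^ (-(ε / 2 * (rk Γ : ℝ))) = (((n : ℝ) ^ (ε / 2)) ^ rk Γ)⁻¹ := by
          rw [Real.rpow_neg hnpos.le, Real.rpow_mul hnpos.le, Real.rpow_natCast]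
        rw [h3]
        refine Cosets_num (Nat.one_le_iff_ne_zero.2 hk) ha ?_
        rw [← h2]
        exact hw Γ hΓM
  have hcard : ((S.image (fun x => c • x)).card : ℝ) ≤ Real.exp (1 * ((n : ℝ) / 4)) * th (scl c M) 0 1 := by
    refine card_le_th hMd one_pos ?_
    intro x hx
    obtain ⟨y, hy, rfl⟩ := Finset.mem_image.1 hx
    refine ⟨Cosets_mem_scl.2 ⟨y, (hS y hy).1, rfl⟩, ?_⟩
    have h1 := (hS y hy).2
    have h2 : ‖c • y‖ ^ 2 = ‖y‖ ^ 2 / 4 ^ i0 := by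
      rw [norm_smul, mul_pow, Real.norm_eq_abs, sq_abs, hc, zpow_neg, zpow_natCast, inv_pow, ← pow_mul,
        mul_comm i0 2, pow_mul]
      norm_num
      ring
    rw [h2, div_le_iff₀ (by positivity)]
    have h3 : (16 * (κ : ℝ) + 4) * n ≤ n / 4 * 4 ^ i0 := by
      nlinarith
    linarith
  have hinj : (S.image (fun x => c • x)).card = S.card :=
    Finset.card_image_of_injective _ (smul_right_injective F hcne)
  rw [hinj] at hcard
  have he : Real.exp (1 * ((n : ℝ) / 4)) ≤ (2 : ℝ) ^ ((1 / 2 : ℝ) * n) := by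
    rw [Real.rpow_def_of_pos (by norm_num)]
    refine Real.exp_le_exp.2 ?_
    have := Real.log_two_gt_d9
    nlinarith
  calc (S.card : ℝ) ≤ Real.exp (1 * ((n : ℝ) / 4)) * th (scl c M) 0 1 := hcard
    _ ≤ (2 : ℝ) ^ ((1 / 2 : ℝ) * n) * (2 : ℝ) ^ ((1 / 2 : ℝ) * n) := by
        refine mul_le_mul he hth ?_ (by positivity)
        exact zero_le_one.trans (one_le_th hMd one_pos)
    _ = 2 ^ n := by
        rw [← Real.rpow_add (by norm_num), ← Real.rpow_natCast]; congr 1; ring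

end H460
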