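import Pool.Agent.H460R2.WQ

/-! Module EmbL: the lattices emb and embW -/

set_option autoImplicit false

namespace H460

variable {E : Type*} [NormedAddCommGroup E] [InnerProductSpace ℝ E] [FiniteDimensional ℝ E]

/-- A set of integer vectors whose coordinates are bounded is finite. -/
theorem embL_finite_box {ι : Type*} [Fintype ι] (R : ℝ) :
    {x : ι → ℤ | ∀ i, |(x i : ℝ)| ≤ R}.Finite := by
  have h : (Set.pi Set.univ (fun _ : ι => Set.Icc (-⌈R⌉) ⌈R⌉)).Finite :=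
    Set.Finite.pi (fun _ => Set.finite_Icc _ _)
  refine h.subset ?_
  intro x hx i _
  have hi := abs_le.mp (hx i)
  have hR := Int.le_ceil R
  constructor
  · have : (-(⌈R⌉ : ℤ) : ℝ) ≤ (x i : ℝ) := by linarith
    exact_mod_cast this
  · have : (x i : ℝ) ≤ (⌈R⌉ : ℝ) := by linarith
    exact_mod_cast this

theorem embL_coord_le {ι : Type*} [Fintype ι] (v : EuclideanSpace ℝ ι) (i : ι) :
    |v i| ≤ ‖v‖ := by
  have := EuclideanSpace.norm_eq v
  have h1 : ‖v‖ ^ 2 = ∑ i, ‖v i‖ ^ 2 := by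
    rw [this, Real.sq_sqrt (Finset.sum_nonneg (fun _ _ => sq_nonneg _))]
  have h2 : ‖v i‖ ^ 2 ≤ ‖v‖ ^ 2 := by
    rw [h1]
    exact Finset.single_le_sum (f := fun i => ‖v i‖ ^ 2) (fun _ _ => sq_nonneg _)
      (Finset.mem_univ i)
  rw [← Real.norm_eq_abs]
  exact le_of_sq_le_sq h2 (norm_nonneg _) 

/-- coordinate functional -/
noncomputable def embL_coord {ι : Type*} [Fintype ι] (i : ι) : EuclideanSpace ℝ ι →ₗ[ℝ] ℝ where
  toFun v := v i
  map_add' _ _ := rfl
  map_smul' _ _ := rfl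

theorem disc_emb {ι : Type*} [Fintype ι] (L : AddSubgroup (ι → ℤ)) : Disc (L.map (emb ι)) := by
  intro R
  refine ((embL_finite_box (ι := ι) R).image (emb ι)).subset ?_
  rintro v ⟨hv, hR⟩
  obtain ⟨x, _, rfl⟩ := AddSubgroup.mem_map.mp hv
  refine ⟨x, ?_, rfl⟩
  intro i
  have := embL_coord_le (emb ι x) i
  exact this.trans hR

theorem emb_injective {ι : Type*} [Fintype ι] : Function.Injective (emb ι) := by
  intro x y hxy
  ext i
  have : (emb ι x) i = (emb ι y) i := by rw [hxy]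
  have h2 : ((x i : ℤ) : ℝ) = ((y i : ℤ) : ℝ) := this
  exact_mod_cast h2

theorem embW_injective {J : Type*} [Fintype J] {n : ℕ} (W : (J → ℤ) →+ (Fin n → ℤ)) (T : ℝ) :
    Function.Injective (embW W T) := by
  intro x y hxy
  ext i
  have : (embW W T x) (Sum.inl i) = (embW W T y) (Sum.inl i) := by rw [hxy]
  have h2 : ((x i : ℤ) : ℝ) = ((y i : ℤ) : ℝ) := this
  exact_mod_cast h2

theorem embW_norm {J : Type*} [Fintype J] {n : ℕ} (W : (J → ℤ) →+ (Fin n → ℤ)) (T : ℝ)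
    (x : J → ℤ) :
    ‖embW W T x‖ ^ 2 = ∑ j, (x j : ℝ) ^ 2 + ∑ i, ((W x i : ℝ) / T) ^ 2 := by
  rw [EuclideanSpace.norm_eq, Real.sq_sqrt (Finset.sum_nonneg (fun _ _ => sq_nonneg _)),
    Fintype.sum_sum_type]
  congr 1
  · refine Finset.sum_congr rfl (fun j _ => ?_)
    rw [Real.norm_eq_abs, sq_abs]
    rfl
  · refine Finset.sum_congr rfl (fun j _ => ?_)
    rw [Real.norm_eq_abs, sq_abs]
    rfl

theorem disc_embW {J : Type*} [Fintype J] {n : ℕ} (W : (J → ℤ) →+ (Fin n → ℤ)) (T : ℝ)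
    (L : AddSubgroup (J → ℤ)) : Disc (L.map (embW W T)) := by
  intro R
  refine ((embL_finite_box (ι := J) R).image (embW W T)).subset ?_
  rintro v ⟨hv, hR⟩
  obtain ⟨x, _, rfl⟩ := AddSubgroup.mem_map.mp hv
  refine ⟨x, ?_, rfl⟩
  intro i
  have := embL_coord_le (embW W T x) (Sum.inl i)
  exact this.trans hR

theorem embL_embW_eq_sum {J : Type*} [Fintype J] {n : ℕ} (W : (J → ℤ) →+ (Fin n → ℤ)) (T : ℝ)
    (x : J → ℤ) :
    embW W T x = (open Classical in ∑ j, (x j : ℝ) • embW W T (Pi.single j (1 : ℤ))) := by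
  classical
  have hx : x = ∑ j, (x j) • (Pi.single j (1 : ℤ) : J → ℤ) := by
    ext i
    simp [Finset.sum_apply, Pi.single_apply]
  conv_lhs => rw [hx]
  rw [map_sum]
  refine Finset.sum_congr rfl (fun j _ => ?_)
  rw [map_zsmul]
  exact (Int.cast_smul_eq_zsmul ℝ (x j) _).symm

theorem rk_embW {J : Type*} [Fintype J] {n : ℕ} (W : (J → ℤ) →+ (Fin n → ℤ)) (T : ℝ)
    (L : AddSubgroup (J → ℤ)) : rk (L.map (embW W T)) ≤ Fintype.card J := by
  classical
  have hle : Submodule.span ℝ ((L.map (embW W T) : AddSubgroup _) : Set (EuclideanSpace ℝ (J ⊕ Fin n)))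
      ≤ Submodule.span ℝ (Set.range (fun j : J => embW W T (Pi.single j (1 : ℤ)))) := by
    rw [Submodule.span_le]
    rintro v hv
    obtain ⟨x, _, rfl⟩ := AddSubgroup.mem_map.mp hv
    rw [embL_embW_eq_sum]
    refine Submodule.sum_mem _ (fun j _ => Submodule.smul_mem _ _ ?_)
    exact Submodule.subset_span (R := ℝ)
      (Set.mem_range_self (f := fun j : J => embW W T (Pi.single j (1 : ℤ))) j)
  unfold rk
  refine (Submodule.finrank_mono hle).trans ?_
  exact finrank_range_le_card _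

theorem w_emb_le {ι : Type*} [Fintype ι] (L : AddSubgroup (ι → ℤ)) :
    w (L.map (emb ι)) ≤ Real.sqrt Real.pi ^ rk (L.map (emb ι)) := by
  refine w_int (disc_emb L) (ι := ι) (fun i => embL_coord i) ?_ ?_ ?_
  · intro i x
    exact embL_coord_le x i
  · rintro i v hv
    obtain ⟨x, _, rfl⟩ := AddSubgroup.mem_map.mp hv
    exact ⟨x i, rfl⟩
  · rintro v _ h0
    ext i
    exact h0 i

theorem w_embW_le {J : Type*} [Fintype J] {n : ℕ} (W : (J → ℤ) →+ (Fin n → ℤ)) (T : ℝ)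
    (L : AddSubgroup (J → ℤ)) :
    w (L.map (embW W T)) ≤ Real.sqrt Real.pi ^ rk (L.map (embW W T)) := by
  refine w_int (disc_embW W T L) (ι := J) (fun j => embL_coord (Sum.inl j)) ?_ ?_ ?_
  · intro i x
    exact embL_coord_le x (Sum.inl i)
  · rintro i v hv
    obtain ⟨x, _, rfl⟩ := AddSubgroup.mem_map.mp hv
    exact ⟨x i, rfl⟩
  · rintro v hv h0
    obtain ⟨x, _, rfl⟩ := AddSubgroup.mem_map.mp hv
    have hx : x = 0 := by
      ext i
      have h1 : ((x i : ℤ) : ℝ) = 0 := h0 i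
      exact_mod_cast h1
    rw [hx, map_zero]

end H460
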