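import Pool.Agent.H460R2.ThB
import Pool.Agent.H137R2.PFR.Hundred

/-! Module EntA: entropies of the discrete Gaussian modulo 2 -/

set_option autoImplicit false

namespace H460

variable {E : Type*} [NormedAddCommGroup E] [InnerProductSpace ℝ E] [FiniteDimensional ℝ E]

/-- Gibbs inequality -/
theorem EntA_gibbs {α : Type*} [Fintype α] {p q : α → ℝ} (hp : ∀ c, 0 ≤ p c)
    (hq : ∀ c, 0 ≤ q c) (hp1 : ∑ c, p c = 1) (hq1 : ∑ c, q c ≤ 1)
    (h0 : ∀ c, q c = 0 → p c = 0) : Ent p ≤ -∑ c, p c * Real.log (q c) := by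
  have h1 : ∀ c, Real.negMulLog (p c) + p c * Real.log (q c) ≤ q c - p c := by
    intro c
    rcases (hp c).eq_or_lt with h | h
    · rw [← h]; simp [hq c]
    · have hqc : 0 < q c := by
        rcases (hq c).eq_or_lt with h' | h'
        · exact absurd (h0 c h'.symm) h.ne'
        · exact h'
      have h2 := Real.log_le_sub_one_of_pos (div_pos hqc h)
      rw [Real.log_div hqc.ne' h.ne'] at h2
      have h3 : p c * (Real.log (q c) - Real.log (p c)) ≤ p c * (q c / p c - 1) :=
        mul_le_mul_of_nonneg_left h2 h.le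
      have h4 : p c * (q c / p c - 1) = q c - p c := by field_simp
      rw [h4] at h3
      rw [Real.negMulLog]
      linarith
  have h2 := Finset.sum_le_sum (fun c (_ : c ∈ Finset.univ) => h1 c)
  rw [Finset.sum_add_distrib, Finset.sum_sub_distrib, hp1] at h2
  unfold Ent
  linarith

/-- `Ent p ≥ -log ∑ p^2` -/
theorem EntA_ge {α : Type*} [Fintype α] {p : α → ℝ} (hp : ∀ c, 0 ≤ p c)
    (hp1 : ∑ c, p c = 1) : -Real.log (∑ c, p c ^ 2) ≤ Ent p := by
  have hS : 0 < ∑ c, p c ^ 2 := by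
    by_contra h
    push Not at h
    have h1 : ∀ c ∈ Finset.univ, p c ^ 2 = 0 :=
      (Finset.sum_eq_zero_iff_of_nonneg (fun c _ => sq_nonneg (p c))).1
        (le_antisymm h (Finset.sum_nonneg (fun c _ => sq_nonneg (p c))))
    have h2 : ∑ c, p c = 0 :=
      Finset.sum_eq_zero (fun c hc => by
        have := h1 c hc
        exact pow_eq_zero_iff (two_ne_zero) |>.1 this)
    rw [hp1] at h2
    exact one_ne_zero h2
  set S := ∑ c, p c ^ 2 with hSdef
  have h1 := EntA_gibbs (p := p) (q := fun c => p c ^ 2 / S) hp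
    (fun c => div_nonneg (sq_nonneg _) hS.le) hp1
    (by rw [← Finset.sum_div, ← hSdef, div_self hS.ne'])
    (fun c hc => by
      rcases div_eq_zero_iff.1 hc with h | h
      · exact pow_eq_zero_iff (two_ne_zero) |>.1 h
      · exact absurd h hS.ne')
  have h2 : ∑ c, p c * Real.log (p c ^ 2 / S) = -2 * Ent p - Real.log S := by
    have h3 : ∀ c, p c * Real.log (p c ^ 2 / S) =
        -2 * Real.negMulLog (p c) - p c * Real.log S := by
      intro c
      rcases (hp c).eq_or_lt with h | h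
      · rw [← h]; simp
      · rw [Real.log_div (pow_pos h 2).ne' hS.ne', Real.log_pow, Real.negMulLog]
        push_cast
        ring
    rw [Finset.sum_congr rfl (fun c _ => h3 c), Finset.sum_sub_distrib, ← Finset.mul_sum,
      ← Finset.sum_mul, hp1, one_mul]
    rfl
  rw [h2] at h1
  linarith

/-- entropy of `q^2 / ∑ q^2` -/
theorem EntA_le {α : Type*} [Fintype α] {q ν : α → ℝ} (hq : ∀ c, 0 ≤ q c)
    (hq1 : ∑ c, q c = 1) {S : ℝ} (hS : S = ∑ c, q c ^ 2) (hν : ∀ c, ν c = q c ^ 2 / S) :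
    Ent ν ≤ -Real.log S := by
  have hSpos : 0 < S := by
    by_contra h
    push Not at h
    rw [hS] at h
    have h1 : ∀ c ∈ Finset.univ, q c ^ 2 = 0 :=
      (Finset.sum_eq_zero_iff_of_nonneg (fun c _ => sq_nonneg (q c))).1
        (le_antisymm h (Finset.sum_nonneg (fun c _ => sq_nonneg (q c))))
    have h2 : ∑ c, q c = 0 :=
      Finset.sum_eq_zero (fun c hc => by
        have := h1 c hc
        exact pow_eq_zero_iff (two_ne_zero) |>.1 this)
    rw [hq1] at h2
    exact one_ne_zero h2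
  have hν0 : ∀ c, 0 ≤ ν c := fun c => by rw [hν]; exact div_nonneg (sq_nonneg _) hSpos.le
  have hν1 : ∑ c, ν c = 1 := by
    rw [Finset.sum_congr rfl (fun c _ => hν c), ← Finset.sum_div, ← hS, div_self hSpos.ne']
  have h1 := EntA_gibbs (p := ν) (q := q) hν0 hq hν1 hq1.le (fun c hc => by rw [hν, hc]; simp)
  have h2 : Ent ν = 2 * (-∑ c, ν c * Real.log (q c)) + Real.log S := by
    have h3 : ∀ c, Real.negMulLog (ν c) = -2 * (ν c * Real.log (q c)) + ν c * Real.log S := by
      intro c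
      rcases (hq c).eq_or_lt with h | h
      · have : ν c = 0 := by rw [hν, ← h]; simp
        rw [this]; simp
      · have h4 : Real.log (ν c) = 2 * Real.log (q c) - Real.log S := by
          rw [hν, Real.log_div (pow_pos h 2).ne' hSpos.ne', Real.log_pow]
          push_cast; ring
        rw [Real.negMulLog, h4]; ring
    unfold Ent
    rw [Finset.sum_congr rfl (fun c _ => h3 c), Finset.sum_add_distrib, ← Finset.mul_sum,
      ← Finset.sum_mul, hν1]
    ring
  linarith

/-- `μ = fib/th` on `Γ/2Γ`; `μ*μ = fib(t/2)^2/th^2` (`fib_conv`), its entropy is at most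
`-log ∑ (fib(t/2)/th(t/2))^2` (relative entropy to `fib(t/2)/th(t/2)` is nonnegative);
`Ent μ ≥ -log ∑ μ^2` (Jensen). -/
theorem ent_bounds {Γ : AddSubgroup E} (h : Disc Γ) [Fintype (QQ Γ)] {t : ℝ} (ht : 0 < t)
    (μ : QQ Γ → ℝ) (hμ : ∀ c, μ c = fib Γ 0 t c / th Γ 0 t) :
    (∀ c, 0 ≤ μ c) ∧ ∑ c, μ c = 1 ∧
    Ent (cnv μ μ) ≤ 2 * (Real.log (th Γ 0 (t / 2)) - Real.log (th Γ 0 t)) ∧
    2 * (Real.log (th Γ 0 t) - Real.log (th Γ 0 (2 * t))) ≤ Ent μ ∧
    Ent μ ≤ Ent (cnv μ μ) := by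
  have ht2 : 0 < t / 2 := by positivity
  have p1 := th_pos h (0 : E) ht
  have p2 := th_pos h (0 : E) ht2
  have p3 := th_pos h (0 : E) (t := 2 * t) (by positivity)
  have hμ0 : ∀ c, 0 ≤ μ c := fun c => by rw [hμ]; exact div_nonneg (fib_nonneg _ _ _) p1.le
  have hμ1 : ∑ c, μ c = 1 := by
    rw [Finset.sum_congr rfl (fun c _ => hμ c), ← Finset.sum_div, sum_fib h 0 ht,
      div_self p1.ne']
  refine ⟨hμ0, hμ1, ?_, ?_, ?_⟩
  · -- upper bound
    have hS : (th Γ 0 t / th Γ 0 (t / 2)) ^ 2 = ∑ c, (fib Γ 0 (t / 2) c / th Γ 0 (t / 2)) ^ 2 := by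
      have h3 := sum_fib_sq h ht2
      rw [show 2 * (t / 2) = t by ring] at h3
      rw [div_pow, ← h3, Finset.sum_div]
      exact Finset.sum_congr rfl (fun c _ => by rw [div_pow])
    have h4 := EntA_le (q := fun c => fib Γ 0 (t / 2) c / th Γ 0 (t / 2)) (ν := cnv μ μ)
      (fun c => div_nonneg (fib_nonneg _ _ _) p2.le)
      (by rw [← Finset.sum_div, sum_fib h 0 ht2, div_self p2.ne']) hS
      (by
        intro c
        have h5 := fib_conv h ht c
        unfold cnv
        have h6 : ∀ c', μ c' * μ (c - c') =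
            (fib Γ 0 t c' * fib Γ 0 t (c - c')) / th Γ 0 t ^ 2 := by
          intro c'
          rw [hμ, hμ]; field_simp
        rw [Finset.sum_congr rfl (fun c' _ => h6 c'), ← Finset.sum_div, h5]
        field_simp)
    refine h4.trans (le_of_eq ?_)
    rw [Real.log_pow, Real.log_div p1.ne' p2.ne']
    push_cast; ring
  · have h4 := EntA_ge hμ0 hμ1
    refine le_trans (le_of_eq ?_) h4
    have h3 := sum_fib_sq h ht
    have h5 : ∑ c, μ c ^ 2 = (th Γ 0 (2 * t) / th Γ 0 t) ^ 2 := by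
      rw [div_pow, ← h3, Finset.sum_div]
      exact Finset.sum_congr rfl (fun c _ => by rw [hμ, div_pow])
    rw [h5, Real.log_pow, Real.log_div p3.ne' p1.ne']
    push_cast; ring
  · have hL : H137.PFR.Law μ := ⟨hμ0, hμ1⟩
    have h4 := H137.PFR.Hundred.ent_le_conv hL hL
    have h5 : H137.PFR.conv μ μ = cnv μ μ := by
      funext v
      rw [H137.PFR.Hundred.conv_apply']
      rfl
    rw [h5] at h4
    exact h4

end H460
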