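import Pool.Agent.H460R2.Defs
set_option autoImplicit false

/-! Module GapFinal (helper112): GAP combinatorics, from good lattices and claim* to the negation of
the polynomial Freiman-Ruzsa conjecture with progressions. -/

open scoped Pointwise

namespace H460

theorem gap_final
    (hgood : ∀ μ : ℕ, ∃ n₀ : ℕ, ∀ n : ℕ, n₀ ≤ n → ∃ L : AddSubgroup (Fin n → ℤ), Good n μ L)
    (hclaim : ∀ μ κ : ℕ, ∃ n₀ : ℕ, ∀ n : ℕ, n₀ ≤ n →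
      ∀ L : AddSubgroup (Fin n → ℤ), Good n μ L → ClaimStar n μ κ L)
    (hpts : ∀ (n μ : ℕ), μ + 4 ≤ n ^ 2 → ∀ L : AddSubgroup (Fin n → ℤ), Good n μ L →
      ∀ (V : Submodule ℝ (EuclideanSpace ℝ (Fin n))) (d : ℕ), Module.finrank ℝ V ≤ d →
      ∀ S : Finset (Fin n → ℤ), (∀ x ∈ S, ∀ y ∈ S, x - y ∈ L ∧ emb (Fin n) (x - y) ∈ V) →
      (∃ z : Fin n → ℤ, ∀ x ∈ S, ∀ i, |x i - z i| ≤ 2 ^ (n ^ 2)) →
      (S.card : ℝ) ≤ 2 ^ (6 * n + 1 + (μ + 4) * d)) :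
    ¬ (∃ C : ℝ, 0 < C ∧ ∃ c : ℝ, 0 < c ∧
  ∀ (G : Type) [AddCommGroup G],
    (∀ (n : ℕ) (x : G), n ≠ 0 → n • x = 0 → x = 0) →
    ∀ (A : Set G) (K : ℝ), A.Finite → A.Nonempty →
      ((A + A).ncard : ℝ) ≤ K * (A.ncard : ℝ) →
      ∃ (d : ℕ) (a : G) (v : Fin d → G) (N : Fin d → ℕ) (P : Set G),
        P = {x : G | ∃ k : Fin d → ℕ, (∀ i, k i < N i) ∧ x = a + ∑ i, k i • v i} ∧
        (d : ℝ) ≤ C * K ^ c ∧
        (P.ncard : ℝ) ≤ C * K ^ c * (A.ncard : ℝ) ∧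
        C⁻¹ * K ^ (-c) * (A.ncard : ℝ) ≤ ((A ∩ P).ncard : ℝ)) := by
  sorry

end H460
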