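import Pool.Agent.H460R2.Claim
import Pool.Agent.H460R2.GapFinal
import Pool.Agent.H139R2.RL.Main
set_option autoImplicit false

/-! S06674 from the reverse Minkowski theorem. -/

open scoped Pointwise

namespace H460

theorem final (hRM : RMStatement) :
    ¬ (∃ C : ℝ, 0 < C ∧ ∃ c : ℝ, 0 < c ∧
  ∀ (G : Type) [AddCommGroup G],
    (∀ (n : ℕ) (x : G), n ≠ 0 → n • x = 0 → x = 0) →
    ∀ (A : Set G) (K : ℝ), A.Finite → A.Nonempty →
      ((A + A).ncard : ℝ) ≤ K * (A.ncard : ℝ) →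
      ∃ (d : ℕ) (a : G) (v : Fin d → G) (N : Fin d → ℕ) (P : Set G),
        P = {x : G | ∃ k : Fin d → ℕ, (∀ i, k i < N i) ∧ x = a + ∑ i, k i • v i} ∧
        (d : ℝ) ≤ C * K ^ c ∧
        (P.ncard : ℝ) ≤ C * K ^ c * (A.ncard : ℝ) ∧
        C⁻¹ * K ^ (-c) * (A.ncard : ℝ) ≤ ((A ∩ P).ncard : ℝ)) := by
  refine gap_final (fun μ => H139R2.random_lattice μ) (fun μ κ => claimStar hRM μ κ) ?_
  intro n μ hμ L hL V d hd S hS hz
  obtain ⟨z, hz⟩ := hz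
  exact pts_bound hμ hL V hd S hS z hz

end H460
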