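import Pool.Agent.H460R2.Defs

/-! Module Heat: discrete heat inequality (numbers only) -/

set_option autoImplicit false

namespace H460

theorem Heat_tele (g : ℕ → ℝ) (b w : ℕ) :
    ∑ i ∈ Finset.range w, (g (b + i + 2) - 2 * g (b + i + 1) + g (b + i)) =
      (g (b + w + 1) - g (b + w)) - (g (b + 1) - g b) := by
  induction w with
  | zero => simp
  | succ w ih =>
    rw [Finset.sum_range_succ, ih]
    have e1 : b + (w + 1) + 1 = b + w + 2 := by ring
    have e2 : b + (w + 1) = b + w + 1 := by ring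
    rw [e1, e2]; ring

theorem Heat_tele1 (g : ℕ → ℝ) (b w : ℕ) :
    ∑ i ∈ Finset.range w, (g (b + i + 1) - g (b + i)) = g (b + w) - g b := by
  induction w with
  | zero => simp
  | succ w ih =>
    rw [Finset.sum_range_succ, ih]
    have e2 : b + (w + 1) = b + w + 1 := by ring
    rw [e2]; ring

/-- increments are nondecreasing -/
theorem Heat_inc (g : ℕ → ℝ) (M c : ℕ)
    (hconv : ∀ a, 1 ≤ a → a ≤ M → 0 ≤ g (a + 1) - 2 * g a + g (a - 1)) :
    ∀ i : ℕ, c + i ≤ M → g (c + 1) - g c ≤ g (c + i + 1) - g (c + i) := by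
  intro i
  induction i with
  | zero => intro _; simp
  | succ i ih =>
    intro h
    have h1 := ih (by omega)
    have h2 := hconv (c + (i + 1)) (by omega) (by omega)
    have e1 : c + (i + 1) - 1 = c + i := by omega
    have e2 : c + (i + 1) + 1 = c + i + 2 := by ring
    have e3 : c + (i + 1) = c + i + 1 := by ring
    rw [e1, e2, e3] at h2
    rw [e3]
    have e4 : c + i + 1 + 1 = c + i + 2 := by ring
    rw [e4]
    linarith

/-- one window -/
theorem Heat_window {J w b : ℕ} (hw : 1 ≤ w) (hb : b + 2 * w ≤ 4 * w) (m : ℕ → ℕ → ℝ) (A ι : ℝ)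
    (hA : 0 ≤ A)
    (h0 : ∀ a ≤ 4 * w + 2, m 0 a ≤ 2)
    (hpos : ∀ j ≤ J, ∀ a ≤ 4 * w + 2, 0 ≤ m j a)
    (hmono : ∀ j < J, ∀ a ≤ 4 * w + 2, m j a ≤ m (j + 1) a)
    (hmonoa : ∀ j ≤ J, ∀ a ≤ 4 * w + 1, m j a ≤ m j (a + 1))
    (hconv : ∀ j ≤ J, ∀ a, 1 ≤ a → a ≤ 4 * w + 1 →
      0 ≤ m j (a + 1) - 2 * m j a + m j (a - 1))
    (hstep : ∀ j, 1 ≤ j → j ≤ J → ∀ a, 1 ≤ a → a ≤ 4 * w + 1 →
      m j a ≤ m (j - 1) a + A * (m j (a + 1) - 2 * m j a + m j (a - 1)) + ι) :
    m J (b + 1) ≤ (2 + J * ι) + (A * J / w ^ 2) * m J (b + 2 * w + 1) := by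
  have hwpos : (0 : ℝ) < w := by exact_mod_cast hw
  -- step 1
  have s1 : ∀ j ≤ J, ∀ a, 1 ≤ a → a ≤ 4 * w + 1 →
      m j a ≤ 2 + j * ι + A * ∑ k ∈ Finset.range j,
        (m (k + 1) (a + 1) - 2 * m (k + 1) a + m (k + 1) (a - 1)) := by
    intro j
    induction j with
    | zero =>
      intro _ a _ ha
      have := h0 a (by omega)
      simpa using this
    | succ j ih =>
      intro hj a ha1 ha2
      have h1 := ih (by omega) a ha1 ha2
      have h2 := hstep (j + 1) (by omega) hj a ha1 ha2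
      simp only [Nat.add_sub_cancel] at h2
      rw [Finset.sum_range_succ]
      push_cast
      nlinarith [h1, h2]
  -- monotone in j
  have smono : ∀ a ≤ 4 * w + 2, ∀ j ≤ J, m j a ≤ m J a := by
    intro a ha j hj
    obtain ⟨d, rfl⟩ := Nat.exists_eq_add_of_le hj
    clear hj
    have : ∀ e ≤ d, m j a ≤ m (j + e) a := by
      intro e
      induction e with
      | zero => intro _; simp
      | succ e ih =>
        intro he
        exact (ih (by omega)).trans (hmono (j + e) (by omega) a ha)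
    exact this d le_rfl
  -- monotone in a
  have samono : ∀ i, i ≤ w → m J (b + 1) ≤ m J (b + 1 + i) := by
    intro i
    induction i with
    | zero => intro _; simp
    | succ i ih =>
      intro hi
      exact (ih (by omega)).trans (hmonoa J le_rfl (b + 1 + i) (by omega))
  -- step 3
  have s3 : ∀ j ≤ J, ∑ i ∈ Finset.range w,
      (m j (b + i + 2) - 2 * m j (b + i + 1) + m j (b + i)) ≤ m J (b + 2 * w + 1) / w := by
    intro j hj
    rw [Heat_tele (m j) b w]
    have h1 : m j b ≤ m j (b + 1) := hmonoa j hj b (by omega)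
    have h2 : ∀ i ∈ Finset.range w, m j (b + w + 1) - m j (b + w) ≤
        m j (b + w + 1 + i + 1) - m j (b + w + 1 + i) := by
      intro i hi
      have hi' := Finset.mem_range.mp hi
      have := Heat_inc (m j) (4 * w + 1) (b + w) (hconv j hj) (i + 1) (by omega)
      have e1 : b + w + (i + 1) + 1 = b + w + 1 + i + 1 := by ring
      have e2 : b + w + (i + 1) = b + w + 1 + i := by ring
      rw [e1, e2] at this
      exact this
    have h3 := Finset.sum_le_sum h2
    rw [Heat_tele1 (m j) (b + w + 1) w, Finset.sum_const, Finset.card_range, nsmul_eq_mul] at h3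
    have e3 : b + w + 1 + w = b + 2 * w + 1 := by ring
    rw [e3] at h3
    have h4 : 0 ≤ m j (b + w + 1) := hpos j hj _ (by omega)
    have h5 : m j (b + 2 * w + 1) ≤ m J (b + 2 * w + 1) := smono _ (by omega) j hj
    rw [le_div_iff₀ hwpos]
    nlinarith
  -- sum over the window
  have s2 : (w : ℝ) * m J (b + 1) ≤ ∑ i ∈ Finset.range w, m J (b + i + 1) := by
    have : ∀ i ∈ Finset.range w, m J (b + 1) ≤ m J (b + i + 1) := by
      intro i hi
      have := samono i (Finset.mem_range.mp hi).le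
      have e : b + 1 + i = b + i + 1 := by ring
      rwa [e] at this
    have h := Finset.sum_le_sum this
    rwa [Finset.sum_const, Finset.card_range, nsmul_eq_mul] at h
  have s4 : ∑ i ∈ Finset.range w, m J (b + i + 1) ≤
      ∑ i ∈ Finset.range w, (2 + J * ι + A * ∑ k ∈ Finset.range J,
        (m (k + 1) (b + i + 2) - 2 * m (k + 1) (b + i + 1) + m (k + 1) (b + i))) := by
    apply Finset.sum_le_sum
    intro i hi
    have hi' := Finset.mem_range.mp hi
    have := s1 J le_rfl (b + i + 1) (by omega) (by omega)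
    simpa [Nat.add_sub_cancel] using this
  rw [Finset.sum_add_distrib, Finset.sum_const, Finset.card_range, nsmul_eq_mul,
    ← Finset.mul_sum, Finset.sum_comm] at s4
  have s5 : ∑ k ∈ Finset.range J, ∑ i ∈ Finset.range w,
      (m (k + 1) (b + i + 2) - 2 * m (k + 1) (b + i + 1) + m (k + 1) (b + i)) ≤
      J * (m J (b + 2 * w + 1) / w) := by
    have : ∀ k ∈ Finset.range J, ∑ i ∈ Finset.range w,
      (m (k + 1) (b + i + 2) - 2 * m (k + 1) (b + i + 1) + m (k + 1) (b + i)) ≤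
      m J (b + 2 * w + 1) / w := by
      intro k hk
      exact s3 (k + 1) (by have := Finset.mem_range.mp hk; omega)
    have h := Finset.sum_le_sum this
    rwa [Finset.sum_const, Finset.card_range, nsmul_eq_mul] at h
  have s6 := mul_le_mul_of_nonneg_left s5 hA
  have s7 : (w : ℝ) * m J (b + 1) ≤ w * (2 + J * ι) + A * (J * (m J (b + 2 * w + 1) / w)) := by
    linarith
  have s8 : (w : ℝ) * m J (b + 1) ≤
      w * ((2 + J * ι) + (A * J / w ^ 2) * m J (b + 2 * w + 1)) := by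
    refine s7.trans (le_of_eq ?_)
    field_simp
  exact le_of_mul_le_mul_left s8 hwpos

theorem heat {J w : ℕ} (hw : 1 ≤ w) (m : ℕ → ℕ → ℝ) (A ι : ℝ) (hA : 0 ≤ A) (hι : 0 ≤ ι)
    (h0 : ∀ a ≤ 4 * w + 2, m 0 a ≤ 2)
    (hpos : ∀ j ≤ J, ∀ a ≤ 4 * w + 2, 0 ≤ m j a)
    (hmono : ∀ j < J, ∀ a ≤ 4 * w + 2, m j a ≤ m (j + 1) a)
    (hmonoa : ∀ j ≤ J, ∀ a ≤ 4 * w + 1, m j a ≤ m j (a + 1))
    (hconv : ∀ j ≤ J, ∀ a, 1 ≤ a → a ≤ 4 * w + 1 →
      0 ≤ m j (a + 1) - 2 * m j a + m j (a - 1))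
    (hstep : ∀ j, 1 ≤ j → j ≤ J → ∀ a, 1 ≤ a → a ≤ 4 * w + 1 →
      m j a ≤ m (j - 1) a + A * (m j (a + 1) - 2 * m j a + m j (a - 1)) + ι) :
    m J 1 ≤ (2 + J * ι) * (1 + A * J / w ^ 2) + (A * J / w ^ 2) ^ 2 * m J (4 * w + 1) := by
  have h1 := Heat_window (b := 0) hw (by omega) m A ι hA h0 hpos hmono hmonoa hconv hstep
  have h2 := Heat_window (b := 2 * w) hw (by omega) m A ι hA h0 hpos hmono hmonoa hconv hstep
  have e1 : 0 + 2 * w + 1 = 2 * w + 1 := by ring
  have e2 : 2 * w + 2 * w + 1 = 4 * w + 1 := by ring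
  rw [e1] at h1
  rw [e2] at h2
  simp only [Nat.zero_add] at h1
  have hC : 0 ≤ A * J / (w : ℝ) ^ 2 := by positivity
  have h3 := mul_le_mul_of_nonneg_left h2 hC
  nlinarith

end H460
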