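import Pool.Agent.H460R2.Defs

/-! Module LatA: discrete subgroups of a Euclidean space -/

set_option autoImplicit false

namespace H460

variable {E : Type*} [NormedAddCommGroup E] [InnerProductSpace ℝ E] [FiniteDimensional ℝ E]


theorem Disc.mono {Γ Γ' : AddSubgroup E} (h : Disc Γ) (hle : Γ' ≤ Γ) : Disc Γ' := by
  intro R
  exact (h R).subset fun x hx => ⟨hle hx.1, hx.2⟩

theorem disc_bot : Disc (⊥ : AddSubgroup E) := by
  intro R
  refine (Set.finite_singleton (0 : E)).subset ?_
  rintro x ⟨hx, -⟩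
  exact AddSubgroup.mem_bot.mp hx

theorem rk_bot : rk (⊥ : AddSubgroup E) = 0 := by
  simp [rk]

theorem rk_eq_zero {Γ : AddSubgroup E} : rk Γ = 0 ↔ Γ = ⊥ := by
  constructor
  · intro h
    have h1 : Submodule.span ℝ (Γ : Set E) = ⊥ := Submodule.finrank_eq_zero.mp h
    rw [AddSubgroup.eq_bot_iff_forall]
    intro x hx
    have : x ∈ Submodule.span ℝ (Γ : Set E) := Submodule.subset_span hx
    rw [h1] at this
    exact (Submodule.mem_bot ℝ).mp this
  · rintro rfl
    exact rk_bot

theorem rk_mono {Γ Γ' : AddSubgroup E} (hle : Γ' ≤ Γ) : rk Γ' ≤ rk Γ :=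
  Submodule.finrank_mono (Submodule.span_mono hle)

omit [FiniteDimensional ℝ E] in
theorem LatA_discrete {Γ : AddSubgroup E} (h : Disc Γ) :
    DiscreteTopology (AddSubgroup.toIntSubmodule Γ) := by
  refine discreteTopology_of_isOpen_singleton_zero ?_
  refine isOpen_singleton_of_finite_mem_nhds 0 (s := Metric.closedBall 0 1) ?_ ?_
  · exact Metric.closedBall_mem_nhds _ (by simp)
  · refine Set.Finite.of_finite_image ?_ (Set.injOn_of_injective Subtype.val_injective)
    refine (h 1).subset ?_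
    rintro _ ⟨x, hx, rfl⟩
    refine ⟨x.2, ?_⟩
    simpa using hx

/-- a `ℤ`-basis which is linearly independent over `ℝ` -/
theorem Disc.exists_basis {Γ : AddSubgroup E} (h : Disc Γ) :
    ∃ b : Fin (rk Γ) → E, LinearIndependent ℝ b ∧ AddSubgroup.closure (Set.range b) = Γ := by
  have := LatA_discrete h
  set L : Submodule ℤ E := AddSubgroup.toIntSubmodule Γ with hL
  have hspan : Submodule.span ℤ (Γ : Set E) = L := by
    rw [hL]
    exact Submodule.span_eq (AddSubgroup.toIntSubmodule Γ)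
  have hdisc : DiscreteTopology (Submodule.span ℤ (Γ : Set E)) := by
    rw [hspan]; infer_instance
  have hrk : Module.finrank ℤ L = rk Γ := by
    have := Real.finrank_eq_int_finrank_of_discrete hdisc
    rw [Set.finrank, Set.finrank, hspan] at this
    exact this.symm
  let b₀ : Module.Basis (Fin (rk Γ)) ℤ L := Module.finBasisOfFinrankEq ℤ L hrk
  let b : Fin (rk Γ) → E := fun i => (b₀ i : E)
  have hbspan : Submodule.span ℤ (Set.range b) = L := by
    have h1 : Submodule.map L.subtype (Submodule.span ℤ (Set.range b₀)) = Submodule.map L.subtype ⊤ := by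
      rw [b₀.span_eq]
    rw [Submodule.map_span, ← Set.range_comp, Submodule.map_subtype_top] at h1
    exact h1
  have hcl : AddSubgroup.closure (Set.range b) = Γ := by
    have := congrArg Submodule.toAddSubgroup hbspan
    rw [Submodule.span_int_eq_addSubgroupClosure] at this
    simpa [hL] using this
  refine ⟨b, ?_, hcl⟩
  rw [linearIndependent_iff_card_eq_finrank_span, Fintype.card_fin, Set.finrank]
  rw [show Submodule.span ℝ (Set.range b) = Submodule.span ℝ (Γ : Set E) from ?_]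
  · rfl
  · apply le_antisymm
    · apply Submodule.span_mono
      rintro _ ⟨i, rfl⟩
      exact (b₀ i).2
    · rw [Submodule.span_le]
      intro x hx
      rw [← hcl] at hx
      refine AddSubgroup.closure_induction (p := fun x _ => x ∈ (Submodule.span ℝ (Set.range b) : Set E)) ?_ ?_ ?_ ?_ hx
      · intro x hx; exact Submodule.subset_span hx
      · exact Submodule.zero_mem _
      · intro x y _ _ hx hy; exact Submodule.add_mem _ hx hy
      · intro x _ hx; exact Submodule.neg_mem _ hx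

omit [FiniteDimensional ℝ E] in
theorem LatA_span_closure (s : Set E) :
    Submodule.span ℝ (AddSubgroup.closure s : Set E) = Submodule.span ℝ s := by
  apply le_antisymm
  · rw [Submodule.span_le]
    intro x hx
    refine AddSubgroup.closure_induction (p := fun x _ => x ∈ (Submodule.span ℝ s : Set E)) ?_ ?_ ?_ ?_ hx
    · intro x hx; exact Submodule.subset_span hx
    · exact Submodule.zero_mem _
    · intro x y _ _ hx hy; exact Submodule.add_mem _ hx hy
    · intro x _ hx; exact Submodule.neg_mem _ hx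
  · exact Submodule.span_mono AddSubgroup.subset_closure

theorem disc_closure {k : ℕ} {b : Fin k → E} (hb : LinearIndependent ℝ b) :
    Disc (AddSubgroup.closure (Set.range b)) ∧ rk (AddSubgroup.closure (Set.range b)) = k := by
  constructor
  · intro R
    let B : Module.Basis (Fin k) ℝ (Submodule.span ℝ (Set.range b)) := Module.Basis.span hb
    have hB : ∀ i, (B i : E) = b i := fun i => congrArg Subtype.val (Module.Basis.span_apply hb i)
    have hfin := ZSpan.setFinite_inter B (s := Metric.closedBall 0 R) Metric.isBounded_closedBall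
    refine (hfin.image (Subtype.val)).subset ?_
    rintro x ⟨hx, hxR⟩
    have key : ∃ y : Submodule.span ℝ (Set.range b), (y : E) = x ∧
        y ∈ Submodule.span ℤ (Set.range B) := by
      refine AddSubgroup.closure_induction (p := fun x _ => ∃ y : Submodule.span ℝ (Set.range b), (y : E) = x ∧
        y ∈ Submodule.span ℤ (Set.range B)) ?_ ?_ ?_ ?_ hx
      · rintro _ ⟨i, rfl⟩
        exact ⟨B i, hB i, Submodule.subset_span ⟨i, rfl⟩⟩
      · exact ⟨0, rfl, Submodule.zero_mem _⟩
      · rintro _ _ _ _ ⟨y, rfl, hy⟩ ⟨z, rfl, hz⟩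
        exact ⟨y + z, rfl, Submodule.add_mem _ hy hz⟩
      · rintro _ _ ⟨y, rfl, hy⟩
        exact ⟨-y, rfl, Submodule.neg_mem _ hy⟩
    obtain ⟨y, rfl, hy⟩ := key
    exact ⟨y, ⟨by simpa using hxR, hy⟩, rfl⟩
  · rw [rk, LatA_span_closure, finrank_span_eq_card hb, Fintype.card_fin]

theorem dbl_le (Γ : AddSubgroup E) : dbl Γ ≤ Γ := by
  rintro _ ⟨x, hx, rfl⟩
  exact AddSubgroup.nsmul_mem _ hx 2

omit [FiniteDimensional ℝ E] in
theorem LatA_span_eq_of_nsmul {Γ Γ' : AddSubgroup E} (hle : Γ' ≤ Γ) {N : ℕ} (hN : N ≠ 0)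
    (h : ∀ x ∈ Γ, N • x ∈ Γ') :
    Submodule.span ℝ (Γ' : Set E) = Submodule.span ℝ (Γ : Set E) := by
  apply le_antisymm (Submodule.span_mono hle)
  rw [Submodule.span_le]
  intro x hx
  have h1 : ((N : ℝ)⁻¹) • ((N : ℝ) • x) ∈ Submodule.span ℝ (Γ' : Set E) := by
    apply Submodule.smul_mem
    have := h x hx
    rw [← Nat.cast_smul_eq_nsmul ℝ] at this
    exact Submodule.subset_span this
  rwa [smul_smul, inv_mul_cancel₀ (by exact_mod_cast hN), one_smul] at h1

theorem rk_dbl (Γ : AddSubgroup E) : rk (dbl Γ) = rk Γ := by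
  rw [rk, rk, LatA_span_eq_of_nsmul (dbl_le Γ) (N := 2) (by norm_num)]
  intro x hx
  exact ⟨x, hx, rfl⟩

theorem relIndex_dbl {Γ : AddSubgroup E} (h : Disc Γ) : (dbl Γ).relIndex Γ = 2 ^ rk Γ := by
  have := LatA_discrete h
  have hspan : Submodule.span ℤ (Γ : Set E) = AddSubgroup.toIntSubmodule Γ :=
    Submodule.span_eq (AddSubgroup.toIntSubmodule Γ)
  have hdisc : DiscreteTopology (Submodule.span ℤ (Γ : Set E)) := by
    rw [hspan]; infer_instance
  have hrk : Module.finrank ℤ (AddSubgroup.toIntSubmodule Γ) = rk Γ := by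
    have := Real.finrank_eq_int_finrank_of_discrete hdisc
    rw [Set.finrank, Set.finrank, hspan] at this
    exact this.symm
  have := AddSubgroup.relIndex_map_nsmul 2 Γ
  rw [dbl, this]
  congr 1

theorem covering {Γ : AddSubgroup E} (h : Disc Γ) :
    ∃ r : ℝ, 0 ≤ r ∧ ∀ u ∈ Submodule.span ℝ (Γ : Set E), ∃ x ∈ Γ, ‖u - x‖ ≤ r := by
  obtain ⟨b, hb, hcl⟩ := h.exists_basis
  refine ⟨∑ i, ‖b i‖, Finset.sum_nonneg fun i _ => norm_nonneg _, ?_⟩
  intro u hu
  rw [← hcl, LatA_span_closure] at hu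
  obtain ⟨c, hc⟩ := (Submodule.mem_span_range_iff_exists_fun ℝ).mp hu
  refine ⟨∑ i, ⌊c i⌋ • b i, ?_, ?_⟩
  · have hbi : ∀ i, b i ∈ Γ := fun i => hcl ▸ AddSubgroup.subset_closure ⟨i, rfl⟩
    exact AddSubgroup.sum_mem _ fun i _ => AddSubgroup.zsmul_mem _ (hbi i) _
  · have : u - ∑ i, ⌊c i⌋ • b i = ∑ i, Int.fract (c i) • b i := by
      rw [← hc, ← Finset.sum_sub_distrib]
      refine Finset.sum_congr rfl fun i _ => ?_
      rw [← Int.cast_smul_eq_zsmul ℝ, ← sub_smul, Int.fract]
    rw [this]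
    refine (norm_sum_le _ _).trans (Finset.sum_le_sum fun i _ => ?_)
    rw [norm_smul, Real.norm_eq_abs, abs_of_nonneg (Int.fract_nonneg _)]
    exact mul_le_of_le_one_left (norm_nonneg _) (Int.fract_lt_one _).le

theorem relIndex_ne_zero {Γ Γ' : AddSubgroup E} (h : Disc Γ) (hle : Γ' ≤ Γ)
    (hrk : rk Γ' = rk Γ) : Γ'.relIndex Γ ≠ 0 := by
  have hspan : Submodule.span ℝ (Γ' : Set E) = Submodule.span ℝ (Γ : Set E) :=
    Submodule.eq_of_le_of_finrank_eq (Submodule.span_mono hle) hrk
  obtain ⟨r, hr, hcov⟩ := covering (h.mono hle)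
  have hfin : Finite (Γ ⧸ Γ'.addSubgroupOf Γ) := by
    have : Finite {x : E | x ∈ Γ ∧ ‖x‖ ≤ r} := (h r).to_subtype
    refine Finite.of_surjective
      (fun x : {x : E | x ∈ Γ ∧ ‖x‖ ≤ r} => (QuotientAddGroup.mk (⟨x.1, x.2.1⟩ : Γ) : Γ ⧸ Γ'.addSubgroupOf Γ)) ?_
    intro q
    induction q using QuotientAddGroup.induction_on with
    | H z =>
      obtain ⟨y, hy, hyr⟩ := hcov (z : E) (by rw [hspan]; exact Submodule.subset_span z.2)
      refine ⟨⟨(z : E) - y, Γ.sub_mem z.2 (hle hy), hyr⟩, ?_⟩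
      rw [QuotientAddGroup.eq]
      rw [AddSubgroup.mem_addSubgroupOf]
      simpa using hy
  rw [AddSubgroup.relIndex, AddSubgroup.index]
  exact Nat.card_pos.ne'

theorem rk_eq_of_relIndex {Γ Γ' : AddSubgroup E} (hle : Γ' ≤ Γ) (hi : Γ'.relIndex Γ ≠ 0) :
    rk Γ' = rk Γ := by
  rw [rk, rk, LatA_span_eq_of_nsmul hle hi]
  intro x hx
  exact AddSubgroup.nsmul_relIndex_mem _ hx

theorem disc_sup {Γ : AddSubgroup E} (h : Disc Γ) {x : E}
    (hx : x ∉ Submodule.span ℝ (Γ : Set E)) :
    Disc (Γ ⊔ AddSubgroup.zmultiples x) ∧ rk (Γ ⊔ AddSubgroup.zmultiples x) = rk Γ + 1 := by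
  obtain ⟨b, hb, hcl⟩ := h.exists_basis
  have hx' : x ∉ Submodule.span ℝ (Set.range b) := by
    rwa [← LatA_span_closure, hcl]
  have hcons : LinearIndependent ℝ (Fin.cons x b : Fin (rk Γ + 1) → E) :=
    linearIndependent_finCons.mpr ⟨hb, hx'⟩
  have hc := disc_closure hcons
  have heq : AddSubgroup.closure (Set.range (Fin.cons x b : Fin (rk Γ + 1) → E)) =
      Γ ⊔ AddSubgroup.zmultiples x := by
    rw [Fin.range_cons, Set.insert_eq, AddSubgroup.closure_union, hcl,
      ← AddSubgroup.zmultiples_eq_closure, sup_comm]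
  rw [heq] at hc
  exact hc

end H460
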