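import Pool.Agent.H460R2.EntA
import Pool.Agent.H460R2.ThC

/-! Module PStep: the PFR step for lattices -/

set_option autoImplicit false

namespace H460

variable {E : Type*} [NormedAddCommGroup E] [InnerProductSpace ℝ E] [FiniteDimensional ℝ E]

/-- the subgroup of `Γ` lying over a subgroup of `Γ/2Γ` -/
def PStep_lift (Γ : AddSubgroup E) (H : AddSubgroup (QQ Γ)) : AddSubgroup E :=
  (H.comap (QuotientAddGroup.mk' ((dbl Γ).addSubgroupOf Γ))).map Γ.subtype

theorem PStep_lift_le (Γ : AddSubgroup E) (H : AddSubgroup (QQ Γ)) : PStep_lift Γ H ≤ Γ :=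
  AddSubgroup.map_subtype_le _

theorem PStep_dbl_le (Γ : AddSubgroup E) (H : AddSubgroup (QQ Γ)) : dbl Γ ≤ PStep_lift Γ H := by
  intro x hx
  have hxΓ : x ∈ Γ := dbl_le Γ hx
  refine ⟨⟨x, hxΓ⟩, ?_, rfl⟩
  change (QuotientAddGroup.mk' ((dbl Γ).addSubgroupOf Γ)) ⟨x, hxΓ⟩ ∈ H
  have : (QuotientAddGroup.mk' ((dbl Γ).addSubgroupOf Γ)) ⟨x, hxΓ⟩ = 0 := by
    rw [QuotientAddGroup.mk'_apply, QuotientAddGroup.eq_zero_iff]
    exact hx
  rw [this]
  exact H.zero_mem

theorem PStep_relIndex (Γ : AddSubgroup E) (H : AddSubgroup (QQ Γ)) :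
    (PStep_lift Γ H).relIndex Γ = H.index := by
  have h1 : (PStep_lift Γ H).addSubgroupOf Γ =
      H.comap (QuotientAddGroup.mk' ((dbl Γ).addSubgroupOf Γ)) := by
    unfold PStep_lift
    exact AddSubgroup.comap_map_eq_self_of_injective Γ.subtype_injective _
  rw [AddSubgroup.relIndex, h1]
  exact AddSubgroup.index_comap_of_surjective _ (QuotientAddGroup.mk'_surjective _)

open Classical in
theorem PStep_mass {Γ : AddSubgroup E} (h : Disc Γ) [Fintype (QQ Γ)] {t : ℝ} (ht : 0 < t)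
    (H : AddSubgroup (QQ Γ)) (x0 : Γ) :
    ∑ c, (if c - (QuotientAddGroup.mk x0 : QQ Γ) ∈ H then fib Γ 0 t c else 0) =
      th (PStep_lift Γ H) (x0 : E) t := by
  have hs : Summable fun x : Γ => Real.exp (-t * ‖(x : E) + 0‖ ^ 2) := th_summable h 0 ht
  have hsc : ∀ c : QQ Γ, Summable fun x : Γ =>
      (if (QuotientAddGroup.mk x : QQ Γ) = c then Real.exp (-t * ‖(x : E) + 0‖ ^ 2) else 0) := by
    intro c
    refine Summable.of_nonneg_of_le (fun x => ?_) (fun x => ?_) hs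
    · split_ifs
      · exact (Real.exp_pos _).le
      · exact le_rfl
    · split_ifs
      · exact le_rfl
      · exact (Real.exp_pos _).le
  -- exchange
  have e1 : ∑ c, (if c - (QuotientAddGroup.mk x0 : QQ Γ) ∈ H then fib Γ 0 t c else 0) =
      ∑' x : Γ, (if (QuotientAddGroup.mk x : QQ Γ) - QuotientAddGroup.mk x0 ∈ H then
        Real.exp (-t * ‖(x : E) + 0‖ ^ 2) else 0) := by
    have h1 : ∀ c : QQ Γ, (if c - (QuotientAddGroup.mk x0 : QQ Γ) ∈ H then fib Γ 0 t c else 0) =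
        ∑' x : Γ, (if c - (QuotientAddGroup.mk x0 : QQ Γ) ∈ H then
          (if (QuotientAddGroup.mk x : QQ Γ) = c then Real.exp (-t * ‖(x : E) + 0‖ ^ 2) else 0)
            else 0) := by
      intro c
      by_cases hc : c - (QuotientAddGroup.mk x0 : QQ Γ) ∈ H
      · simp only [hc, if_true]; rfl
      · simp only [hc, if_false, tsum_zero]
    rw [Finset.sum_congr rfl (fun c _ => h1 c), ← Summable.tsum_finsetSum]
    · refine tsum_congr (fun x => ?_)
      rw [Finset.sum_eq_single (QuotientAddGroup.mk x : QQ Γ)]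
      · simp
      · intro b _ hb
        rw [if_neg (Ne.symm hb)]
        simp
      · intro hn; exact absurd (Finset.mem_univ _) hn
    · intro c _
      by_cases hc : c - (QuotientAddGroup.mk x0 : QQ Γ) ∈ H
      · simp only [hc, if_true]; exact hsc c
      · simp only [hc, if_false]; exact summable_zero
  rw [e1]
  -- shift by x0
  have e2 : ∑' x : Γ, (if (QuotientAddGroup.mk x : QQ Γ) - QuotientAddGroup.mk x0 ∈ H then
        Real.exp (-t * ‖(x : E) + 0‖ ^ 2) else 0) =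
      ∑' y : Γ, (if (QuotientAddGroup.mk y : QQ Γ) ∈ H then
        Real.exp (-t * ‖(y : E) + x0‖ ^ 2) else 0) := by
    rw [← (Equiv.addRight x0).tsum_eq]
    refine tsum_congr (fun y => ?_)
    have h2 : (QuotientAddGroup.mk ((Equiv.addRight x0) y) : QQ Γ) - QuotientAddGroup.mk x0 =
        QuotientAddGroup.mk y := by
      rw [Equiv.coe_addRight, QuotientAddGroup.mk_add]
      abel
    rw [h2, Equiv.coe_addRight, AddSubgroup.coe_add, add_zero]
  rw [e2]
  -- restrict to the subgroup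
  set K : AddSubgroup Γ := H.comap (QuotientAddGroup.mk' ((dbl Γ).addSubgroupOf Γ)) with hK
  have e3 : ∑' y : Γ, (if (QuotientAddGroup.mk y : QQ Γ) ∈ H then
        Real.exp (-t * ‖(y : E) + x0‖ ^ 2) else 0) =
      ∑' y : K, Real.exp (-t * ‖((y : Γ) : E) + x0‖ ^ 2) := by
    have h3 := tsum_subtype (K : Set Γ) (fun y : Γ => Real.exp (-t * ‖(y : E) + x0‖ ^ 2))
    refine Eq.trans ?_ h3.symm
    refine tsum_congr (fun y => ?_)
    rw [Set.indicator_apply]
    rfl
  rw [e3]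
  let e : K ≃+ PStep_lift Γ H := AddSubgroup.equivMapOfInjective K Γ.subtype Γ.subtype_injective
  unfold th
  rw [← e.toEquiv.tsum_eq]
  rfl

theorem PStep_log {Γ : AddSubgroup E} (a : ℤ) :
    Real.log (th Γ 0 ((2 : ℝ) ^ (-a))) = Real.log 2 * ph Γ a := by
  unfold ph
  rw [Real.logb]
  have : Real.log 2 ≠ 0 := (Real.log_pos one_lt_two).ne'
  field_simp

theorem pfr_step (hP : PFR2Statement) : ∃ C0 : ℝ, 1 ≤ C0 ∧
    ∀ (F : Type) [NormedAddCommGroup F] [InnerProductSpace ℝ F] [FiniteDimensional ℝ F]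
      (Γ : AddSubgroup F), Disc Γ → ∀ a : ℤ,
      ∃ (Γ' : AddSubgroup F) (h : ℕ), Γ' ≤ Γ ∧ dbl Γ ≤ Γ' ∧ h ≤ rk Γ ∧
        Γ'.relIndex Γ = 2 ^ (rk Γ - h) ∧
        ph Γ a - C0 * (ph Γ (a + 1) - 2 * ph Γ a + ph Γ (a - 1)) ≤ ph Γ' a ∧
        (h : ℝ) ≤ 2 * (ph Γ (a + 1) - ph Γ a) +
          C0 * (ph Γ (a + 1) - 2 * ph Γ a + ph Γ (a - 1)) := by
  classical
  obtain ⟨C, hC, hP⟩ := hP
  refine ⟨2 * C + 2, by linarith, ?_⟩
  intro F _ _ _ Γ hΓ a
  have : Finite (QQ Γ) := QQ_finite hΓ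
  let _ : Fintype (QQ Γ) := Fintype.ofFinite _
  have hl2 : 0 < Real.log 2 := Real.log_pos one_lt_two
  set t : ℝ := (2 : ℝ) ^ (-a) with htdef
  have ht : 0 < t := by positivity
  have ht1 : t / 2 = (2 : ℝ) ^ (-(a + 1)) := by
    rw [htdef, neg_add, zpow_add₀ two_ne_zero, zpow_neg_one]; ring
  have ht2 : 2 * t = (2 : ℝ) ^ (-(a - 1)) := by
    rw [htdef, neg_sub, sub_eq_add_neg, add_comm, zpow_add₀ two_ne_zero, zpow_one]; ring
  set μ : QQ Γ → ℝ := fun c => fib Γ 0 t c / th Γ 0 t with hμ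
  obtain ⟨h0, h1, hup, hlo, hmono⟩ := ent_bounds hΓ ht μ (fun c => rfl)
  rw [ht1, htdef, PStep_log, PStep_log] at hup
  rw [ht2, htdef, PStep_log, PStep_log] at hlo
  set η := ph Γ (a + 1) - 2 * ph Γ a + ph Γ (a - 1) with hη
  have hη0 : 0 ≤ η := ph_convex hΓ a
  obtain ⟨H, g, hH1, hH2⟩ := hP (QQ Γ) QQ_two μ h0 h1
  set δ := Ent (cnv μ μ) - Ent μ with hδ
  have hδ1 : δ ≤ Real.log 2 * (2 * η) := by rw [hδ, hη]; linarith
  obtain ⟨x0, rfl⟩ := QuotientAddGroup.mk_surjective g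
  -- sizes
  have hcard : Nat.card H * H.index = 2 ^ rk Γ := by
    rw [AddSubgroup.card_mul_index, QQ_card hΓ]
  obtain ⟨h, hh, hh2⟩ := (Nat.dvd_prime_pow Nat.prime_two).1 (Dvd.intro _ hcard)
  have hidx : H.index = 2 ^ (rk Γ - h) := by
    rw [hh2] at hcard
    have h3 : 2 ^ h * 2 ^ (rk Γ - h) = 2 ^ rk Γ := by
      rw [← pow_add]; congr 1; omega
    rw [← h3] at hcard
    exact Nat.eq_of_mul_eq_mul_left (by positivity) hcard
  have hCδ : C * δ ≤ Real.log 2 * (2 * C * η) := by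
    calc C * δ ≤ C * (Real.log 2 * (2 * η)) := mul_le_mul_of_nonneg_left hδ1 hC.le
      _ = Real.log 2 * (2 * C * η) := by ring
  refine ⟨PStep_lift Γ H, h, PStep_lift_le Γ H, PStep_dbl_le Γ H, hh, ?_, ?_, ?_⟩
  · rw [PStep_relIndex, hidx]
  · -- mass
    have hd' : Disc (PStep_lift Γ H) := hΓ.mono (PStep_lift_le Γ H)
    have hpos : 0 < th Γ 0 t := th_pos hΓ 0 ht
    have hpos' : 0 < th (PStep_lift Γ H) 0 t := th_pos hd' 0 ht
    have hm := PStep_mass hΓ ht H x0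
    have hm2 : ∑ x, (if x - (QuotientAddGroup.mk x0 : QQ Γ) ∈ H then μ x else 0) =
        th (PStep_lift Γ H) (x0 : F) t / th Γ 0 t := by
      rw [← hm, Finset.sum_div]
      refine Finset.sum_congr rfl (fun c _ => ?_)
      split_ifs
      · rfl
      · simp
    have hH3 : Real.exp (-(C * δ)) ≤
        ∑ x, (if x - (QuotientAddGroup.mk x0 : QQ Γ) ∈ H then μ x else 0) := by
      convert hH1 using 3
    rw [hm2] at hH3
    have h5 := hH3.trans (div_le_div_of_nonneg_right (th_shift_le hd' (x0 : F) ht) hpos.le)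
    have h6 := Real.log_le_log (Real.exp_pos _) h5
    rw [Real.log_exp, Real.log_div hpos'.ne' hpos.ne', htdef, PStep_log, PStep_log] at h6
    have h7 : Real.log 2 * (ph Γ a - (2 * C + 2) * η) ≤ Real.log 2 * ph (PStep_lift Γ H) a := by
      have : 0 ≤ Real.log 2 * (2 * η) := by positivity
      nlinarith
    exact le_of_mul_le_mul_left h7 hl2
  · have h5 : Real.log (Nat.card H) = Real.log 2 * h := by
      rw [hh2]; push_cast; rw [Real.log_pow]; ring
    rw [h5] at hH2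
    have h6 : Real.log 2 * (h : ℝ) ≤ Real.log 2 * (2 * (ph Γ (a + 1) - ph Γ a) +
        (2 * C + 2) * η) := by
      have : 0 ≤ Real.log 2 * (2 * η) := by positivity
      nlinarith
    exact le_of_mul_le_mul_left h6 hl2

end H460
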