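import Pool.Agent.H460R2.ThB

/-! Module QuoA: orthogonal quotient lattices -/

set_option autoImplicit false

namespace H460

variable {E : Type*} [NormedAddCommGroup E] [InnerProductSpace ℝ E] [FiniteDimensional ℝ E]

/-- the projection onto the orthogonal complement -/
noncomputable def QuoA_p (U : Submodule ℝ E) : E →ₗ[ℝ] E :=
  ((Uᗮ).starProjection : E →L[ℝ] E).toLinearMap

theorem QuoA_mem {Γ : AddSubgroup E} {U : Submodule ℝ E} {y : E} :
    y ∈ quo Γ U ↔ ∃ x ∈ Γ, QuoA_p U x = y := by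
  unfold quo QuoA_p
  rw [AddSubgroup.mem_map]
  rfl

theorem QuoA_sub_mem (U : Submodule ℝ E) (x : E) : x - QuoA_p U x ∈ U := by
  have h : QuoA_p U x = x - U.starProjection x := Submodule.starProjection_orthogonal_val x
  rw [h, sub_sub_cancel]
  exact Submodule.starProjection_apply_mem U x

theorem QuoA_p_mem (U : Submodule ℝ E) (x : E) : QuoA_p U x ∈ Uᗮ :=
  Submodule.starProjection_apply_mem (Uᗮ) x

theorem QuoA_p_eq_zero {U : Submodule ℝ E} {x : E} : QuoA_p U x = 0 ↔ x ∈ U := by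
  constructor
  · intro h
    have h1 := QuoA_sub_mem U x
    rwa [h, sub_zero] at h1
  · intro h
    have h0 : QuoA_p U x = x - U.starProjection x := Submodule.starProjection_orthogonal_val x
    rw [h0, Submodule.starProjection_eq_self_iff.mpr h, sub_self]

omit [FiniteDimensional ℝ E] in
theorem QuoA_mem_cut {Γ : AddSubgroup E} {U : Submodule ℝ E} {x : E} :
    x ∈ cut Γ U ↔ x ∈ Γ ∧ x ∈ U := by
  unfold cut
  rw [AddSubgroup.mem_inf]
  rfl

omit [FiniteDimensional ℝ E] in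
theorem QuoA_cut_le (Γ : AddSubgroup E) (U : Submodule ℝ E) : cut Γ U ≤ Γ :=
  fun _ h => (QuoA_mem_cut.mp h).1

/-- every element of the quotient has a lift whose component in `U` is bounded -/
theorem QuoA_lift {Γ : AddSubgroup E} (h : Disc Γ) {U : Submodule ℝ E} (hU : Sat Γ U) :
    ∃ r : ℝ, 0 ≤ r ∧ ∀ y ∈ quo Γ U, ∃ x ∈ Γ, QuoA_p U x = y ∧ ‖x - y‖ ≤ r := by
  obtain ⟨r, hr0, hr⟩ := covering (h.mono (QuoA_cut_le Γ U))
  refine ⟨r, hr0, ?_⟩
  intro y hy
  obtain ⟨x, hx, hxy⟩ := QuoA_mem.mp hy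
  have h1 : x - y ∈ Submodule.span ℝ (cut Γ U : Set E) := by
    rw [hU, ← hxy]
    exact QuoA_sub_mem U x
  obtain ⟨x', hx', hle⟩ := hr (x - y) h1
  obtain ⟨hx'1, hx'2⟩ := QuoA_mem_cut.mp hx'
  refine ⟨x - x', Γ.sub_mem hx hx'1, ?_, ?_⟩
  · rw [map_sub, QuoA_p_eq_zero.mpr hx'2, sub_zero, hxy]
  · have e : x - x' - y = x - y - x' := by abel
    rw [e]
    exact hle

theorem disc_quo {Γ : AddSubgroup E} (h : Disc Γ) {U : Submodule ℝ E} (hU : Sat Γ U) :
    Disc (quo Γ U) := by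
  obtain ⟨r, _, hr⟩ := QuoA_lift h hU
  intro R
  refine ((h (R + r)).image (QuoA_p U)).subset ?_
  rintro y ⟨hy, hyR⟩
  obtain ⟨x, hx, hxy, hle⟩ := hr y hy
  refine ⟨x, ⟨hx, ?_⟩, hxy⟩
  calc ‖x‖ = ‖y + (x - y)‖ := by congr 1; abel
    _ ≤ ‖y‖ + ‖x - y‖ := norm_add_le _ _
    _ ≤ R + r := add_le_add hyR hle

theorem rk_quo {Γ : AddSubgroup E} (h : Disc Γ) {U : Submodule ℝ E} (hU : Sat Γ U) :
    rk Γ = rk (cut Γ U) + rk (quo Γ U) := by
  have hle : U ≤ Submodule.span ℝ (Γ : Set E) := by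
    have h1 : Submodule.span ℝ (cut Γ U : Set E) ≤ Submodule.span ℝ (Γ : Set E) :=
      Submodule.span_mono (QuoA_cut_le Γ U)
    have h2 : Submodule.span ℝ (cut Γ U : Set E) = U := hU
    rwa [h2] at h1
  have hq : Submodule.span ℝ (quo Γ U : Set E) =
      (Submodule.span ℝ (Γ : Set E)).map (QuoA_p U) := by
    rw [Submodule.map_span]
    rfl
  set S := Submodule.span ℝ (Γ : Set E) with hS
  have h1 := LinearMap.finrank_range_add_finrank_ker ((QuoA_p U).domRestrict S)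
  have h2 : LinearMap.range ((QuoA_p U).domRestrict S) = S.map (QuoA_p U) :=
    LinearMap.range_domRestrict _ _
  have h3 : LinearMap.ker ((QuoA_p U).domRestrict S) = U.comap S.subtype := by
    ext x
    rw [LinearMap.mem_ker, Submodule.mem_comap]
    exact QuoA_p_eq_zero
  have h4 : Module.finrank ℝ (U.comap S.subtype) = Module.finrank ℝ U :=
    (Submodule.comapSubtypeEquivOfLe hle).finrank_eq
  rw [h2, h3, h4] at h1
  unfold rk
  rw [← hS, ← h1, hq, add_comm]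
  congr 1
  have h5 : Submodule.span ℝ (cut Γ U : Set E) = U := hU
  rw [h5]

/-- the decomposition `Γ ≃ quo × cut` given by a section -/
noncomputable def QuoA_equiv {Γ : AddSubgroup E} {U : Submodule ℝ E} (s : quo Γ U → E)
    (hs : ∀ y, s y ∈ Γ) (hp : ∀ y, QuoA_p U (s y) = y) : (quo Γ U) × (cut Γ U) ≃ Γ where
  toFun p := ⟨(p.2 : E) + s p.1, Γ.add_mem (QuoA_mem_cut.mp p.2.2).1 (hs p.1)⟩
  invFun x := (⟨QuoA_p U x, QuoA_mem.mpr ⟨x, x.2, rfl⟩⟩,
    ⟨(x : E) - s ⟨QuoA_p U x, QuoA_mem.mpr ⟨x, x.2, rfl⟩⟩, QuoA_mem_cut.mpr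
      ⟨Γ.sub_mem x.2 (hs _), QuoA_p_eq_zero.mp (by rw [map_sub, hp, sub_self])⟩⟩)
  left_inv := by
    rintro ⟨y, u⟩
    have h1 : QuoA_p U ((u : E) + s y) = y := by
      rw [map_add, hp, QuoA_p_eq_zero.mpr (QuoA_mem_cut.mp u.2).2, zero_add]
    have h2 : (⟨QuoA_p U ((u : E) + s y), QuoA_mem.mpr
        ⟨(u : E) + s y, Γ.add_mem (QuoA_mem_cut.mp u.2).1 (hs y), rfl⟩⟩ : quo Γ U) = y :=
      Subtype.ext h1
    refine Prod.ext h2 (Subtype.ext ?_)
    change (u : E) + s y - s _ = u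
    rw [h2, add_sub_cancel_right]
  right_inv := by
    intro x
    refine Subtype.ext ?_
    change (x : E) - s _ + s _ = x
    rw [sub_add_cancel]

theorem QuoA_th {Γ : AddSubgroup E} (h : Disc Γ) {U : Submodule ℝ E}
    (s : quo Γ U → E) (hs : ∀ y, s y ∈ Γ) (hp : ∀ y, QuoA_p U (s y) = y) {t : ℝ} (ht : 0 < t) :
    (Summable fun y : quo Γ U =>
      Real.exp (-t * ‖(y : E)‖ ^ 2) * th (cut Γ U) (s y - y) t) ∧
    th Γ 0 t = ∑' y : quo Γ U, Real.exp (-t * ‖(y : E)‖ ^ 2) * th (cut Γ U) (s y - y) t := by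
  have h1 : Summable fun p : (quo Γ U) × (cut Γ U) =>
      Real.exp (-t * ‖(p.2 : E) + s p.1‖ ^ 2) := by
    have h2 := (QuoA_equiv s hs hp).summable_iff.mpr (th_summable h 0 ht)
    refine h2.congr ?_
    intro p
    simp [QuoA_equiv]
  have h3 : ∀ y : quo Γ U, ∑' u : cut Γ U, Real.exp (-t * ‖(u : E) + s y‖ ^ 2) =
      Real.exp (-t * ‖(y : E)‖ ^ 2) * th (cut Γ U) (s y - y) t := by
    intro y
    have hy : (y : E) ∈ Uᗮ := by
      rw [← hp y]
      exact QuoA_p_mem U _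
    have hsy : s y - y ∈ U := by
      rw [← hp y]
      have := QuoA_sub_mem U (s y)
      rw [hp y] at this ⊢
      exact this
    rw [← th_orth (Γ := cut Γ U) (y := s y - y) (z := y) ?_ ?_]
    · unfold th
      refine tsum_congr fun u => ?_
      rw [sub_add_cancel]
    · intro x hx
      exact Submodule.inner_right_of_mem_orthogonal (QuoA_mem_cut.mp hx).2 hy
    · exact Submodule.inner_right_of_mem_orthogonal hsy hy
  refine ⟨?_, ?_⟩
  · refine h1.prod.congr ?_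
    intro y
    exact h3 y
  · calc th Γ 0 t = ∑' p : (quo Γ U) × (cut Γ U), Real.exp (-t * ‖(p.2 : E) + s p.1‖ ^ 2) := by
          unfold th
          rw [← (QuoA_equiv s hs hp).tsum_eq]
          refine tsum_congr fun p => ?_
          simp [QuoA_equiv]
      _ = ∑' y : quo Γ U, ∑' u : cut Γ U, Real.exp (-t * ‖(u : E) + s y‖ ^ 2) :=
          h1.tsum_prod
      _ = _ := tsum_congr h3

theorem th_quo_le {Γ : AddSubgroup E} (h : Disc Γ) {U : Submodule ℝ E} (hU : Sat Γ U)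
    {t : ℝ} (ht : 0 < t) : th Γ 0 t ≤ th (cut Γ U) 0 t * th (quo Γ U) 0 t := by
  obtain ⟨r, _, hr⟩ := QuoA_lift h hU
  choose s hs hp _ using fun y : quo Γ U => hr y y.2
  obtain ⟨h1, h2⟩ := QuoA_th h s hs hp ht
  have h3 : Summable fun y : quo Γ U => Real.exp (-t * ‖(y : E)‖ ^ 2) := by
    have := th_summable (disc_quo h hU) 0 ht
    simpa using this
  rw [h2]
  calc _ ≤ ∑' y : quo Γ U, Real.exp (-t * ‖(y : E)‖ ^ 2) * th (cut Γ U) 0 t := by
        refine h1.tsum_le_tsum (fun y => ?_) (h3.mul_right _)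
        exact mul_le_mul_of_nonneg_left
          (th_shift_le (h.mono (QuoA_cut_le Γ U)) _ ht) (Real.exp_pos _).le
    _ = (∑' y : quo Γ U, Real.exp (-t * ‖(y : E)‖ ^ 2)) * th (cut Γ U) 0 t := tsum_mul_right
    _ = th (cut Γ U) 0 t * th (quo Γ U) 0 t := by
        rw [mul_comm]
        congr 1
        unfold th
        refine tsum_congr fun y => ?_
        rw [add_zero]

theorem th_quo_ge {Γ : AddSubgroup E} (h : Disc Γ) {U : Submodule ℝ E} (hU : Sat Γ U) :
    ∃ r : ℝ, 0 ≤ r ∧ ∀ t : ℝ, 0 < t →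
      Real.exp (-t * r ^ 2) * (th (cut Γ U) 0 t * th (quo Γ U) 0 t) ≤ th Γ 0 t := by
  obtain ⟨r, hr0, hr⟩ := QuoA_lift h hU
  refine ⟨r, hr0, ?_⟩
  intro t ht
  choose s hs hp hle using fun y : quo Γ U => hr y y.2
  obtain ⟨h1, h2⟩ := QuoA_th h s hs hp ht
  have h3 : Summable fun y : quo Γ U => Real.exp (-t * ‖(y : E)‖ ^ 2) := by
    have := th_summable (disc_quo h hU) 0 ht
    simpa using this
  rw [h2]
  calc Real.exp (-t * r ^ 2) * (th (cut Γ U) 0 t * th (quo Γ U) 0 t)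
      = (∑' y : quo Γ U, Real.exp (-t * ‖(y : E)‖ ^ 2)) *
          (Real.exp (-t * r ^ 2) * th (cut Γ U) 0 t) := by
        have : th (quo Γ U) 0 t = ∑' y : quo Γ U, Real.exp (-t * ‖(y : E)‖ ^ 2) := by
          unfold th
          refine tsum_congr fun y => ?_
          rw [add_zero]
        rw [this]
        ring
    _ = ∑' y : quo Γ U, Real.exp (-t * ‖(y : E)‖ ^ 2) *
          (Real.exp (-t * r ^ 2) * th (cut Γ U) 0 t) := tsum_mul_right.symm
    _ ≤ _ := by
        refine (h3.mul_right _).tsum_le_tsum (fun y => ?_) h1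
        refine mul_le_mul_of_nonneg_left ?_ (Real.exp_pos _).le
        have hd := h.mono (QuoA_cut_le Γ U)
        refine le_trans ?_ (th_shift_ge hd (s y - y) ht)
        refine mul_le_mul_of_nonneg_right ?_ (th_pos hd 0 ht).le
        apply Real.exp_le_exp.mpr
        have : ‖s y - y‖ ^ 2 ≤ r ^ 2 := pow_le_pow_left₀ (norm_nonneg _) (hle y) 2
        nlinarith

end H460
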