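import Pool.Agent.H460R2.ClsA
import Pool.Agent.H460R2.PStep
import Pool.Agent.H460R2.Heat

/-! Module RMb: the main inequality for the penalised maxima -/

set_option autoImplicit false

namespace H460

variable {E : Type*} [NormedAddCommGroup E] [InnerProductSpace ℝ E] [FiniteDimensional ℝ E]


/-- penalised maximum -/
noncomputable def mm (M : AddSubgroup E) (R ρ : ℝ) (j : ℕ) (a : ℕ) : ℝ :=
  sSup ((fun Γ : AddSubgroup E => ph Γ a - (1 / 2 : ℝ) ^ j * DD ρ Γ) '' Cls M R)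

theorem mm_attained {M : AddSubgroup E} (h : Disc M) (R ρ : ℝ) (j a : ℕ) :
    ∃ Γ ∈ Cls M R, mm M R ρ j a = ph Γ a - (1 / 2 : ℝ) ^ j * DD ρ Γ := by
  have hfin : ((fun Γ : AddSubgroup E => ph Γ a - (1 / 2 : ℝ) ^ j * DD ρ Γ) '' Cls M R).Finite :=
    (cls_finite h R).image _
  have hne : ((fun Γ : AddSubgroup E => ph Γ a - (1 / 2 : ℝ) ^ j * DD ρ Γ) '' Cls M R).Nonempty :=
    ⟨_, Set.mem_image_of_mem _ (bot_mem_cls M R)⟩
  obtain ⟨Γ, hΓ, he⟩ := hne.csSup_mem hfin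
  exact ⟨Γ, hΓ, he.symm⟩

theorem le_mm {M Γ : AddSubgroup E} (h : Disc M) {R : ℝ} (ρ : ℝ) (hΓ : Γ ∈ Cls M R) (j a : ℕ) :
    ph Γ a - (1 / 2 : ℝ) ^ j * DD ρ Γ ≤ mm M R ρ j a := by
  have hfin : ((fun Γ : AddSubgroup E => ph Γ a - (1 / 2 : ℝ) ^ j * DD ρ Γ) '' Cls M R).Finite :=
    (cls_finite h R).image _
  exact le_csSup hfin.bddAbove (Set.mem_image_of_mem _ hΓ)

theorem mm_nonneg {M : AddSubgroup E} (h : Disc M) (R ρ : ℝ) (j a : ℕ) : 0 ≤ mm M R ρ j a := by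
  have h1 := le_mm h ρ (bot_mem_cls M R) j a
  rw [ph_bot, DD_bot, mul_zero, sub_zero] at h1
  exact h1

theorem mm_mono {M : AddSubgroup E} (h : Disc M) {R ρ : ℝ} (hR : 1 ≤ R)
    (hρ : Real.logb 2 R ≤ ρ) (j a : ℕ) : mm M R ρ j a ≤ mm M R ρ (j + 1) a := by
  obtain ⟨Γ, hΓ, he⟩ := mm_attained h R ρ j a
  have h1 := le_mm h ρ hΓ (j + 1) a
  have h2 := DD_nonneg h hR hρ hΓ
  have h3 : (0 : ℝ) < (1 / 2 : ℝ) ^ j := by positivity
  rw [he]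
  rw [pow_succ] at h1
  nlinarith [mul_nonneg h3.le h2]

theorem mm_mono_a {M : AddSubgroup E} (h : Disc M) (R ρ : ℝ) (j a : ℕ) :
    mm M R ρ j a ≤ mm M R ρ j (a + 1) := by
  obtain ⟨Γ, hΓ, he⟩ := mm_attained h R ρ j a
  have h1 := le_mm h ρ hΓ j (a + 1)
  have hd : Disc Γ := h.mono (cls_le hΓ)
  have h2 : ph Γ (a : ℤ) ≤ ph Γ ((a + 1 : ℕ) : ℤ) := ph_mono hd (by push_cast; omega)
  rw [he]
  linarith

theorem mm_convex {M : AddSubgroup E} (h : Disc M) (R ρ : ℝ) (j a : ℕ) (ha : 1 ≤ a) :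
    0 ≤ mm M R ρ j (a + 1) - 2 * mm M R ρ j a + mm M R ρ j (a - 1) := by
  obtain ⟨Γ, hΓ, he⟩ := mm_attained h R ρ j a
  have h1 := le_mm h ρ hΓ j (a + 1)
  have h2 := le_mm h ρ hΓ j (a - 1)
  have hd : Disc Γ := h.mono (cls_le hΓ)
  have h3 := ph_convex hd (a : ℤ)
  have e1 : ((a + 1 : ℕ) : ℤ) = (a : ℤ) + 1 := by push_cast; ring
  have e2 : ((a - 1 : ℕ) : ℤ) = (a : ℤ) - 1 := by omega
  rw [e1] at h1
  rw [e2] at h2
  rw [he]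
  linarith

/-- `j = 0`: `ph Γ a ≤ ph Γ (2 jj) ≤ jj rk + log₂ w + 2 ≤ DD ρ Γ + 2` -/
theorem mm_zero {M : AddSubgroup E} (h : Disc M) {R ρ : ℝ} (hR : 1 ≤ R) {jj : ℕ}
    (hjj : (1 / 4 : ℝ) ^ jj * (rk M * R) ^ 2 ≤ 1) (hρ : (jj : ℝ) ≤ ρ) {a : ℕ}
    (ha : a ≤ 2 * jj) : mm M R ρ 0 a ≤ 2 := by
  obtain ⟨Γ, hΓ, he⟩ := mm_attained h R ρ 0 a
  have hd : Disc Γ := h.mono (cls_le hΓ)
  have hrk : (rk Γ : ℝ) ≤ rk M := by exact_mod_cast rk_mono (cls_le hΓ)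
  have hj : (1 / 4 : ℝ) ^ jj * (rk Γ * R) ^ 2 ≤ 1 := by
    refine le_trans ?_ hjj
    gcongr
  have h1 := ph_le_w h (by linarith) hΓ hj
  have h2 : ph Γ (a : ℤ) ≤ ph Γ (2 * (jj : ℤ)) := ph_mono hd (by omega)
  rw [he, pow_zero, one_mul]
  unfold DD
  have h3 : (jj : ℝ) * rk Γ ≤ ρ * rk Γ := by gcongr
  linarith

/-- the main inequality -/
theorem mm_step {C0 : ℝ} (hC0 : 1 ≤ C0)
    (hstep : ∀ (F : Type) [NormedAddCommGroup F] [InnerProductSpace ℝ F] [FiniteDimensional ℝ F]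
      (Γ : AddSubgroup F), Disc Γ → ∀ a : ℤ,
      ∃ (Γ' : AddSubgroup F) (h : ℕ), Γ' ≤ Γ ∧ dbl Γ ≤ Γ' ∧ h ≤ rk Γ ∧
        Γ'.relIndex Γ = 2 ^ (rk Γ - h) ∧
        ph Γ a - C0 * (ph Γ (a + 1) - 2 * ph Γ a + ph Γ (a - 1)) ≤ ph Γ' a ∧
        (h : ℝ) ≤ 2 * (ph Γ (a + 1) - ph Γ a) +
          C0 * (ph Γ (a + 1) - 2 * ph Γ a + ph Γ (a - 1)))
    {F : Type} [NormedAddCommGroup F] [InnerProductSpace ℝ F] [FiniteDimensional ℝ F]
    {M : AddSubgroup F} (h : Disc M) {R ρ e θ ι : ℝ} (hR : 1 ≤ R)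
    (hρ : Real.logb 2 (2 * R) ≤ ρ) {jj : ℕ}
    (hjj : (1 / 4 : ℝ) ^ jj * (rk M * R) ^ 2 ≤ 1) (hjρ : (jj : ℝ) ≤ ρ)
    (hθ : 0 < θ) (hθ1 : θ < 1) (he : 0 < e)
    (hw : ∀ Γ : AddSubgroup F, Γ ≤ M → Real.logb 2 (w Γ) ≤ -(e * rk Γ))
    {j a : ℕ} (hj : 1 ≤ j) (ha1 : 1 ≤ a) (ha : a + 1 ≤ 2 * jj)
    (hae : (a : ℝ) / 2 + θ * jj + 2 < e)
    (hι : 0 ≤ ι) (hclean : ∀ Γ : AddSubgroup F, Γ ≤ M → ph Γ a - ι ≤ ph (sbal Γ R) a) :
    mm M R ρ j a ≤ mm M R ρ (j - 1) a +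
      (2 * C0 * ρ / θ) * (mm M R ρ j (a + 1) - 2 * mm M R ρ j a + mm M R ρ j (a - 1)) +
      ρ / θ * ι := by
  have hρ1 : 1 ≤ ρ := by
    refine le_trans ?_ hρ
    have h2 : Real.logb 2 2 ≤ Real.logb 2 (2 * R) :=
      Real.logb_le_logb_of_le (by norm_num) (by norm_num) (by linarith)
    rwa [Real.logb_self_eq_one (by norm_num)] at h2
  obtain ⟨Γ, hΓ, hmx⟩ := mm_attained h R ρ j a
  have hd : Disc Γ := h.mono (cls_le hΓ)
  have hconv := mm_convex h R ρ j a ha1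
  set ηm := mm M R ρ j (a + 1) - 2 * mm M R ρ j a + mm M R ρ j (a - 1) with hηm
  have hcoef : 0 ≤ 2 * C0 * ρ / θ := by positivity
  have hcoef2 : 0 ≤ ρ / θ := by positivity
  rcases Nat.eq_zero_or_pos (rk Γ) with hk0 | hk0
  · have hb : Γ = ⊥ := rk_eq_zero.1 hk0
    subst hb
    rw [ph_bot, DD_bot, mul_zero, sub_zero] at hmx
    have h1 := mm_nonneg h R ρ (j - 1) a
    have h2 := mul_nonneg hcoef hconv
    have h3 := mul_nonneg hcoef2 hι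
    rw [hmx]
    linarith
  · obtain ⟨Γ', k, hle, hdbl, hk, hidx, hph, hkk⟩ := hstep F Γ hd (a : ℤ)
    have hmem : sbal Γ' R ∈ Cls M R := sbal_mem_cls (hle.trans (cls_le hΓ)) R
    have hcl := hclean Γ' (hle.trans (cls_le hΓ))
    have hDD := DD_step h hR hρ hΓ hle hdbl hk hidx
    have hmax := le_mm h ρ hmem j a
    have hrk : (rk Γ : ℝ) ≤ rk M := by exact_mod_cast rk_mono (cls_le hΓ)
    have hjΓ : (1 / 4 : ℝ) ^ jj * (rk Γ * R) ^ 2 ≤ 1 := by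
      refine le_trans ?_ hjj
      gcongr
    have hwΓ := hw Γ (cls_le hΓ)
    have hslope := slope_le h (by linarith) hΓ hjΓ hk0 hθ hθ1 hwΓ ha hae
    have hcx := ph_convex hd (a : ℤ)
    set η := ph Γ ((a : ℤ) + 1) - 2 * ph Γ (a : ℤ) + ph Γ ((a : ℤ) - 1) with hη
    set τ : ℝ := (1 / 2 : ℝ) ^ j with hτ
    have hτ0 : 0 < τ := by positivity
    have hτ1 : τ ≤ 1 := pow_le_one₀ (by norm_num) (by norm_num)
    have hkr : (k : ℝ) ≤ rk Γ := by exact_mod_cast hk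
    -- step 1: the gain
    have h1 : τ * ((rk Γ : ℝ) - k) ≤ C0 * η + ι := by
      rw [hmx] at hmax
      have h2 : τ * DD ρ (sbal Γ' R) ≤ τ * (DD ρ Γ - ((rk Γ : ℝ) - k)) :=
        mul_le_mul_of_nonneg_left hDD hτ0.le
      rw [mul_sub] at h2
      linarith
    -- step 2: the slope
    have h2 : θ * rk Γ - C0 * η ≤ (rk Γ : ℝ) - k := by linarith
    have hC0η : 0 ≤ C0 * η := mul_nonneg (by linarith) hcx
    have h3 : τ * (θ * rk Γ) ≤ 2 * (C0 * η) + ι := by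
      have h4 := mul_le_mul_of_nonneg_left h2 hτ0.le
      have h5 : τ * (C0 * η) ≤ 1 * (C0 * η) := mul_le_mul_of_nonneg_right hτ1 hC0η
      rw [mul_sub] at h4
      linarith
    -- step 3: second differences
    have h4 : η ≤ ηm := by
      have h5 := le_mm h ρ hΓ j (a + 1)
      have h6 := le_mm h ρ hΓ j (a - 1)
      have e1 : ((a + 1 : ℕ) : ℤ) = (a : ℤ) + 1 := by push_cast; ring
      have e2 : ((a - 1 : ℕ) : ℤ) = (a : ℤ) - 1 := by omega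
      rw [e1] at h5
      rw [e2] at h6
      rw [hηm, hη, hmx]
      linarith
    -- step 4: comparison with j - 1
    have h5 : mm M R ρ j a ≤ mm M R ρ (j - 1) a + τ * DD ρ Γ := by
      have h6 := le_mm h ρ hΓ (j - 1) a
      have e3 : (1 / 2 : ℝ) ^ (j - 1) = 2 * τ := by
        obtain ⟨i, rfl⟩ : ∃ i, j = i + 1 := ⟨j - 1, by omega⟩
        rw [hτ, Nat.add_sub_cancel, pow_succ]
        ring
      rw [e3] at h6
      rw [hmx]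
      linarith
    have h6 : DD ρ Γ ≤ ρ * rk Γ := by
      unfold DD
      have : 0 ≤ e * rk Γ := by positivity
      linarith
    have h7 : τ * DD ρ Γ ≤ ρ / θ * (τ * (θ * rk Γ)) := by
      calc τ * DD ρ Γ ≤ τ * (ρ * rk Γ) := mul_le_mul_of_nonneg_left h6 hτ0.le
        _ = ρ / θ * (τ * (θ * rk Γ)) := by field_simp
    have h8 : ρ / θ * (τ * (θ * rk Γ)) ≤ ρ / θ * (2 * (C0 * ηm) + ι) := by
      apply mul_le_mul_of_nonneg_left _ hcoef2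
      have : C0 * η ≤ C0 * ηm := mul_le_mul_of_nonneg_left h4 (by linarith)
      linarith
    calc mm M R ρ j a ≤ mm M R ρ (j - 1) a + ρ / θ * (2 * (C0 * ηm) + ι) := by linarith
      _ = mm M R ρ (j - 1) a + 2 * C0 * ρ / θ * ηm + ρ / θ * ι := by ring

end H460
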