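import Pool.Agent.H460R2.RMb
import Pool.Agent.H460R2.RMc_x

/-! Module RMc: reverse Minkowski theorem from PFR2 (numerical assembly) -/

set_option autoImplicit false

namespace H460

variable {E : Type*} [NormedAddCommGroup E] [InnerProductSpace ℝ E] [FiniteDimensional ℝ E]

/-- removing the long vectors changes `ph` by at most one -/
theorem RMc_clean {Γ : AddSubgroup E} (h : Disc Γ) {a n : ℕ} {κ : ℝ}
    (ha : (2 : ℝ) ^ a ≤ n) (hn : κ * n + 1 ≤ (n : ℝ) ^ 3 / 2) (hrk : (rk Γ : ℝ) ≤ κ * n) :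
    ph Γ a - 1 ≤ ph (sbal Γ ((n : ℝ) ^ 2)) a := by
  have hn0 : (0 : ℝ) < n := lt_of_lt_of_le (by positivity) ha
  set t : ℝ := (2 : ℝ) ^ (-(a : ℤ)) with ht
  have ht0 : 0 < t := by positivity
  have htn : 1 / (n : ℝ) ≤ t := by
    rw [ht, zpow_neg, zpow_natCast, ← one_div]
    exact one_div_le_one_div_of_le (by positivity) ha
  have hle : sbal Γ ((n : ℝ) ^ 2) ≤ Γ := by
    unfold sbal
    rw [AddSubgroup.closure_le]
    intro x hx
    exact hx.1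
  have hs := th_sbal h (R := (n : ℝ) ^ 2) (t := t) (by positivity) ht0
  have h1 : th Γ 0 (t / 2) ≤ 2 ^ rk Γ * th Γ 0 t := by
    have h2 := th_le_two_pow h (t := t / 2) (by positivity)
    have h3 := th_anti h 0 (s := t) (t := 4 * (t / 2)) ht0 (by linarith)
    calc th Γ 0 (t / 2) ≤ 2 ^ rk Γ * th Γ 0 (4 * (t / 2)) := h2
      _ ≤ _ := by gcongr
  have hthp : 0 < th Γ 0 t := th_pos h 0 ht0
  have hexp : Real.exp (-t * ((n : ℝ) ^ 2) ^ 2 / 2) * 2 ^ rk Γ ≤ 1 / 2 := by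
    have e1 : Real.exp (-t * ((n : ℝ) ^ 2) ^ 2 / 2) ≤ (2 : ℝ) ^ (-((n : ℝ) ^ 3 / 2)) := by
      have e2 : -t * ((n : ℝ) ^ 2) ^ 2 / 2 ≤ -((n : ℝ) ^ 3 / 2) := by
        have : (n : ℝ) ^ 3 ≤ t * ((n : ℝ) ^ 2) ^ 2 := by
          calc (n : ℝ) ^ 3 = 1 / n * ((n : ℝ) ^ 2) ^ 2 := by field_simp
            _ ≤ _ := by gcongr
        linarith
      refine (Real.exp_le_exp.2 e2).trans ?_
      rw [Real.rpow_def_of_pos (by norm_num)]
      apply Real.exp_le_exp.2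
      have hl1 : Real.log 2 ≤ 1 := by
        have := Real.log_two_lt_d9
        linarith
      have : 0 ≤ (n : ℝ) ^ 3 / 2 := by positivity
      nlinarith
    have e3 : (2 : ℝ) ^ rk Γ ≤ (2 : ℝ) ^ ((n : ℝ) ^ 3 / 2 - 1) := by
      rw [← Real.rpow_natCast]
      apply Real.rpow_le_rpow_of_exponent_le (by norm_num)
      linarith
    calc Real.exp (-t * ((n : ℝ) ^ 2) ^ 2 / 2) * 2 ^ rk Γ
        ≤ (2 : ℝ) ^ (-((n : ℝ) ^ 3 / 2)) * (2 : ℝ) ^ ((n : ℝ) ^ 3 / 2 - 1) := by gcongr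
      _ = 1 / 2 := by
        rw [← Real.rpow_add (by norm_num),
          show -((n : ℝ) ^ 3 / 2) + ((n : ℝ) ^ 3 / 2 - 1) = -1 by ring, Real.rpow_neg_one]
        norm_num
  have h4 : th Γ 0 t / 2 ≤ th (sbal Γ ((n : ℝ) ^ 2)) 0 t := by
    have h5 : Real.exp (-t * ((n : ℝ) ^ 2) ^ 2 / 2) * th Γ 0 (t / 2) ≤ 1 / 2 * th Γ 0 t := by
      calc Real.exp (-t * ((n : ℝ) ^ 2) ^ 2 / 2) * th Γ 0 (t / 2)
          ≤ Real.exp (-t * ((n : ℝ) ^ 2) ^ 2 / 2) * (2 ^ rk Γ * th Γ 0 t) := by gcongr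
        _ = (Real.exp (-t * ((n : ℝ) ^ 2) ^ 2 / 2) * 2 ^ rk Γ) * th Γ 0 t := by ring
        _ ≤ 1 / 2 * th Γ 0 t := by gcongr
    linarith
  unfold ph
  rw [← ht]
  have h6 : Real.logb 2 (th Γ 0 t / 2) = Real.logb 2 (th Γ 0 t) - 1 := by
    rw [Real.logb_div hthp.ne' (by norm_num), Real.logb_self_eq_one (by norm_num)]
  rw [← h6]
  exact Real.logb_le_logb_of_le (by norm_num) (by positivity) h4

theorem rm_of_pfr2 (hP : PFR2Statement) : RMStatement := by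
  obtain ⟨C0, hC0, hstep⟩ := pfr_step hP
  intro ε₀ κ₀ b hε₀ hκ₀ hb
  set ε : ℝ := min ε₀ 1 with hεdef
  set κ : ℝ := max κ₀ 1 with hκdef
  have hε : 0 < ε := lt_min hε₀ (by norm_num)
  have hε1 : ε ≤ 1 := min_le_right _ _
  have hκ : 1 ≤ κ := le_max_right _ _
  obtain ⟨n₀, hn₀⟩ := RMc_params hε hε1 hκ hb hC0
  refine ⟨n₀, ?_⟩
  intro n hn F _ _ _ M hM hrk₀ hwM
  obtain ⟨hn2, jj, w, J, hw1, hwjj, hκjj, hρL, hae, h2n, hn3, hbn, hJ, hfin1, hfin2⟩ := hn₀ n hn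
  set L : ℝ := Real.logb 2 (n : ℝ) with hL
  have hn2' : (2 : ℝ) ≤ n := by exact_mod_cast hn2
  have hn0 : (0 : ℝ) < n := by linarith
  have hn1 : (1 : ℝ) ≤ n := by linarith
  have hL1 : 1 ≤ L := by
    rw [hL]
    rw [Real.le_logb_iff_rpow_le (by norm_num) hn0]
    simpa using hn2'
  have hrk : (rk M : ℝ) ≤ κ * n := by
    refine hrk₀.trans ?_
    gcongr
    exact le_max_left _ _
  -- the case of rank zero
  rcases Nat.eq_zero_or_pos (rk M) with hr0 | hr1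
  · have : M = ⊥ := rk_eq_zero.1 hr0
    subst this
    rw [th_bot]
    apply Real.one_le_rpow (by norm_num)
    positivity
  set ρ : ℝ := (jj : ℝ) + 1 with hρ
  set θ : ℝ := ε / 20 with hθ
  set R : ℝ := (n : ℝ) ^ 2 with hR
  have hR1 : 1 ≤ R := by rw [hR]; exact one_le_pow₀ hn1
  have hρ0 : 0 < ρ := by rw [hρ]; positivity
  have hθ0 : 0 < θ := by rw [hθ]; positivity
  have hθ1 : θ < 1 := by rw [hθ]; linarith
  have hlogR : Real.logb 2 R = 2 * L := by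
    rw [hR, Real.logb_pow]; norm_num [hL]
  have hlog2R : Real.logb 2 (2 * R) ≤ ρ := by
    rw [Real.logb_mul (by norm_num) (by positivity), hlogR,
      Real.logb_self_eq_one (by norm_num)]
    exact hρL
  have hlogRρ : Real.logb 2 R ≤ ρ := by rw [hlogR]; linarith
  have hjj : (1 / 4 : ℝ) ^ jj * (rk M * R) ^ 2 ≤ 1 := by
    have h1 : (rk M : ℝ) * R ≤ 2 ^ jj := by
      refine le_trans ?_ hκjj
      gcongr
    have h2 : ((rk M : ℝ) * R) ^ 2 ≤ 4 ^ jj := by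
      calc ((rk M : ℝ) * R) ^ 2 ≤ (2 ^ jj) ^ 2 := by gcongr
        _ = 4 ^ jj := by rw [← pow_mul, mul_comm, pow_mul]; norm_num
    calc (1 / 4 : ℝ) ^ jj * (rk M * R) ^ 2 ≤ (1 / 4 : ℝ) ^ jj * 4 ^ jj := by gcongr
      _ = 1 := by rw [← mul_pow]; norm_num
  have hjρ : (jj : ℝ) ≤ ρ := by rw [hρ]; linarith
  have hw : ∀ Γ : AddSubgroup F, Γ ≤ M → Real.logb 2 (H460.w Γ) ≤ -((ε * L) * rk Γ) := by
    intro Γ hΓ
    have h1 := hwM Γ hΓ
    have h2 := w_pos (hM.mono hΓ)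
    have h3 : Real.logb 2 (H460.w Γ) ≤ Real.logb 2 ((n : ℝ) ^ (-(ε₀ * rk Γ))) :=
      Real.logb_le_logb_of_le (by norm_num) h2 h1
    rw [Real.logb_rpow_eq_mul_logb_of_pos hn0, ← hL] at h3
    have h4 : ε * L * rk Γ ≤ ε₀ * L * rk Γ := by
      gcongr
      exact min_le_left _ _
    nlinarith
  have he : 0 < ε * L := by positivity
  have hA0 : 0 ≤ 2 * C0 * ρ / θ := by positivity
  have hrkle : ∀ Γ : AddSubgroup F, Γ ≤ M → (rk Γ : ℝ) ≤ κ * n := by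
    intro Γ hΓ
    have : (rk Γ : ℝ) ≤ rk M := by exact_mod_cast rk_mono hΓ
    linarith
  have h2a : ∀ a : ℕ, a ≤ 4 * w + 1 → (2 : ℝ) ^ a ≤ n := by
    intro a ha
    refine le_trans ?_ h2n
    exact pow_le_pow_right₀ (by norm_num) ha
  have hclean : ∀ a : ℕ, a ≤ 4 * w + 1 → ∀ Γ : AddSubgroup F, Γ ≤ M →
      ph Γ a - 1 ≤ ph (sbal Γ R) a := by
    intro a ha Γ hΓ
    exact RMc_clean (hM.mono hΓ) (h2a a ha) hn3 (hrkle Γ hΓ)
  have hheat := heat (J := J) hw1 (fun j a => mm M R ρ j a) (2 * C0 * ρ / θ) (ρ / θ * 1) hA0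
    (by positivity)
    (fun a ha => mm_zero hM hR1 hjj hjρ (by omega))
    (fun j _ a _ => mm_nonneg hM R ρ j a)
    (fun j _ a _ => mm_mono hM hR1 hlogRρ j a)
    (fun j _ a _ => mm_mono_a hM R ρ j a)
    (fun j _ a ha _ => mm_convex hM R ρ j a ha)
    (fun j hj _ a ha1 ha => mm_step hC0 hstep hM hR1 hlog2R hjj hjρ hθ0 hθ1 he hw hj ha1
      (by omega)
      (by
        have : (a : ℝ) ≤ 4 * w + 1 := by exact_mod_cast ha
        refine lt_of_le_of_lt ?_ hae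
        gcongr)
      (by norm_num) (hclean a ha))
  -- upper bound for the last value
  have hup : mm M R ρ J (4 * w + 1) ≤
      κ * n * (((4 * w + 1 : ℝ) + Real.logb 2 (κ * n)) / 2 + 4) + 1 := by
    obtain ⟨Γ, hΓ, hΓe⟩ := mm_attained hM R ρ J (4 * w + 1)
    have hD : 0 ≤ DD ρ Γ := DD_nonneg hM hR1 hlogRρ hΓ
    have h1 : mm M R ρ J (4 * w + 1) ≤ ph Γ ((4 * w + 1 : ℕ) : ℤ) := by
      rw [hΓe]
      have : 0 ≤ (1 / 2 : ℝ) ^ J * DD ρ Γ := by positivity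
      linarith
    have h2 : ph Γ ((4 * w + 1 : ℕ) : ℤ) ≤ ph M ((4 * w + 1 : ℕ) : ℤ) :=
      ph_le_of_le hM (cls_le hΓ) _
    have hnorm : ∀ x ∈ M, x ≠ 0 → 1 ≤ ‖x‖ := by
      intro x hx hx0
      obtain ⟨h1, h2, h3⟩ := w_line hx0
      have hle : AddSubgroup.zmultiples x ≤ M := by
        rw [AddSubgroup.zmultiples_le]; exact hx
      have h4 := hwM _ hle
      rw [h3, h2] at h4
      have h5 : (n : ℝ) ^ (-(ε₀ * ((1 : ℕ) : ℝ))) ≤ 1 := by
        apply Real.rpow_le_one_of_one_le_of_nonpos hn1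
        push_cast
        linarith
      have hx0' : 0 < ‖x‖ := norm_pos_iff.2 hx0
      have h6 : Real.sqrt Real.pi / ‖x‖ ≤ 1 := h4.trans h5
      rw [div_le_one hx0'] at h6
      refine le_trans ?_ h6
      rw [Real.one_le_sqrt]
      linarith [Real.pi_gt_three]
    have h3 := ph_apriori hM hnorm hr1 (4 * w + 1)
    refine h1.trans (h2.trans (h3.trans ?_))
    have hrk1 : (1 : ℝ) ≤ rk M := by exact_mod_cast hr1
    have h4 : Real.logb 2 (rk M) ≤ Real.logb 2 (κ * n) :=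
      Real.logb_le_logb_of_le (by norm_num) (by linarith) hrk
    have h5 : 0 ≤ Real.logb 2 (rk M) := Real.logb_nonneg (by norm_num) hrk1
    push_cast
    gcongr
  -- lower bound
  have hsb : sbal M R ∈ Cls M R := sbal_mem_cls le_rfl R
  have hsle : sbal M R ≤ M := cls_le hsb
  have hlow := le_mm hM ρ hsb J 1
  have hDle : DD ρ (sbal M R) ≤ ρ * (κ * n) := by
    unfold DD
    have h1 := hw _ hsle
    have h2 : 0 ≤ ε * L * rk (sbal M R) := by positivity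
    have h3 : ρ * rk (sbal M R) ≤ ρ * (κ * n) := by
      gcongr
      exact hrkle _ hsle
    linarith
  have hDle2 : (1 / 2 : ℝ) ^ J * DD ρ (sbal M R) ≤ b * n / 4 := by
    refine le_trans ?_ hJ
    gcongr
  have hcl := hclean 1 (by omega) M le_rfl
  have hph01 : ph M 0 ≤ ph M ((1 : ℕ) : ℤ) := ph_mono hM (by norm_num)
  -- bound of mm J 1
  have hpart1 : (2 + J * (ρ / θ * 1)) * (1 + 2 * C0 * ρ / θ * J / w ^ 2) ≤ b * n / 4 := hfin1
  have hpart2 : (2 * C0 * ρ / θ * J / w ^ 2) ^ 2 * mm M R ρ J (4 * w + 1) ≤ b * n / 4 := by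
    refine le_trans ?_ hfin2
    gcongr
  have hmm : mm M R ρ J 1 ≤ b * n / 4 + b * n / 4 := hheat.trans (add_le_add hpart1 hpart2)
  have hcl' : ph M 1 - 1 ≤ ph (sbal M R) 1 := hcl
  have hph01' : ph M 0 ≤ ph M 1 := hph01
  have hlow' : ph (sbal M R) 1 - (1 / 2 : ℝ) ^ J * DD ρ (sbal M R) ≤ mm M R ρ J 1 := hlow
  have hfinal : ph M 0 ≤ b * n := by
    clear hcl hph01 hlow
    linarith
  unfold ph at hfinal
  have hth : 0 < th M 0 1 := th_pos hM 0 (by norm_num)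
  simp only [neg_zero, zpow_zero] at hfinal
  rw [Real.logb_le_iff_le_rpow (by norm_num) hth] at hfinal
  exact hfinal

end H460
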