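import Pool.Agent.H460R2.Defs

/-! Module ThA: theta functions, elementary facts (may import LatA if needed) -/

set_option autoImplicit false

namespace H460

variable {E : Type*} [NormedAddCommGroup E] [InnerProductSpace ℝ E] [FiniteDimensional ℝ E]

theorem ThA_discrete {Γ : AddSubgroup E} (h : Disc Γ) : DiscreteTopology Γ := by
  rw [discreteTopology_iff_isOpen_singleton]
  intro x
  set B : Set Γ := Metric.ball x 1 with hB
  have hfin : B.Finite := by
    have h1 := h (‖(x : E)‖ + 1)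
    have h2 : (Subtype.val ⁻¹' {z : E | z ∈ Γ ∧ ‖z‖ ≤ ‖(x : E)‖ + 1} : Set Γ).Finite :=
      h1.preimage Subtype.val_injective.injOn
    refine h2.subset ?_
    intro z hz
    refine ⟨z.2, ?_⟩
    have hz1 : dist z x < 1 := hz
    rw [Subtype.dist_eq, dist_eq_norm] at hz1
    have h3 : ‖(z : E)‖ ≤ ‖(x : E)‖ + ‖(z : E) - x‖ := by
      calc ‖(z : E)‖ = ‖(x : E) + ((z : E) - x)‖ := by congr 1; abel
        _ ≤ _ := norm_add_le _ _
    linarith
  have hcl : IsClosed (B \ {x}) := (hfin.subset Set.sdiff_subset).isClosed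
  have hx : ({x} : Set Γ) = B ∩ (B \ {x})ᶜ := by
    ext z
    constructor
    · rintro rfl
      exact ⟨Metric.mem_ball_self one_pos, fun hz => hz.2 rfl⟩
    · rintro ⟨hz1, hz2⟩
      by_contra hne
      exact hz2 ⟨hz1, hne⟩
  rw [hx]
  exact Metric.isOpen_ball.inter hcl.isOpen_compl

theorem ThA_exp_le (n : ℕ) {t : ℝ} (ht : 0 < t) :
    ∃ C : ℝ, 0 ≤ C ∧ ∀ r : ℝ, 1 ≤ r → Real.exp (-t * r ^ 2) ≤ C * (r⁻¹) ^ n := by
  refine ⟨(n.factorial : ℝ) / t ^ n, by positivity, fun r hr => ?_⟩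
  have hr0 : 0 < r := by linarith
  have h1 : t ^ n * r ^ n / n.factorial ≤ Real.exp (t * r) := by
    rw [← mul_pow]; exact Real.pow_div_factorial_le_exp _ (by positivity) n
  have h2 : Real.exp (t * r) ≤ Real.exp (t * r ^ 2) := by
    apply Real.exp_le_exp.2
    nlinarith [mul_nonneg ht.le (mul_nonneg hr0.le (sub_nonneg.2 hr))]
  have h3 : Real.exp (-t * r ^ 2) = (Real.exp (t * r ^ 2))⁻¹ := by
    rw [← Real.exp_neg]; congr 1; ring
  rw [h3]
  have h4 : t ^ n * r ^ n / n.factorial ≤ Real.exp (t * r ^ 2) := h1.trans h2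
  have hpos : 0 < t ^ n * r ^ n / n.factorial := by positivity
  calc (Real.exp (t * r ^ 2))⁻¹ ≤ (t ^ n * r ^ n / n.factorial)⁻¹ :=
        inv_anti₀ hpos h4
    _ = (n.factorial : ℝ) / t ^ n * (r⁻¹) ^ n := by
        rw [inv_div, inv_pow]; field_simp

theorem th_summable {Γ : AddSubgroup E} (h : Disc Γ) (y : E) {t : ℝ} (ht : 0 < t) :
    Summable fun x : Γ => Real.exp (-t * ‖(x : E) + y‖ ^ 2) := by
  have hd : DiscreteTopology (AddSubgroup.toIntSubmodule Γ) := ThA_discrete h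
  set n : ℕ := Module.finrank ℤ (AddSubgroup.toIntSubmodule Γ) + 1 with hn
  have hs := ZLattice.summable_norm_sub_inv_pow (AddSubgroup.toIntSubmodule Γ) n (by omega) (-y)
  obtain ⟨C, hC, hCr⟩ := ThA_exp_le n ht
  have hs1 : Summable fun x : (AddSubgroup.toIntSubmodule Γ) => C * ‖(x : E) + y‖⁻¹ ^ n := by
    have := hs.mul_left C
    simpa only [sub_neg_eq_add] using this
  have hs' : Summable fun x : Γ => C * ‖(x : E) + y‖⁻¹ ^ n := hs1
  refine Summable.of_norm_bounded_eventually hs' ?_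
  have hfin : {x : Γ | ‖(x : E) + y‖ < 1}.Finite := by
    have h2 : (Subtype.val ⁻¹' {z : E | z ∈ Γ ∧ ‖z‖ ≤ ‖y‖ + 1} : Set Γ).Finite :=
      (h (‖y‖ + 1)).preimage Subtype.val_injective.injOn
    refine h2.subset ?_
    intro z hz
    refine ⟨z.2, ?_⟩
    have hz1 : ‖(z : E) + y‖ < 1 := hz
    have h3 : ‖(z : E)‖ ≤ ‖(z : E) + y‖ + ‖y‖ := by
      calc ‖(z : E)‖ = ‖((z : E) + y) - y‖ := by congr 1; abel
        _ ≤ _ := norm_sub_le _ _
    linarith
  filter_upwards [hfin.compl_mem_cofinite] with x hx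
  have hx1 : 1 ≤ ‖(x : E) + y‖ := not_lt.1 hx
  rw [Real.norm_eq_abs, abs_of_pos (Real.exp_pos _)]
  exact hCr _ hx1

theorem ThA_nonneg (Γ : AddSubgroup E) (y : E) (t : ℝ) : 0 ≤ th Γ y t :=
  tsum_nonneg fun _ => (Real.exp_pos _).le

theorem one_le_th {Γ : AddSubgroup E} (h : Disc Γ) {t : ℝ} (ht : 0 < t) : 1 ≤ th Γ 0 t := by
  have h1 := (th_summable h 0 ht).le_tsum (0 : Γ) (fun _ _ => (Real.exp_pos _).le)
  simpa [th] using h1

theorem th_pos {Γ : AddSubgroup E} (h : Disc Γ) (y : E) {t : ℝ} (ht : 0 < t) : 0 < th Γ y t := by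
  have h1 := (th_summable h y ht).le_tsum (0 : Γ) (fun _ _ => (Real.exp_pos _).le)
  exact (Real.exp_pos _).trans_le h1

theorem th_bot (t : ℝ) : th (⊥ : AddSubgroup E) 0 t = 1 := by
  unfold th
  rw [tsum_eq_single (0 : (⊥ : AddSubgroup E)) (fun b hb => (hb (Subsingleton.elim _ _)).elim)]
  simp

theorem ThA_comp {Γ Γ' : AddSubgroup E} (hle : Γ' ≤ Γ) (f : E → ℝ) (hf : ∀ x, 0 ≤ f x)
    (hs : Summable fun x : Γ => f x) : ∑' x : Γ', f x ≤ ∑' x : Γ, f x := by
  have hinj : Function.Injective (fun x : Γ' => (⟨x.1, hle x.2⟩ : Γ)) := by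
    intro a b hab
    have h1 : (a : E) = (b : E) := congrArg (fun z : Γ => (z : E)) hab
    exact Subtype.ext h1
  have hs' : Summable fun x : Γ' => f x := hs.comp_injective hinj
  exact Summable.tsum_le_tsum_of_inj (fun x : Γ' => (⟨x.1, hle x.2⟩ : Γ)) hinj
    (fun x _ => hf x) (fun x => le_refl (f x)) hs' hs

theorem th_mono {Γ Γ' : AddSubgroup E} (h : Disc Γ) (hle : Γ' ≤ Γ) (y : E) {t : ℝ} (ht : 0 < t) :
    th Γ' y t ≤ th Γ y t := by
  have hs := th_summable h y ht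
  have h1 := ThA_comp hle (fun x => Real.exp (-t * ‖x + y‖ ^ 2)) (fun _ => (Real.exp_pos _).le) hs
  exact h1

theorem th_anti {Γ : AddSubgroup E} (h : Disc Γ) (y : E) {s t : ℝ} (hs : 0 < s) (hst : s ≤ t) :
    th Γ y t ≤ th Γ y s := by
  refine Summable.tsum_le_tsum (fun x => ?_) (th_summable h y (hs.trans_le hst))
    (th_summable h y hs)
  apply Real.exp_le_exp.2
  nlinarith [sq_nonneg ‖(x : E) + y‖]

theorem th_neg {Γ : AddSubgroup E} (y : E) (t : ℝ) : th Γ (-y) t = th Γ y t := by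
  unfold th
  rw [← (Equiv.neg Γ).tsum_eq]
  refine tsum_congr fun x => ?_
  have : ‖((Equiv.neg Γ x : Γ) : E) + -y‖ = ‖(x : E) + y‖ := by
    rw [← norm_neg]; congr 1; simp; abel
  rw [this]

/-- symmetrise `x ↦ -x` and use `cosh ≥ 1` -/
theorem th_shift_ge {Γ : AddSubgroup E} (h : Disc Γ) (y : E) {t : ℝ} (ht : 0 < t) :
    Real.exp (-t * ‖y‖ ^ 2) * th Γ 0 t ≤ th Γ y t := by
  have hs1 := th_summable h y ht
  have hs2 := th_summable h (-y) ht
  have hs0 := th_summable h 0 ht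
  have h2 : 2 * th Γ y t = ∑' x : Γ, (Real.exp (-t * ‖(x : E) + y‖ ^ 2) +
      Real.exp (-t * ‖(x : E) + -y‖ ^ 2)) := by
    rw [hs1.tsum_add hs2]
    have := th_neg (Γ := Γ) y t
    unfold th at this ⊢
    rw [this]; ring
  have h3 : 2 * (Real.exp (-t * ‖y‖ ^ 2) * th Γ 0 t) =
      ∑' x : Γ, 2 * (Real.exp (-t * ‖y‖ ^ 2) * Real.exp (-t * ‖(x : E) + 0‖ ^ 2)) := by
    rw [tsum_mul_left, tsum_mul_left]; rfl
  have h4 : 2 * (Real.exp (-t * ‖y‖ ^ 2) * th Γ 0 t) ≤ 2 * th Γ y t := by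
    rw [h2, h3]
    refine Summable.tsum_le_tsum (fun x => ?_) ((hs0.mul_left _).mul_left _) (hs1.add hs2)
    have hpar : ‖(x : E) + y‖ ^ 2 + ‖(x : E) + -y‖ ^ 2 = 2 * (‖(x : E)‖ ^ 2 + ‖y‖ ^ 2) := by
      have := parallelogram_law_with_norm ℝ (x : E) y
      rw [← sub_eq_add_neg]
      nlinarith [this]
    set a := Real.exp (-t * ‖(x : E) + y‖ ^ 2 / 2) with ha
    set b := Real.exp (-t * ‖(x : E) + -y‖ ^ 2 / 2) with hb
    have e1 : Real.exp (-t * ‖(x : E) + y‖ ^ 2) = a ^ 2 := by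
      rw [ha, ← Real.exp_nat_mul]; congr 1; push_cast; ring
    have e2 : Real.exp (-t * ‖(x : E) + -y‖ ^ 2) = b ^ 2 := by
      rw [hb, ← Real.exp_nat_mul]; congr 1; push_cast; ring
    have e3 : Real.exp (-t * ‖y‖ ^ 2) * Real.exp (-t * ‖(x : E) + 0‖ ^ 2) = a * b := by
      rw [ha, hb, ← Real.exp_add, ← Real.exp_add, add_zero]; congr 1
      linear_combination (t / 2) * hpar
    rw [e1, e2, e3]
    nlinarith [sq_nonneg (a - b)]
  linarith

theorem th_translate {Γ : AddSubgroup E} (h : Disc Γ) {x : E} (hx : x ∈ Γ) (y : E) (t : ℝ) :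
    th Γ (x + y) t = th Γ y t := by
  unfold th
  rw [← (Equiv.addRight (⟨x, hx⟩ : Γ)).tsum_eq (fun z : Γ => Real.exp (-t * ‖(z : E) + y‖ ^ 2))]
  refine tsum_congr fun z => ?_
  simp [add_assoc]

theorem th_orth {Γ : AddSubgroup E} {y z : E} (hz : ∀ x ∈ Γ, inner ℝ x z = 0)
    (hyz : inner ℝ y z = 0) {t : ℝ} :
    th Γ (y + z) t = Real.exp (-t * ‖z‖ ^ 2) * th Γ y t := by
  unfold th
  rw [← tsum_mul_left]
  refine tsum_congr fun x => ?_
  have h1 : inner ℝ ((x : E) + y) z = 0 := by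
    rw [inner_add_left, hz x x.2, hyz, add_zero]
  have h2 : ‖(x : E) + (y + z)‖ ^ 2 = ‖(x : E) + y‖ ^ 2 + ‖z‖ ^ 2 := by
    rw [← add_assoc, norm_add_sq_real, h1]; ring
  rw [h2, ← Real.exp_add]; congr 1; ring

theorem card_le_th {Γ : AddSubgroup E} (h : Disc Γ) {t ρ : ℝ} (ht : 0 < t) {S : Finset E}
    (hS : ∀ x ∈ S, x ∈ Γ ∧ ‖x‖ ^ 2 ≤ ρ) : (S.card : ℝ) ≤ Real.exp (t * ρ) * th Γ 0 t := by
  classical
  set S' : Finset Γ := S.subtype (· ∈ Γ) with hS'
  have hcard : S'.card = S.card := by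
    rw [hS', Finset.card_subtype, Finset.filter_true_of_mem fun x hx => (hS x hx).1]
  have h1 : ∑ x ∈ S', Real.exp (-t * ‖(x : E) + 0‖ ^ 2) ≤ th Γ 0 t :=
    (th_summable h 0 ht).sum_le_tsum S' (fun _ _ => (Real.exp_pos _).le)
  have h2 : (S'.card : ℝ) * Real.exp (-(t * ρ)) ≤ ∑ x ∈ S', Real.exp (-t * ‖(x : E) + 0‖ ^ 2) := by
    rw [← nsmul_eq_mul]
    apply Finset.card_nsmul_le_sum
    intro x hx
    have hx' : (x : E) ∈ S := by
      rw [hS', Finset.mem_subtype] at hx; exact hx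
    apply Real.exp_le_exp.2
    rw [add_zero]
    nlinarith [(hS x hx').2]
  have h3 : (S.card : ℝ) * Real.exp (-(t * ρ)) ≤ th Γ 0 t := by
    rw [← hcard]; exact h2.trans h1
  calc (S.card : ℝ) = Real.exp (t * ρ) * ((S.card : ℝ) * Real.exp (-(t * ρ))) := by
        rw [mul_comm (S.card : ℝ), ← mul_assoc, ← Real.exp_add]; simp
    _ ≤ _ := mul_le_mul_of_nonneg_left h3 (Real.exp_pos _).le

theorem disc_scl {Γ : AddSubgroup E} (h : Disc Γ) {c : ℝ} (hc : c ≠ 0) :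
    Disc (scl c Γ) ∧ rk (scl c Γ) = rk Γ := by
  have hmem : ∀ z, z ∈ scl c Γ ↔ ∃ x ∈ Γ, c • x = z := by
    intro z
    unfold scl
    rw [AddSubgroup.mem_map]
    rfl
  constructor
  · intro R
    have h1 := (h (R / |c|)).image (fun x => c • x)
    refine h1.subset ?_
    rintro z ⟨hz, hzR⟩
    obtain ⟨x, hx, rfl⟩ := (hmem z).1 hz
    refine ⟨x, ⟨hx, ?_⟩, rfl⟩
    rw [norm_smul, Real.norm_eq_abs] at hzR
    rw [le_div_iff₀ (abs_pos.2 hc)]
    linarith
  · unfold rk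
    have : Submodule.span ℝ ((scl c Γ : AddSubgroup E) : Set E) =
        Submodule.span ℝ (Γ : Set E) := by
      apply le_antisymm
      · rw [Submodule.span_le]
        intro z hz
        obtain ⟨x, hx, rfl⟩ := (hmem z).1 hz
        exact Submodule.smul_mem _ _ (Submodule.subset_span hx)
      · rw [Submodule.span_le]
        intro x hx
        have : x = c⁻¹ • (c • x) := by rw [smul_smul, inv_mul_cancel₀ hc, one_smul]
        rw [this]
        exact Submodule.smul_mem _ _ (Submodule.subset_span ((hmem _).2 ⟨x, hx, rfl⟩))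
    rw [this]

theorem th_scl {Γ : AddSubgroup E} {c : ℝ} (hc : c ≠ 0) (t : ℝ) :
    th (scl c Γ) 0 t = th Γ 0 (t * c ^ 2) := by
  have hinj : Function.Injective (LinearMap.lsmul ℝ E c).toAddMonoidHom := by
    intro x y hxy
    have h1 : c • x = c • y := hxy
    exact smul_right_injective E hc h1
  unfold th scl
  rw [← (Γ.equivMapOfInjective _ hinj).toEquiv.tsum_eq]
  refine tsum_congr fun x => ?_
  have e : (((Γ.equivMapOfInjective _ hinj).toEquiv x : Γ.map _) : E) = c • (x : E) := rfl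
  rw [e, add_zero, add_zero, norm_smul, Real.norm_eq_abs, mul_pow, sq_abs]
  congr 1; ring

theorem th_map_le {F : Type*} [NormedAddCommGroup F] [InnerProductSpace ℝ F]
    [FiniteDimensional ℝ F] {Γ : AddSubgroup E} (f : E →ₗ[ℝ] F)
    (hinj : Set.InjOn f (Γ : Set E)) (hf : ∀ x ∈ Γ, ‖f x‖ ≤ ‖x‖)
    (h' : Disc (Γ.map f.toAddMonoidHom)) {t : ℝ} (ht : 0 < t) :
    th Γ 0 t ≤ th (Γ.map f.toAddMonoidHom) 0 t := by
  set e : Γ → Γ.map f.toAddMonoidHom := fun x => ⟨f x, AddSubgroup.mem_map_of_mem _ x.2⟩ with he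
  have heinj : Function.Injective e := by
    intro x y hxy
    have h1 : f x = f y := congrArg Subtype.val hxy
    exact Subtype.ext (hinj x.2 y.2 h1)
  have hs := th_summable h' 0 ht
  have hle : ∀ x : Γ, Real.exp (-t * ‖(x : E) + 0‖ ^ 2) ≤
      Real.exp (-t * ‖((e x : Γ.map f.toAddMonoidHom) : F) + 0‖ ^ 2) := by
    intro x
    apply Real.exp_le_exp.2
    rw [add_zero, add_zero]
    have h1 : ‖((e x : Γ.map f.toAddMonoidHom) : F)‖ ≤ ‖(x : E)‖ := hf x x.2
    have h2 : ‖((e x : Γ.map f.toAddMonoidHom) : F)‖ ^ 2 ≤ ‖(x : E)‖ ^ 2 :=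
      pow_le_pow_left₀ (norm_nonneg _) h1 2
    nlinarith
  have hs' : Summable fun x : Γ => Real.exp (-t * ‖(x : E) + 0‖ ^ 2) :=
    Summable.of_nonneg_of_le (fun _ => (Real.exp_pos _).le) hle (hs.comp_injective heinj)
  exact Summable.tsum_le_tsum_of_inj e heinj (fun _ _ => (Real.exp_pos _).le) hle hs' hs

/-- only vectors of norm at most `R` matter -/
theorem th_sbal {Γ : AddSubgroup E} (h : Disc Γ) {R t : ℝ} (hR : 0 ≤ R) (ht : 0 < t) :
    th Γ 0 t - Real.exp (-t * R ^ 2 / 2) * th Γ 0 (t / 2) ≤ th (sbal Γ R) 0 t := by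
  classical
  have hle : sbal Γ R ≤ Γ := by
    unfold sbal
    rw [AddSubgroup.closure_le]
    intro x hx; exact hx.1
  have hdis : Disc (sbal Γ R) := fun r =>
    (h r).subset fun x hx => ⟨hle hx.1, hx.2⟩
  set s : Set Γ := {x | (x : E) ∈ sbal Γ R} with hs
  set g : Γ → ℝ := fun x => Real.exp (-t * ‖(x : E) + 0‖ ^ 2) with hg
  have hgs : Summable g := th_summable h 0 ht
  have hgs2 := th_summable h 0 (half_pos ht)
  have hpt : ∀ x : Γ, g x ≤ s.indicator g x +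
      Real.exp (-t * R ^ 2 / 2) * Real.exp (-(t / 2) * ‖(x : E) + 0‖ ^ 2) := by
    intro x
    by_cases hx : ‖(x : E)‖ ≤ R
    · have hxs : x ∈ s := AddSubgroup.subset_closure ⟨x.2, hx⟩
      rw [Set.indicator_of_mem hxs]
      have : 0 < Real.exp (-t * R ^ 2 / 2) * Real.exp (-(t / 2) * ‖(x : E) + 0‖ ^ 2) := by
        positivity
      linarith
    · have h1 : 0 ≤ s.indicator g x := Set.indicator_nonneg (fun _ _ => (Real.exp_pos _).le) _
      have h2 : g x ≤ Real.exp (-t * R ^ 2 / 2) * Real.exp (-(t / 2) * ‖(x : E) + 0‖ ^ 2) := by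
        rw [hg, ← Real.exp_add]
        apply Real.exp_le_exp.2
        rw [add_zero]
        have h3 : R ^ 2 ≤ ‖(x : E)‖ ^ 2 := pow_le_pow_left₀ hR (not_le.1 hx).le 2
        nlinarith
      linarith
  have hsum1 : Summable (s.indicator g) := hgs.indicator s
  have hsum2 : Summable fun x : Γ => Real.exp (-t * R ^ 2 / 2) *
      Real.exp (-(t / 2) * ‖(x : E) + 0‖ ^ 2) := hgs2.mul_left _
  have h1 : th Γ 0 t ≤ ∑' x, s.indicator g x + Real.exp (-t * R ^ 2 / 2) * th Γ 0 (t / 2) := by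
    have := Summable.tsum_le_tsum hpt hgs (hsum1.add hsum2)
    rw [hsum1.tsum_add hsum2, tsum_mul_left] at this
    exact this
  have h2 : ∑' x, s.indicator g x ≤ th (sbal Γ R) 0 t := by
    rw [← tsum_subtype s g]
    set e : s → sbal Γ R := fun x => ⟨((x : Γ) : E), x.2⟩ with he
    have heinj : Function.Injective e := by
      intro x y hxy
      have h3 : ((x : Γ) : E) = ((y : Γ) : E) := congrArg (fun z : sbal Γ R => (z : E)) hxy
      exact Subtype.ext (Subtype.ext h3)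
    exact Summable.tsum_le_tsum_of_inj e heinj (fun _ _ => (Real.exp_pos _).le)
      (fun _ => le_rfl) (hgs.comp_injective Subtype.val_injective) (th_summable hdis 0 ht)
  linarith

end H460
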