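import Pool.Agent.H460R2.ThC

/-! Module WA: the normalised inverse covolume -/

set_option autoImplicit false

namespace H460

variable {E : Type*} [NormedAddCommGroup E] [InnerProductSpace ℝ E] [FiniteDimensional ℝ E]

theorem WA_quarter_pos (j : ℕ) : (0 : ℝ) < (1 / 4 : ℝ) ^ j := by positivity

theorem WA_quarter_succ (j : ℕ) : 4 * (1 / 4 : ℝ) ^ (j + 1) = (1 / 4 : ℝ) ^ j := by
  rw [pow_succ]; ring

theorem WA_anti {Γ : AddSubgroup E} (h : Disc Γ) :
    Antitone (fun j : ℕ => th Γ 0 ((1 / 4 : ℝ) ^ j) / 2 ^ (j * rk Γ)) := by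
  refine antitone_nat_of_succ_le fun j => ?_
  have h1 := th_le_two_pow h (WA_quarter_pos (j + 1))
  rw [WA_quarter_succ] at h1
  have h2 : (2 : ℝ) ^ ((j + 1) * rk Γ) = 2 ^ (j * rk Γ) * 2 ^ rk Γ := by
    rw [← pow_add]; congr 1; ring
  rw [h2, div_le_div_iff₀ (by positivity) (by positivity)]
  have h3 : (0 : ℝ) < 2 ^ (j * rk Γ) := by positivity
  nlinarith [mul_le_mul_of_nonneg_left h1 h3.le]

theorem WA_nonneg {Γ : AddSubgroup E} (h : Disc Γ) (j : ℕ) :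
    0 ≤ th Γ 0 ((1 / 4 : ℝ) ^ j) / 2 ^ (j * rk Γ) :=
  div_nonneg (th_pos h 0 (WA_quarter_pos j)).le (by positivity)

theorem WA_bdd {Γ : AddSubgroup E} (h : Disc Γ) :
    BddBelow (Set.range (fun j : ℕ => th Γ 0 ((1 / 4 : ℝ) ^ j) / 2 ^ (j * rk Γ))) := by
  refine ⟨0, ?_⟩
  rintro _ ⟨j, rfl⟩
  exact WA_nonneg h j

theorem w_tendsto {Γ : AddSubgroup E} (h : Disc Γ) :
    Filter.Tendsto (fun j : ℕ => th Γ 0 ((1 / 4 : ℝ) ^ j) / 2 ^ (j * rk Γ)) Filter.atTop
      (nhds (w Γ)) :=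
  tendsto_atTop_ciInf (WA_anti h) (WA_bdd h)

theorem w_le {Γ : AddSubgroup E} (h : Disc Γ) (j : ℕ) :
    w Γ ≤ th Γ 0 ((1 / 4 : ℝ) ^ j) / 2 ^ (j * rk Γ) :=
  ciInf_le (WA_bdd h) j

theorem w_bot : w (⊥ : AddSubgroup E) = 1 := by
  unfold w
  simp [th_bot, rk_bot]

theorem w_nonneg {Γ : AddSubgroup E} (h : Disc Γ) : 0 ≤ w Γ :=
  Real.iInf_nonneg fun j => WA_nonneg h j

/-- `exp(-4^-j s) → 1` -/
theorem WA_exp_tendsto (s : ℝ) :
    Filter.Tendsto (fun j : ℕ => Real.exp (-(1 / 4 : ℝ) ^ j * s)) Filter.atTop (nhds 1) := by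
  have h1 : Filter.Tendsto (fun j : ℕ => (1 / 4 : ℝ) ^ j) Filter.atTop (nhds 0) :=
    tendsto_pow_atTop_nhds_zero_of_lt_one (by norm_num) (by norm_num)
  have h2 : Filter.Tendsto (fun j : ℕ => -(1 / 4 : ℝ) ^ j * s) Filter.atTop (nhds 0) := by
    simpa using h1.neg.mul_const s
  have h3 := (Real.continuous_exp.tendsto 0).comp h2
  simpa [Function.comp_def] using h3

theorem WA_reps {Γ Γ' : AddSubgroup E} (hi : Γ'.relIndex Γ ≠ 0) :
    ∃ r : ℝ, ∀ x ∈ Γ, ∃ y ∈ Γ, x - y ∈ Γ' ∧ ‖y‖ ≤ r := by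
  have hfin : Finite (Γ ⧸ Γ'.addSubgroupOf Γ) := by
    rw [AddSubgroup.relIndex, AddSubgroup.index] at hi
    exact (Nat.card_ne_zero.mp hi).2
  obtain ⟨r, hr⟩ := (Set.finite_range
    (fun c : Γ ⧸ Γ'.addSubgroupOf Γ => ‖((Quotient.out c : Γ) : E)‖)).bddAbove
  refine ⟨r, fun x hx => ?_⟩
  let c : Γ ⧸ Γ'.addSubgroupOf Γ := QuotientAddGroup.mk ⟨x, hx⟩
  refine ⟨((Quotient.out c : Γ) : E), (Quotient.out c : Γ).2, ?_, hr ⟨c, rfl⟩⟩
  have h1 : (QuotientAddGroup.mk (Quotient.out c) : Γ ⧸ Γ'.addSubgroupOf Γ)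
      = QuotientAddGroup.mk ⟨x, hx⟩ := QuotientAddGroup.out_eq' c
  have h2 := QuotientAddGroup.eq.mp h1
  rw [AddSubgroup.mem_addSubgroupOf] at h2
  have h3 : (((-Quotient.out c + ⟨x, hx⟩ : Γ)) : E) = x - ((Quotient.out c : Γ) : E) := by
    push_cast
    abel
  rw [h3] at h2
  exact h2

/-- from `th_index_le`, `th_index_ge` and limits -/
theorem w_index {Γ Γ' : AddSubgroup E} (h : Disc Γ) (hle : Γ' ≤ Γ) (hrk : rk Γ' = rk Γ) :
    w Γ = (Γ'.relIndex Γ : ℝ) * w Γ' := by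
  have hi := relIndex_ne_zero h hle hrk
  have h' := h.mono hle
  apply le_antisymm
  · refine le_of_tendsto_of_tendsto' (w_tendsto h) ((w_tendsto h').const_mul _) fun j => ?_
    rw [hrk, ← mul_div_assoc]
    exact div_le_div_of_nonneg_right (th_index_le h hle hi (WA_quarter_pos j)) (by positivity)
  · obtain ⟨r, hr⟩ := WA_reps hi
    have h1 := ((w_tendsto h').const_mul (Γ'.relIndex Γ : ℝ)).mul (WA_exp_tendsto (r ^ 2))
    rw [mul_one] at h1
    refine le_of_tendsto_of_tendsto' h1 (w_tendsto h) fun j => ?_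
    have h2 := th_index_ge h hle hi hr (WA_quarter_pos j)
    rw [hrk]
    rw [mul_assoc, div_mul_eq_mul_div, ← mul_div_assoc]
    refine div_le_div_of_nonneg_right ?_ (by positivity)
    calc _ = (Γ'.relIndex Γ : ℝ) * (Real.exp (-(1 / 4 : ℝ) ^ j * r ^ 2) *
          th Γ' 0 ((1 / 4 : ℝ) ^ j)) := by ring
      _ ≤ _ := h2

theorem w_mono {Γ Γ' : AddSubgroup E} (h : Disc Γ) (hle : Γ' ≤ Γ) (hrk : rk Γ' = rk Γ) :
    w Γ' ≤ w Γ := by
  rw [w_index h hle hrk]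
  have h1 : (1 : ℝ) ≤ (Γ'.relIndex Γ : ℝ) := by
    exact_mod_cast Nat.one_le_iff_ne_zero.mpr (relIndex_ne_zero h hle hrk)
  exact le_mul_of_one_le_left (w_nonneg (h.mono hle)) h1

/-- short representatives of the classes of `Γ/2Γ` -/
theorem WA_short {Γ : AddSubgroup E} (h : Disc Γ) {S : Set E} {R : ℝ} (hR : 0 ≤ R)
    (hS : Γ = AddSubgroup.closure S) (hSR : ∀ x ∈ S, ‖x‖ ≤ R) :
    ∀ x ∈ Γ, ∃ y ∈ Γ, x - y ∈ dbl Γ ∧ ‖y‖ ≤ rk Γ * R := by
  classical
  have hfin : Finite (QQ Γ) := QQ_finite h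
  have hSΓ : ∀ s ∈ S, s ∈ Γ := fun s hs => by rw [hS]; exact AddSubgroup.subset_closure hs
  letI : Module (ZMod 2) (QQ Γ) := AddCommGroup.zmodModule (n := 2) (fun c => by
    rw [two_nsmul]; exact QQ_two c)
  let π : Γ →+ QQ Γ := QuotientAddGroup.mk' _
  have hπ : ∀ c, ∃ x, π x = c := QuotientAddGroup.mk'_surjective _
  let T : Set (QQ Γ) := {c | ∃ x : Γ, (x : E) ∈ S ∧ π x = c}
  have hspan : ∀ x (hx : x ∈ AddSubgroup.closure S) (hx' : x ∈ Γ),
      π ⟨x, hx'⟩ ∈ Submodule.span (ZMod 2) T := by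
    intro x hx
    induction hx using AddSubgroup.closure_induction with
    | mem x hx => exact fun hx' => Submodule.subset_span ⟨⟨x, hx'⟩, hx, rfl⟩
    | zero =>
      intro hx'
      have : (⟨0, hx'⟩ : Γ) = 0 := rfl
      rw [this, map_zero]
      exact Submodule.zero_mem _
    | add x y hx hy ihx ihy =>
      intro hxy
      have hx1 : x ∈ Γ := by rw [hS]; exact hx
      have hy1 : y ∈ Γ := by rw [hS]; exact hy
      have : (⟨x + y, hxy⟩ : Γ) = ⟨x, hx1⟩ + ⟨y, hy1⟩ := rfl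
      rw [this, map_add]
      exact Submodule.add_mem _ (ihx hx1) (ihy hy1)
    | neg x hx ihx =>
      intro hx'
      have hx1 : x ∈ Γ := by rw [hS]; exact hx
      have : (⟨-x, hx'⟩ : Γ) = -⟨x, hx1⟩ := rfl
      rw [this, map_neg]
      exact Submodule.neg_mem _ (ihx hx1)
  have htop : Submodule.span (ZMod 2) T = ⊤ := by
    rw [eq_top_iff]
    rintro c -
    obtain ⟨x, rfl⟩ := hπ c
    exact hspan x (by rw [← hS]; exact x.2) x.2
  obtain ⟨b, hbT, hbspan, hbli⟩ := exists_linearIndependent (ZMod 2) T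
  rw [htop] at hbspan
  haveI : Module.Finite (ZMod 2) (QQ Γ) := Module.Finite.of_finite
  haveI : Fintype b := Fintype.ofFinite b
  let B : Module.Basis b (ZMod 2) (QQ Γ) := Module.Basis.mk hbli (by
    rw [Subtype.range_coe, hbspan])
  have hcard : Fintype.card b = rk Γ := by
    have h1 : Nat.card (QQ Γ) = Nat.card (ZMod 2) ^ Module.finrank (ZMod 2) (QQ Γ) :=
      Module.natCard_eq_pow_finrank
    rw [QQ_card h, Nat.card_zmod, Module.finrank_eq_card_basis B] at h1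
    exact (Nat.pow_right_injective (le_refl 2) h1).symm
  have hlift : ∀ i : b, ∃ x : Γ, (x : E) ∈ S ∧ π x = (i : QQ Γ) := fun i => hbT i.2
  choose s hsS hsπ using hlift
  intro x hx
  let c := B.repr (π ⟨x, hx⟩)
  let y : Γ := ∑ i : b, (c i).val • s i
  refine ⟨(y : E), y.2, ?_, ?_⟩
  · have h1 : π y = π ⟨x, hx⟩ := by
      have h2 : π y = ∑ i : b, c i • (i : QQ Γ) := by
        rw [map_sum]
        refine Finset.sum_congr rfl fun i _ => ?_
        rw [map_nsmul, hsπ, ← Nat.cast_smul_eq_nsmul (ZMod 2), ZMod.natCast_zmod_val]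
      have h3 : π ⟨x, hx⟩ = ∑ i : b, c i • B i := (B.sum_repr _).symm
      rw [h2, h3]
      refine Finset.sum_congr rfl fun i _ => ?_
      rw [Module.Basis.mk_apply]
    have h2 := QuotientAddGroup.eq.mp h1
    rw [AddSubgroup.mem_addSubgroupOf] at h2
    have h3 : ((-y + ⟨x, hx⟩ : Γ) : E) = x - (y : E) := by
      push_cast
      abel
    rw [h3] at h2
    exact h2
  · have h1 : (y : E) = ∑ i : b, (c i).val • (s i : E) := by
      simp only [y]
      push_cast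
      rfl
    rw [h1]
    calc ‖∑ i : b, (c i).val • (s i : E)‖ ≤ ∑ i : b, ‖(c i).val • (s i : E)‖ :=
          norm_sum_le _ _
      _ ≤ ∑ i : b, R := by
          refine Finset.sum_le_sum fun i _ => ?_
          have h2 : (c i).val < 2 := ZMod.val_lt _
          have h3 := hSR _ (hsS i)
          interval_cases h4 : (c i).val
          · simpa using hR
          · simpa using h3
      _ = rk Γ * R := by
          rw [Finset.sum_const, nsmul_eq_mul, Finset.card_univ, hcard]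

/-- smoothness: if `Γ` is generated by vectors of norm `≤ R`, every class of `Γ/2Γ` has a
representative of norm `≤ rk Γ * R`. -/
theorem w_gen {Γ : AddSubgroup E} (h : Disc Γ) {S : Set E} {R : ℝ} (hR : 0 ≤ R)
    (hS : Γ = AddSubgroup.closure S) (hSR : ∀ x ∈ S, ‖x‖ ≤ R) (j : ℕ) :
    th Γ 0 ((1 / 4 : ℝ) ^ j) ≤
      2 ^ (j * rk Γ) * w Γ * Real.exp ((1 / 4 : ℝ) ^ j * (rk Γ * R) ^ 2) := by
  have hsh := WA_short h hR hS hSR
  set r : ℝ := rk Γ * R with hr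
  have hi : (dbl Γ).relIndex Γ ≠ 0 := by rw [relIndex_dbl h]; positivity
  have hstep : ∀ j : ℕ, 2 ^ rk Γ * (Real.exp (-(1 / 4 : ℝ) ^ (j + 1) * r ^ 2) *
      th Γ 0 ((1 / 4 : ℝ) ^ j)) ≤ th Γ 0 ((1 / 4 : ℝ) ^ (j + 1)) := by
    intro j
    have h1 := th_index_ge h (dbl_le Γ) hi hsh (WA_quarter_pos (j + 1))
    rw [relIndex_dbl h, th_dbl, WA_quarter_succ] at h1
    push_cast at h1
    exact h1
  have hmono : Monotone (fun j : ℕ => th Γ 0 ((1 / 4 : ℝ) ^ j) / 2 ^ (j * rk Γ) *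
      Real.exp (-(1 / 4 : ℝ) ^ j * r ^ 2)) := by
    refine monotone_nat_of_le_succ fun j => ?_
    have h1 := hstep j
    have h2 : (2 : ℝ) ^ ((j + 1) * rk Γ) = 2 ^ (j * rk Γ) * 2 ^ rk Γ := by
      rw [← pow_add]; congr 1; ring
    have hth := th_pos h 0 (WA_quarter_pos j)
    rw [h2]
    have h3 : Real.exp (-(1 / 4 : ℝ) ^ j * r ^ 2) ≤
        Real.exp (-(1 / 4 : ℝ) ^ (j + 1) * r ^ 2) * Real.exp (-(1 / 4 : ℝ) ^ (j + 1) * r ^ 2) := by
      rw [← Real.exp_add]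
      apply Real.exp_le_exp.mpr
      rw [← WA_quarter_succ j]
      have h4 := WA_quarter_pos (j + 1)
      nlinarith [mul_nonneg h4.le (sq_nonneg r)]
    have h5 : (0 : ℝ) < 2 ^ (j * rk Γ) := by positivity
    have h6 : (0 : ℝ) < 2 ^ rk Γ := by positivity
    calc th Γ 0 ((1 / 4 : ℝ) ^ j) / 2 ^ (j * rk Γ) * Real.exp (-(1 / 4 : ℝ) ^ j * r ^ 2)
        ≤ th Γ 0 ((1 / 4 : ℝ) ^ j) / 2 ^ (j * rk Γ) *
          (Real.exp (-(1 / 4 : ℝ) ^ (j + 1) * r ^ 2) *
            Real.exp (-(1 / 4 : ℝ) ^ (j + 1) * r ^ 2)) :=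
          mul_le_mul_of_nonneg_left h3 (div_nonneg hth.le h5.le)
      _ = (2 ^ rk Γ * (Real.exp (-(1 / 4 : ℝ) ^ (j + 1) * r ^ 2) *
            th Γ 0 ((1 / 4 : ℝ) ^ j))) / (2 ^ (j * rk Γ) * 2 ^ rk Γ) *
            Real.exp (-(1 / 4 : ℝ) ^ (j + 1) * r ^ 2) := by
          field_simp
      _ ≤ th Γ 0 ((1 / 4 : ℝ) ^ (j + 1)) / (2 ^ (j * rk Γ) * 2 ^ rk Γ) *
            Real.exp (-(1 / 4 : ℝ) ^ (j + 1) * r ^ 2) := by
          refine mul_le_mul_of_nonneg_right ?_ (Real.exp_pos _).le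
          exact div_le_div_of_nonneg_right h1 (by positivity)
  have hlim := (w_tendsto h).mul (WA_exp_tendsto (r ^ 2))
  rw [mul_one] at hlim
  have hb := hmono.ge_of_tendsto hlim j
  have h5 : (0 : ℝ) < 2 ^ (j * rk Γ) := by positivity
  have h7 : Real.exp (-(1 / 4 : ℝ) ^ j * r ^ 2) * Real.exp ((1 / 4 : ℝ) ^ j * r ^ 2) = 1 := by
    rw [← Real.exp_add]
    simp
  calc th Γ 0 ((1 / 4 : ℝ) ^ j)
      = 2 ^ (j * rk Γ) * (th Γ 0 ((1 / 4 : ℝ) ^ j) / 2 ^ (j * rk Γ) *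
        (Real.exp (-(1 / 4 : ℝ) ^ j * r ^ 2) * Real.exp ((1 / 4 : ℝ) ^ j * r ^ 2))) := by
        rw [h7]; field_simp
    _ = 2 ^ (j * rk Γ) * (th Γ 0 ((1 / 4 : ℝ) ^ j) / 2 ^ (j * rk Γ) *
        Real.exp (-(1 / 4 : ℝ) ^ j * r ^ 2)) * Real.exp ((1 / 4 : ℝ) ^ j * r ^ 2) := by ring
    _ ≤ _ := by
        refine mul_le_mul_of_nonneg_right ?_ (Real.exp_pos _).le
        exact mul_le_mul_of_nonneg_left hb h5.le

theorem w_scl {Γ : AddSubgroup E} (h : Disc Γ) (i : ℤ) :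
    w (scl ((2 : ℝ) ^ i) Γ) = (2 : ℝ) ^ (-(i * rk Γ)) * w Γ := by
  have hc : (2 : ℝ) ^ i ≠ 0 := by positivity
  obtain ⟨hd, hrk⟩ := disc_scl h hc
  have h1 := w_tendsto hd
  have h2 := w_tendsto h
  rcases Int.eq_nat_or_neg i with ⟨n, rfl | rfl⟩
  · -- shift the left sequence by `n`
    have h3 := (Filter.tendsto_add_atTop_iff_nat n).mpr h1
    have h4 := h2.const_mul ((2 : ℝ) ^ (-((n : ℤ) * rk Γ)))
    refine tendsto_nhds_unique h3 (h4.congr fun j => ?_)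
    rw [th_scl hc, hrk]
    have h5 : (1 / 4 : ℝ) ^ (j + n) * ((2 : ℝ) ^ (n : ℤ)) ^ 2 = (1 / 4 : ℝ) ^ j := by
      rw [zpow_natCast, ← pow_mul, mul_comm n 2, pow_mul, pow_add, mul_assoc, ← mul_pow]
      norm_num
    rw [h5]
    have h6 : (2 : ℝ) ^ (-((n : ℤ) * rk Γ)) = 1 / 2 ^ (n * rk Γ) := by
      rw [zpow_neg, one_div]
      congr 1
    rw [h6, add_mul, pow_add]
    field_simp
  · have h3 := (Filter.tendsto_add_atTop_iff_nat n).mpr h2
    have h4 := h3.const_mul ((2 : ℝ) ^ (-(-(n : ℤ) * rk Γ)))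
    refine tendsto_nhds_unique h1 (h4.congr fun j => ?_)
    rw [th_scl hc, hrk]
    have h5 : (1 / 4 : ℝ) ^ j * ((2 : ℝ) ^ (-(n : ℤ))) ^ 2 = (1 / 4 : ℝ) ^ (j + n) := by
      rw [zpow_neg, zpow_natCast, inv_pow, ← pow_mul, mul_comm n 2, pow_mul, pow_add]
      rw [← inv_pow]
      norm_num
    rw [h5]
    have h6 : (2 : ℝ) ^ (-(-(n : ℤ) * rk Γ)) = 2 ^ (n * rk Γ) := by
      rw [neg_mul, neg_neg]
      exact_mod_cast zpow_natCast (2 : ℝ) (n * rk Γ)
    rw [h6, add_mul, pow_add (2 : ℝ)]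
    field_simp

theorem w_map_le {F : Type*} [NormedAddCommGroup F] [InnerProductSpace ℝ F]
    [FiniteDimensional ℝ F] {Γ : AddSubgroup E} (h : Disc Γ) (f : E →ₗ[ℝ] F)
    (hinj : Set.InjOn f (Γ : Set E)) (hf : ∀ x ∈ Γ, ‖f x‖ ≤ ‖x‖)
    (h' : Disc (Γ.map f.toAddMonoidHom)) :
    rk (Γ.map f.toAddMonoidHom) = rk Γ ∧ w Γ ≤ w (Γ.map f.toAddMonoidHom) := by
  have hrk : rk (Γ.map f.toAddMonoidHom) = rk Γ := by
    apply le_antisymm
    · unfold rk
      have h1 : Submodule.span ℝ ((Γ.map f.toAddMonoidHom : AddSubgroup F) : Set F) =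
          (Submodule.span ℝ (Γ : Set E)).map f := by
        rw [Submodule.map_span]
        rfl
      rw [h1]
      exact Submodule.finrank_map_le _ _
    · obtain ⟨b, hb, hcl⟩ := h'.exists_basis
      have hmem : ∀ i, ∃ c ∈ Γ, f c = b i := by
        intro i
        have h1 : b i ∈ Γ.map f.toAddMonoidHom := by
          rw [← hcl]; exact AddSubgroup.subset_closure ⟨i, rfl⟩
        obtain ⟨c, hc, hc'⟩ := h1
        exact ⟨c, hc, hc'⟩
      choose c hcΓ hcb using hmem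
      have hclΓ : Γ ≤ AddSubgroup.closure (Set.range c) := by
        intro x hx
        have hcle : AddSubgroup.closure (Set.range c) ≤ Γ := by
          rw [AddSubgroup.closure_le]
          rintro _ ⟨i, rfl⟩
          exact hcΓ i
        have h1 : f x ∈ (AddSubgroup.closure (Set.range c)).map f.toAddMonoidHom := by
          rw [AddMonoidHom.map_closure, ← Set.range_comp]
          have h2 : (f.toAddMonoidHom : E → F) ∘ c = b := by
            funext i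
            exact hcb i
          rw [h2, hcl]
          exact ⟨x, hx, rfl⟩
        obtain ⟨y, hy, hyx⟩ := h1
        have : y = x := hinj (hcle hy) hx hyx
        rwa [← this]
      have h2 : Submodule.span ℝ (Γ : Set E) ≤ Submodule.span ℝ (Set.range c) := by
        rw [Submodule.span_le]
        intro x hx
        have h3 := hclΓ hx
        have h4 : AddSubgroup.closure (Set.range c) ≤
            (Submodule.span ℝ (Set.range c)).toAddSubgroup := by
          rw [AddSubgroup.closure_le]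
          exact Submodule.subset_span
        exact h4 h3
      calc rk Γ ≤ Module.finrank ℝ (Submodule.span ℝ (Set.range c)) :=
            Submodule.finrank_mono h2
        _ ≤ Fintype.card (Fin (rk (Γ.map f.toAddMonoidHom))) := finrank_range_le_card c
        _ = _ := Fintype.card_fin _
  refine ⟨hrk, ?_⟩
  refine le_of_tendsto_of_tendsto' (w_tendsto h) (w_tendsto h') fun j => ?_
  rw [hrk]
  exact div_le_div_of_nonneg_right (th_map_le f hinj hf h' (WA_quarter_pos j)) (by positivity)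

end H460
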