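import Pool.Agent.H460R2.WA

/-! Module WB: lower bounds for w -/

set_option autoImplicit false

namespace H460

variable {E : Type*} [NormedAddCommGroup E] [InnerProductSpace ℝ E] [FiniteDimensional ℝ E]

theorem WB_line_disc {x : E} (hx : x ≠ 0) :
    Disc (AddSubgroup.zmultiples x) ∧ rk (AddSubgroup.zmultiples x) = 1 := by
  have h1 : LinearIndependent ℝ (fun _ : Fin 1 => x) := by
    rw [linearIndependent_unique_iff]; exact hx
  have h2 := disc_closure h1
  have h3 : AddSubgroup.closure (Set.range fun _ : Fin 1 => x) = AddSubgroup.zmultiples x := by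
    rw [Set.range_const, AddSubgroup.zmultiples_eq_closure]
  rwa [h3] at h2

theorem WB_line_sum {x : E} (hx : x ≠ 0) (t : ℝ) :
    th (AddSubgroup.zmultiples x) 0 t = ∑' z : ℤ, Real.exp (-t * ‖(z : ℤ) • x‖ ^ 2) := by
  set e : ℤ → AddSubgroup.zmultiples x := fun z => ⟨z • x, ⟨z, rfl⟩⟩ with he
  have hbij : Function.Bijective e := by
    constructor
    · intro a b hab
      have h1 : a • x = b • x := congrArg (fun y : AddSubgroup.zmultiples x => (y : E)) hab
      have h2 : ((a : ℝ) - b) • x = 0 := by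
        rw [sub_smul, Int.cast_smul_eq_zsmul, Int.cast_smul_eq_zsmul, h1, sub_self]
      rcases smul_eq_zero.1 h2 with h3 | h3
      · exact_mod_cast sub_eq_zero.1 h3
      · exact (hx h3).elim
    · rintro ⟨y, z, rfl⟩
      exact ⟨z, rfl⟩
  unfold th
  rw [← (Equiv.ofBijective e hbij).tsum_eq]
  refine tsum_congr fun z => ?_
  have : (((Equiv.ofBijective e hbij) z : AddSubgroup.zmultiples x) : E) = z • x := rfl
  rw [this, add_zero]

theorem WB_line_summable {x : E} (hx : x ≠ 0) {t : ℝ} (ht : 0 < t) :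
    Summable fun z : ℤ => Real.exp (-t * ‖(z : ℤ) • x‖ ^ 2) := by
  have hs := th_summable (WB_line_disc hx).1 0 ht
  set e : ℤ → AddSubgroup.zmultiples x := fun z => ⟨z • x, ⟨z, rfl⟩⟩ with he
  have hinj : Function.Injective e := by
    intro a b hab
    have h1 : a • x = b • x := congrArg (fun y : AddSubgroup.zmultiples x => (y : E)) hab
    have h2 : ((a : ℝ) - b) • x = 0 := by
      rw [sub_smul, Int.cast_smul_eq_zsmul, Int.cast_smul_eq_zsmul, h1, sub_self]
    rcases smul_eq_zero.1 h2 with h3 | h3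
    · exact_mod_cast sub_eq_zero.1 h3
    · exact (hx h3).elim
  have h4 := hs.comp_injective hinj
  refine h4.congr fun z => ?_
  simp only [Function.comp_apply, he, add_zero]

theorem WB_norm (x : E) (z : ℤ) : ‖z • x‖ ^ 2 = ‖x‖ ^ 2 * (z : ℝ) ^ 2 := by
  rw [← Int.cast_smul_eq_zsmul ℝ, norm_smul, Real.norm_eq_abs, mul_pow, sq_abs]; ring

theorem WB_S_le {A : ℝ} (hA : 1 ≤ A) :
    ∑' n : ℤ, Real.exp (-A * (n : ℝ) ^ 2) ≤
      1 + Real.exp (-(A - 1)) * ∑' n : ℤ, Real.exp (-1 * (n : ℝ) ^ 2) := by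
  have hs : ∀ B : ℝ, 0 < B → Summable fun n : ℤ => Real.exp (-B * (n : ℝ) ^ 2) := by
    intro B hB
    have h := WB_line_summable (E := ℝ) (x := 1) one_ne_zero hB
    refine h.congr fun z => ?_
    rw [WB_norm]; simp
  classical
  have h1 : Summable fun n : ℤ => (if n = 0 then (1 : ℝ) else 0) :=
    summable_of_ne_finset_zero (s := {0}) (fun b hb => by
      rw [if_neg]; simpa using hb)
  have h2 : Summable fun n : ℤ => Real.exp (-(A - 1)) * Real.exp (-1 * (n : ℝ) ^ 2) :=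
    (hs 1 one_pos).mul_left _
  have h3 : ∀ n : ℤ, Real.exp (-A * (n : ℝ) ^ 2) ≤ (if n = 0 then (1 : ℝ) else 0) +
      Real.exp (-(A - 1)) * Real.exp (-1 * (n : ℝ) ^ 2) := by
    intro n
    by_cases hn : n = 0
    · subst hn
      simp only [if_true]
      have : 0 < Real.exp (-(A - 1)) * Real.exp (-1 * ((0 : ℤ) : ℝ) ^ 2) := by positivity
      simp at this ⊢
      linarith
    · rw [if_neg hn, zero_add, ← Real.exp_add]
      apply Real.exp_le_exp.2
      have h4 : (1 : ℝ) ≤ (n : ℝ) ^ 2 := by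
        have : (1 : ℤ) ≤ n ^ 2 := by
          have := sq_nonneg n
          rcases this.lt_or_eq with h | h
          · omega
          · exact (hn (by simpa using h.symm)).elim
        exact_mod_cast this
      nlinarith
  have h5 := Summable.tsum_le_tsum h3 (hs A (by linarith)) (h1.add h2)
  rw [h1.tsum_add h2, tsum_mul_left, tsum_ite_eq] at h5
  exact h5

/-- `∑_z e^{-t z² c²} ≥ √(π/t)/c` : Poisson, `Real.tsum_exp_neg_mul_int_sq` in Mathlib -/
theorem w_line {x : E} (hx : x ≠ 0) :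
    Disc (AddSubgroup.zmultiples x) ∧ rk (AddSubgroup.zmultiples x) = 1 ∧
    w (AddSubgroup.zmultiples x) = Real.sqrt Real.pi / ‖x‖ := by
  obtain ⟨hd, hr⟩ := WB_line_disc hx
  refine ⟨hd, hr, ?_⟩
  have hx0 : 0 < ‖x‖ := norm_pos_iff.2 hx
  have hpi := Real.pi_pos
  have hlim := w_tendsto hd
  -- the value of theta
  set A : ℕ → ℝ := fun j => Real.pi ^ 2 / ((1 / 4 : ℝ) ^ j * ‖x‖ ^ 2) with hA
  have hth : ∀ j : ℕ, th (AddSubgroup.zmultiples x) 0 ((1 / 4 : ℝ) ^ j) /
      2 ^ (j * rk (AddSubgroup.zmultiples x)) =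
      Real.sqrt Real.pi / ‖x‖ * ∑' n : ℤ, Real.exp (-A j * (n : ℝ) ^ 2) := by
    intro j
    have hq : 0 < (1 / 4 : ℝ) ^ j := by positivity
    set a : ℝ := (1 / 4 : ℝ) ^ j * ‖x‖ ^ 2 / Real.pi with ha
    have ha0 : 0 < a := by positivity
    have hP := Real.tsum_exp_neg_mul_int_sq ha0
    have e1 : th (AddSubgroup.zmultiples x) 0 ((1 / 4 : ℝ) ^ j) =
        ∑' n : ℤ, Real.exp (-Real.pi * a * (n : ℝ) ^ 2) := by
      rw [WB_line_sum hx]
      refine tsum_congr fun z => ?_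
      rw [WB_norm, ha]
      congr 1
      field_simp
    have e2 : ∀ n : ℤ, Real.exp (-Real.pi / a * (n : ℝ) ^ 2) = Real.exp (-A j * (n : ℝ) ^ 2) := by
      intro n
      rw [ha, hA]
      congr 1
      field_simp
    rw [e1, hP, hr, mul_one]
    simp_rw [e2]
    have e3 : a ^ (1 / 2 : ℝ) = (1 / 2 : ℝ) ^ j * ‖x‖ / Real.sqrt Real.pi := by
      rw [← Real.sqrt_eq_rpow, ha, Real.sqrt_div (by positivity), Real.sqrt_mul (by positivity),
        Real.sqrt_sq hx0.le]
      have : Real.sqrt ((1 / 4 : ℝ) ^ j) = (1 / 2 : ℝ) ^ j := by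
        rw [show (1 / 4 : ℝ) ^ j = ((1 / 2 : ℝ) ^ j) ^ 2 by rw [← pow_mul, mul_comm, pow_mul]; norm_num]
        exact Real.sqrt_sq (by positivity)
      rw [this]
    rw [e3]
    have hsp : 0 < Real.sqrt Real.pi := Real.sqrt_pos.2 hpi
    have h2 : (1 / 2 : ℝ) ^ j * 2 ^ j = 1 := by rw [← mul_pow]; norm_num
    have h2' : (0 : ℝ) < 2 ^ j := by positivity
    have h3' : (0 : ℝ) < (1 / 2) ^ j := by positivity
    rw [one_div_div, mul_comm (Real.sqrt Real.pi / ((1 / 2 : ℝ) ^ j * ‖x‖)), mul_div_assoc,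
      mul_comm (Real.sqrt Real.pi / ‖x‖)]
    congr 1
    rw [div_div, div_eq_div_iff (by positivity) hx0.ne']
    have : (1 / 2 : ℝ) ^ j * ‖x‖ * 2 ^ j = ‖x‖ * ((1 / 2 : ℝ) ^ j * 2 ^ j) := by ring
    rw [this, h2, mul_one]
  simp_rw [hth] at hlim
  have hAt : Filter.Tendsto A Filter.atTop Filter.atTop := by
    have h1 : A = fun j => (Real.pi ^ 2 / ‖x‖ ^ 2) * (4 : ℝ) ^ j := by
      funext j
      rw [hA]
      have : (1 / 4 : ℝ) ^ j * 4 ^ j = 1 := by rw [← mul_pow]; norm_num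
      have h4 : (0 : ℝ) < (1 / 4) ^ j := by positivity
      simp only
      rw [div_eq_iff (by positivity)]
      have e : Real.pi ^ 2 / ‖x‖ ^ 2 * 4 ^ j * ((1 / 4 : ℝ) ^ j * ‖x‖ ^ 2) =
        Real.pi ^ 2 / ‖x‖ ^ 2 * ‖x‖ ^ 2 * ((1 / 4 : ℝ) ^ j * 4 ^ j) := by ring
      rw [e, this, mul_one, div_mul_cancel₀ _ (by positivity)]
    rw [h1]
    exact (tendsto_pow_atTop_atTop_of_one_lt (by norm_num)).const_mul_atTop (by positivity)
  have hS : Filter.Tendsto (fun j => ∑' n : ℤ, Real.exp (-A j * (n : ℝ) ^ 2)) Filter.atTop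
      (nhds 1) := by
    have hs : ∀ B : ℝ, 0 < B → Summable fun n : ℤ => Real.exp (-B * (n : ℝ) ^ 2) := by
      intro B hB
      have h := WB_line_summable (E := ℝ) (x := 1) one_ne_zero hB
      refine h.congr fun z => ?_
      rw [WB_norm]; simp
    have hA1 : ∀ᶠ j in Filter.atTop, 1 ≤ A j := hAt.eventually_ge_atTop 1
    have hup : Filter.Tendsto (fun j => 1 + Real.exp (-(A j - 1)) *
        ∑' n : ℤ, Real.exp (-1 * (n : ℝ) ^ 2)) Filter.atTop (nhds 1) := by
      have h1 : Filter.Tendsto (fun j => Real.exp (-(A j - 1))) Filter.atTop (nhds 0) := by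
        apply Real.tendsto_exp_atBot.comp
        apply Filter.tendsto_neg_atTop_atBot.comp
        exact Filter.tendsto_atTop_add_const_right _ (-1) hAt
      have h2 := (h1.mul_const (∑' n : ℤ, Real.exp (-1 * (n : ℝ) ^ 2))).const_add 1
      simpa using h2
    refine tendsto_of_tendsto_of_tendsto_of_le_of_le' tendsto_const_nhds hup ?_ ?_
    · filter_upwards [hA1] with j hj
      have := (hs (A j) (by linarith)).le_tsum (0 : ℤ) (fun _ _ => (Real.exp_pos _).le)
      simpa using this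
    · filter_upwards [hA1] with j hj
      exact WB_S_le hj
  have := hS.const_mul (Real.sqrt Real.pi / ‖x‖)
  rw [mul_one] at this
  exact tendsto_nhds_unique hlim this

theorem WB_th_add {Γ : AddSubgroup E} (h : Disc Γ) {x : E}
    (hx : x ∉ Submodule.span ℝ (Γ : Set E)) {t : ℝ} (ht : 0 < t) :
    th Γ 0 t * th (AddSubgroup.zmultiples x) 0 t ≤ th (Γ ⊔ AddSubgroup.zmultiples x) 0 t := by
  have hx0 : x ≠ 0 := by
    rintro rfl; exact hx (Submodule.zero_mem _)
  set M := Γ ⊔ AddSubgroup.zmultiples x with hM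
  have hdM : Disc M := (disc_sup h hx).1
  have hmem : ∀ (z : ℤ) (g : Γ), (g : E) + z • x ∈ M := fun z g =>
    AddSubgroup.add_mem_sup g.2 ⟨z, rfl⟩
  set e : ℤ × Γ → M := fun p => ⟨(p.2 : E) + p.1 • x, hmem p.1 p.2⟩ with he
  have hinj : Function.Injective e := by
    rintro ⟨z, g⟩ ⟨z', g'⟩ hzg
    have h1 : (g : E) + z • x = (g' : E) + z' • x :=
      congrArg (fun y : M => (y : E)) hzg
    have hzz : z = z' := by
      by_contra hne
      apply hx
      have hne' : ((z : ℝ) - z') ≠ 0 := by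
        rw [sub_ne_zero]; exact_mod_cast hne
      have h2 : ((z : ℝ) - z') • x = (g' : E) - g := by
        rw [sub_smul, Int.cast_smul_eq_zsmul, Int.cast_smul_eq_zsmul]
        rw [sub_eq_sub_iff_add_eq_add, add_comm, h1, add_comm]
      have h3 : x = ((z : ℝ) - z')⁻¹ • ((g' : E) - g) := by
        rw [← h2, smul_smul, inv_mul_cancel₀ hne', one_smul]
      rw [h3]
      exact Submodule.smul_mem _ _ (Submodule.sub_mem _ (Submodule.subset_span g'.2)
        (Submodule.subset_span g.2))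
    subst hzz
    have h4 : (g : E) = (g' : E) := add_right_cancel h1
    rw [Subtype.ext h4]
  have hsM := th_summable hdM 0 ht
  have hF : Summable fun p : ℤ × Γ => Real.exp (-t * ‖(p.2 : E) + p.1 • x‖ ^ 2) := by
    have h4 := hsM.comp_injective hinj
    refine h4.congr fun p => ?_
    simp only [Function.comp_apply, he, add_zero]
  have h1 : ∑' p : ℤ × Γ, Real.exp (-t * ‖(p.2 : E) + p.1 • x‖ ^ 2) ≤ th M 0 t := by
    refine Summable.tsum_le_tsum_of_inj e hinj (fun _ _ => (Real.exp_pos _).le) (fun p => ?_)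
      hF hsM
    simp only [he, add_zero]
    exact le_refl _
  have h2 : ∑' p : ℤ × Γ, Real.exp (-t * ‖(p.2 : E) + p.1 • x‖ ^ 2) =
      ∑' z : ℤ, th Γ (z • x) t := hF.tsum_prod
  have h3 : Summable fun z : ℤ => th Γ (z • x) t := hF.prod
  have h4 : th Γ 0 t * th (AddSubgroup.zmultiples x) 0 t ≤ ∑' z : ℤ, th Γ (z • x) t := by
    rw [WB_line_sum hx0, ← tsum_mul_left]
    refine Summable.tsum_le_tsum (fun z => ?_) ((WB_line_summable hx0 ht).mul_left _) h3
    have := th_shift_ge h (z • x) ht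
    rw [mul_comm]; exact this
  calc _ ≤ _ := h4
    _ = _ := h2.symm
    _ ≤ _ := h1

theorem w_add {Γ : AddSubgroup E} (h : Disc Γ) {x : E}
    (hx : x ∉ Submodule.span ℝ (Γ : Set E)) :
    w Γ * (Real.sqrt Real.pi / ‖x‖) ≤ w (Γ ⊔ AddSubgroup.zmultiples x) := by
  have hx0 : x ≠ 0 := by
    rintro rfl; exact hx (Submodule.zero_mem _)
  obtain ⟨hd, hr, hw⟩ := w_line hx0
  obtain ⟨hdM, hrM⟩ := disc_sup h hx
  rw [← hw]
  have l1 := (w_tendsto h).mul (w_tendsto hd)
  have l2 := w_tendsto hdM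
  refine le_of_tendsto_of_tendsto' l1 l2 fun j => ?_
  have hq : (0 : ℝ) < (1 / 4 : ℝ) ^ j := by positivity
  rw [div_mul_div_comm, hr, hrM, ← pow_add]
  have e : j * rk Γ + j * 1 = j * (rk Γ + 1) := by ring
  rw [e]
  exact div_le_div_of_nonneg_right (WB_th_add h hx hq) (by positivity)

theorem WB_complete {Γ' : AddSubgroup E} (h : Disc Γ') {S : Set E} {R : ℝ}
    (hR : 1 ≤ R) (hS : S ⊆ (Γ' : Set E)) (hSR : ∀ x ∈ S, ‖x‖ ≤ R)
    (hspan : Submodule.span ℝ S = Submodule.span ℝ (Γ' : Set E)) (m : ℕ) :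
    ∀ Γ'' : AddSubgroup E, Γ'' ≤ Γ' → rk Γ' = rk Γ'' + m → w Γ'' ≤ w Γ' * R ^ m := by
  induction m with
  | zero =>
    intro Γ'' hle hrk
    rw [pow_zero, mul_one]
    exact w_mono h hle (by omega)
  | succ m ih =>
    intro Γ'' hle hrk
    have hd : Disc Γ'' := h.mono hle
    have hex : ∃ s ∈ S, s ∉ Submodule.span ℝ (Γ'' : Set E) := by
      by_contra hcon
      push_neg at hcon
      have h1 : Submodule.span ℝ S ≤ Submodule.span ℝ (Γ'' : Set E) := Submodule.span_le.2 hcon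
      rw [hspan] at h1
      have h2 : rk Γ' ≤ rk Γ'' := Submodule.finrank_mono h1
      omega
    obtain ⟨s, hsS, hs⟩ := hex
    have hs0 : s ≠ 0 := by
      rintro rfl; exact hs (Submodule.zero_mem _)
    have hsn : 0 < ‖s‖ := norm_pos_iff.2 hs0
    obtain ⟨_, hrM⟩ := disc_sup hd hs
    have hleM : Γ'' ⊔ AddSubgroup.zmultiples s ≤ Γ' := by
      refine sup_le hle ?_
      rw [AddSubgroup.zmultiples_le]
      exact hS hsS
    have h1 := ih _ hleM (by omega)
    have h2 := w_add hd hs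
    have h3 : 1 / R ≤ Real.sqrt Real.pi / ‖s‖ := by
      have hp : 1 ≤ Real.sqrt Real.pi := by
        rw [Real.one_le_sqrt]; linarith [Real.pi_gt_three]
      calc 1 / R ≤ 1 / ‖s‖ := one_div_le_one_div_of_le hsn (hSR s hsS)
        _ ≤ _ := div_le_div_of_nonneg_right hp hsn.le
    have h4 : w Γ'' * (1 / R) ≤ w Γ' * R ^ m :=
      (mul_le_mul_of_nonneg_left h3 (w_nonneg hd)).trans (h2.trans h1)
    have hR0 : 0 < R := by linarith
    calc w Γ'' = w Γ'' * (1 / R) * R := by field_simp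
      _ ≤ w Γ' * R ^ m * R := mul_le_mul_of_nonneg_right h4 hR0.le
      _ = w Γ' * R ^ (m + 1) := by ring

/-- completing by short vectors: `Γ'' ≤ Γ'`, `S ⊆ Γ'` spans the same real space as `Γ'`,
all vectors of `S` have norm `≤ R`, `1 ≤ R` -/
theorem w_complete {Γ' Γ'' : AddSubgroup E} (h : Disc Γ') (hle : Γ'' ≤ Γ') {S : Set E} {R : ℝ}
    (hR : 1 ≤ R) (hS : S ⊆ (Γ' : Set E)) (hSR : ∀ x ∈ S, ‖x‖ ≤ R)
    (hspan : Submodule.span ℝ S = Submodule.span ℝ (Γ' : Set E)) :
    w Γ'' ≤ w Γ' * R ^ (rk Γ' - rk Γ'') := by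
  have := rk_mono hle
  exact WB_complete h hR hS hSR hspan (rk Γ' - rk Γ'') Γ'' hle (by omega)

theorem w_pos {Γ : AddSubgroup E} (h : Disc Γ) : 0 < w Γ := by
  obtain ⟨b, hb, hbΓ⟩ := h.exists_basis
  set R : ℝ := 1 + ∑ i, ‖b i‖ with hRdef
  have hR : 1 ≤ R := by
    have : 0 ≤ ∑ i, ‖b i‖ := Finset.sum_nonneg fun _ _ => norm_nonneg _
    linarith
  have hS : Set.range b ⊆ (Γ : Set E) := fun y hy => by
    have h1 : y ∈ AddSubgroup.closure (Set.range b) := AddSubgroup.subset_closure hy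
    exact hbΓ.le h1
  have hSR : ∀ x ∈ Set.range b, ‖x‖ ≤ R := by
    rintro _ ⟨i, rfl⟩
    have : ‖b i‖ ≤ ∑ i, ‖b i‖ :=
      Finset.single_le_sum (f := fun i => ‖b i‖) (fun _ _ => norm_nonneg _) (Finset.mem_univ i)
    linarith
  have hspan : Submodule.span ℝ (Set.range b) = Submodule.span ℝ (Γ : Set E) := by
    apply le_antisymm (Submodule.span_mono hS)
    rw [Submodule.span_le]
    intro y hy
    have hy' : y ∈ AddSubgroup.closure (Set.range b) := hbΓ.ge hy
    have : AddSubgroup.closure (Set.range b) ≤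
        (Submodule.span ℝ (Set.range b)).toAddSubgroup := by
      rw [AddSubgroup.closure_le]; exact Submodule.subset_span
    exact this hy'
  have h1 := w_complete h (bot_le : (⊥ : AddSubgroup E) ≤ Γ) hR hS hSR hspan
  rw [w_bot] at h1
  by_contra hcon
  have h0 : w Γ = 0 := le_antisymm (not_lt.1 hcon) (w_nonneg h)
  rw [h0, zero_mul] at h1
  linarith

end H460
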