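import Pool.Agent.H460R2.QuoA
import Pool.Agent.H460R2.WB

/-! Module WQ: w is multiplicative; cutting by integral functionals -/

set_option autoImplicit false

namespace H460

variable {E : Type*} [NormedAddCommGroup E] [InnerProductSpace ℝ E] [FiniteDimensional ℝ E]


theorem w_quo {Γ : AddSubgroup E} (h : Disc Γ) {U : Submodule ℝ E} (hU : Sat Γ U) :
    w Γ = w (cut Γ U) * w (quo Γ U) := by
  have hcut : Disc (cut Γ U) := h.mono inf_le_left
  have hquo : Disc (quo Γ U) := disc_quo h hU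
  have hrk := rk_quo h hU
  obtain ⟨r, hr0, hr⟩ := th_quo_ge h hU
  have ha := w_tendsto h
  have hb := w_tendsto hcut
  have hc := w_tendsto hquo
  have hbc := hb.mul hc
  have hexp : Filter.Tendsto (fun j : ℕ => Real.exp (-((1 / 4 : ℝ) ^ j) * r ^ 2)) Filter.atTop
      (nhds 1) := by
    have h1 : Filter.Tendsto (fun j : ℕ => ((1 / 4 : ℝ) ^ j)) Filter.atTop (nhds 0) :=
      tendsto_pow_atTop_nhds_zero_of_lt_one (by norm_num) (by norm_num)
    have h2 := (h1.neg.mul_const (r ^ 2)).rexp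
    simpa using h2
  have hlow := hexp.mul hbc
  rw [one_mul] at hlow
  have key : ∀ j : ℕ, (th (cut Γ U) 0 ((1 / 4 : ℝ) ^ j) / 2 ^ (j * rk (cut Γ U))) *
      (th (quo Γ U) 0 ((1 / 4 : ℝ) ^ j) / 2 ^ (j * rk (quo Γ U))) =
      (th (cut Γ U) 0 ((1 / 4 : ℝ) ^ j) * th (quo Γ U) 0 ((1 / 4 : ℝ) ^ j)) /
        2 ^ (j * rk Γ) := by
    intro j
    rw [div_mul_div_comm, ← pow_add, hrk, mul_add]
  apply le_antisymm
  · refine le_of_tendsto_of_tendsto ha hbc (Filter.Eventually.of_forall fun j => ?_)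
    simp only
    rw [key j]
    have := th_quo_le h hU (t := (1 / 4 : ℝ) ^ j) (by positivity)
    gcongr
  · refine le_of_tendsto_of_tendsto hlow ha (Filter.Eventually.of_forall fun j => ?_)
    simp only
    rw [key j, ← mul_div_assoc]
    have := hr ((1 / 4 : ℝ) ^ j) (by positivity)
    gcongr

omit [FiniteDimensional ℝ E] in
/-- a subgroup on which an integral functional is injective is cyclic -/
theorem WQ_cyclic {Q : AddSubgroup E} (l : E →ₗ[ℝ] ℝ) (hint : ∀ x ∈ Q, ∃ z : ℤ, l x = z)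
    (hinj : ∀ x ∈ Q, l x = 0 → x = 0) : ∃ y ∈ Q, Q = AddSubgroup.zmultiples y := by
  set H : AddSubgroup ℤ := (Q.map l.toAddMonoidHom).comap (Int.castAddHom ℝ) with hH
  obtain ⟨a, ha⟩ := Int.subgroup_cyclic H
  have haH : a ∈ H := by
    rw [ha]; exact AddSubgroup.subset_closure (by simp)
  obtain ⟨y, hyQ, hy⟩ := haH
  have hy' : l y = (a : ℝ) := hy
  refine ⟨y, hyQ, le_antisymm ?_ ?_⟩
  · intro x hx
    obtain ⟨z, hz⟩ := hint x hx
    have hzH : z ∈ H := ⟨x, hx, hz⟩
    rw [ha, AddSubgroup.mem_closure_singleton] at hzH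
    obtain ⟨k, hk⟩ := hzH
    have h0 : x - k • y = 0 := by
      apply hinj _ (Q.sub_mem hx (Q.zsmul_mem hyQ k))
      rw [map_sub, map_zsmul, hz, hy', ← hk]
      simp
    rw [AddSubgroup.mem_zmultiples_iff]
    exact ⟨k, (sub_eq_zero.mp h0).symm⟩
  · rw [AddSubgroup.zmultiples_le]
    exact hyQ

/-- cutting by an integral functional of norm at most one -/
theorem w_cut {Γ : AddSubgroup E} (h : Disc Γ) (l : E →ₗ[ℝ] ℝ) (hl : ∀ x, |l x| ≤ ‖x‖)
    (hint : ∀ x ∈ Γ, ∃ z : ℤ, l x = z) :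
    rk Γ ≤ rk (cut Γ (LinearMap.ker l)) + 1 ∧
    w Γ ≤ w (cut Γ (LinearMap.ker l)) *
      Real.sqrt Real.pi ^ (rk Γ - rk (cut Γ (LinearMap.ker l))) := by
  set Γ0 := cut Γ (LinearMap.ker l) with hΓ0
  set U : Submodule ℝ E := Submodule.span ℝ (Γ0 : Set E) with hUdef
  have hUker : U ≤ LinearMap.ker l := by
    rw [hUdef, Submodule.span_le]
    intro x hx
    exact hx.2
  have hcutU : cut Γ U = Γ0 := by
    apply le_antisymm
    · intro x hx
      exact ⟨hx.1, hUker hx.2⟩
    · intro x hx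
      exact ⟨hx.1, Submodule.subset_span hx⟩
  have hSat : Sat Γ U := by
    unfold Sat
    rw [hcutU]
  have hrk := rk_quo h hSat
  have hw := w_quo h hSat
  rw [hcutU] at hrk hw
  have hproj : ∀ x : E, l ((Uᗮ).starProjection x) = l x := by
    intro x
    have hmem : x - (Uᗮ).starProjection x ∈ U := by
      have h1 := Submodule.sub_starProjection_mem_orthogonal (K := Uᗮ) x
      rwa [Submodule.orthogonal_orthogonal] at h1
    have h2 : l (x - (Uᗮ).starProjection x) = 0 := hUker hmem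
    rw [map_sub, sub_eq_zero] at h2
    exact h2.symm
  have hintQ : ∀ y ∈ quo Γ U, ∃ z : ℤ, l y = z := by
    rintro y ⟨x, hx, rfl⟩
    obtain ⟨z, hz⟩ := hint x hx
    refine ⟨z, ?_⟩
    rw [← hz]
    exact hproj x
  have hinjQ : ∀ y ∈ quo Γ U, l y = 0 → y = 0 := by
    rintro y ⟨x, hx, rfl⟩ hy
    have hlx : l x = 0 := by
      rw [← hproj x]; exact hy
    have hxU : x ∈ U := Submodule.subset_span (show x ∈ Γ0 from ⟨hx, hlx⟩)
    show (Uᗮ).starProjection x = 0
    rw [Submodule.starProjection_apply_eq_zero_iff, Submodule.orthogonal_orthogonal]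
    exact hxU
  obtain ⟨y, hyQ, hyc⟩ := WQ_cyclic l hintQ hinjQ
  by_cases hy0 : y = 0
  · have hbot : quo Γ U = ⊥ := by
      rw [hyc, hy0]; simp
    rw [hbot, rk_bot, add_zero] at hrk
    rw [hbot, w_bot, mul_one] at hw
    refine ⟨by omega, ?_⟩
    rw [hrk, Nat.sub_self, pow_zero, mul_one, hw]
  · obtain ⟨-, hrk1, hw1⟩ := w_line hy0
    rw [← hyc] at hrk1 hw1
    rw [hrk1] at hrk
    rw [hw1] at hw
    refine ⟨by omega, ?_⟩
    have hnorm : 1 ≤ ‖y‖ := by
      obtain ⟨z, hz⟩ := hintQ y hyQ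
      have hz0 : z ≠ 0 := by
        rintro rfl
        exact hy0 (hinjQ y hyQ (by simpa using hz))
      have h1 : (1 : ℝ) ≤ |l y| := by
        rw [hz]
        exact_mod_cast Int.one_le_abs hz0
      exact h1.trans (hl y)
    have hnn : 0 ≤ w Γ0 := w_nonneg (h.mono inf_le_left)
    rw [hrk, Nat.add_sub_cancel_left, pow_one, hw]
    apply mul_le_mul_of_nonneg_left _ hnn
    apply div_le_self (Real.sqrt_nonneg _) hnorm

/-- integral lattices: finitely many integral functionals of norm at most one which separate `Γ` -/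
theorem w_int {Γ : AddSubgroup E} (h : Disc Γ) {ι : Type*} [Finite ι] (l : ι → (E →ₗ[ℝ] ℝ))
    (hl : ∀ i x, |l i x| ≤ ‖x‖) (hint : ∀ i, ∀ x ∈ Γ, ∃ z : ℤ, l i x = z)
    (hsep : ∀ x ∈ Γ, (∀ i, l i x = 0) → x = 0) :
    w Γ ≤ Real.sqrt Real.pi ^ rk Γ := by
  classical
  cases nonempty_fintype ι
  have main : ∀ s : Finset ι, ∀ Γ : AddSubgroup E, Disc Γ →
      (∀ i, ∀ x ∈ Γ, ∃ z : ℤ, l i x = z) → (∀ x ∈ Γ, (∀ i ∈ s, l i x = 0) → x = 0) →
      w Γ ≤ Real.sqrt Real.pi ^ rk Γ := by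
    intro s
    induction s using Finset.induction_on with
    | empty =>
      intro Γ hΓ _ hs
      have hbot : Γ = ⊥ := by
        rw [eq_bot_iff]
        intro x hx
        exact hs x hx (by simp)
      rw [hbot, w_bot, rk_bot, pow_zero]
    | insert i s hi ih =>
      intro Γ hΓ hintΓ hs
      obtain ⟨h1, h2⟩ := w_cut hΓ (l i) (hl i) (hintΓ i)
      have h3 := ih (cut Γ (LinearMap.ker (l i))) (hΓ.mono inf_le_left)
        (fun j x hx => hintΓ j x hx.1) (by
          intro x hx hz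
          apply hs x hx.1
          intro j hj
          rcases Finset.mem_insert.mp hj with rfl | hj
          · exact hx.2
          · exact hz j hj)
      have hle : rk (cut Γ (LinearMap.ker (l i))) ≤ rk Γ := rk_mono inf_le_left
      calc w Γ ≤ w (cut Γ (LinearMap.ker (l i))) *
            Real.sqrt Real.pi ^ (rk Γ - rk (cut Γ (LinearMap.ker (l i)))) := h2
        _ ≤ Real.sqrt Real.pi ^ rk (cut Γ (LinearMap.ker (l i))) *
            Real.sqrt Real.pi ^ (rk Γ - rk (cut Γ (LinearMap.ker (l i)))) := by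
              gcongr
        _ = Real.sqrt Real.pi ^ rk Γ := by
              rw [← pow_add, Nat.add_sub_cancel' hle]
  exact main Finset.univ Γ h hint (fun x hx hz => hsep x hx (fun i => hz i (Finset.mem_univ i)))

end H460
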